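import Pool.Agent.Lib.MP_2a260c_pr.Model

/-! The exact formula for the expected number of components of given size and number of edges. -/

namespace PA2a

set_option linter.unusedSectionVars false

open Finset

theorem split_prod {ι M : Type*} [Fintype ι] [DecidableEq ι] [CommMonoid M] (J : Finset ι) (f : ι → M) :
    ∏ i, f i = (∏ i : {i // i ∈ J}, f i.1) * ∏ i : {i // i ∉ J}, f i.1 := by
  rw [← Finset.prod_mul_prod_compl J f, Finset.prod_subtype J (fun x => Iff.rfl) f,
    Finset.prod_subtype Jᶜ (fun x => mem_compl) f]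

theorem split_sum {ι M : Type*} [Fintype ι] [DecidableEq ι] [AddCommMonoid M] (J : Finset ι) (f : ι → M) :
    ∑ i, f i = (∑ i : {i // i ∈ J}, f i.1) + ∑ i : {i // i ∉ J}, f i.1 := by
  rw [← Finset.sum_add_sum_compl J f, Finset.sum_subtype J (fun x => Iff.rfl) f,
    Finset.sum_subtype Jᶜ (fun x => mem_compl) f]

section sub

variable {V I : Type*} [Fintype V] [DecidableEq V] [Fintype I] [DecidableEq I]

theorem Closed.inter {x : I → V × V} {S T : Finset V} (hS : Closed x S) (hT : Closed x T) :
    Closed x (S ∩ T) := by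
  intro i
  rw [mem_inter, mem_inter, hS i, hT i]

theorem Closed.sdiff {x : I → V × V} {S T : Finset V} (hS : Closed x S) (hT : Closed x T) :
    Closed x (S \ T) := by
  intro i
  rw [mem_sdiff, mem_sdiff, hS i, hT i]

theorem IsComp.eq_of_inter {x : I → V × V} {S T : Finset V} (hS : IsComp x S) (hT : IsComp x T)
    (h : (S ∩ T).Nonempty) : S = T := by
  have h1 := hS.2.2 (S ∩ T) inter_subset_left h (hS.2.1.inter hT.2.1)
  have h2 := hT.2.2 (S ∩ T) inter_subset_right h (hS.2.1.inter hT.2.1)
  rw [← h1, h2]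

theorem IsComp.disjoint {x : I → V × V} {S T : Finset V} (hS : IsComp x S) (hT : IsComp x T)
    (h : S ≠ T) : Disjoint S T := by
  rw [disjoint_iff_inter_eq_empty]
  by_contra hne
  exact h (hS.eq_of_inter hT (nonempty_iff_ne_empty.2 hne))

theorem closed_map {P : V → Prop} {Q : I → Prop} [DecidablePred P] [DecidablePred Q]
    {x : I → V × V} {y : {i // Q i} → {v // P v} × {v // P v}}
    (hy : ∀ i, x i.1 = ((y i).1.1, (y i).2.1)) (hx : ∀ i, ¬ Q i → ¬ P (x i).1 ∧ ¬ P (x i).2)
    (T : Finset {v // P v}) :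
    Closed x (T.map (Function.Embedding.subtype P)) ↔ Closed y T := by
  have hmem : ∀ v : {v // P v}, v.1 ∈ T.map (Function.Embedding.subtype P) ↔ v ∈ T := by
    intro v
    constructor
    · intro h
      simp only [mem_map, Function.Embedding.subtype_apply] at h
      obtain ⟨w, hw, hwv⟩ := h
      rwa [Subtype.ext hwv] at hw
    · intro h
      exact mem_map_of_mem _ h
  constructor
  · intro h i
    have := h i.1
    rw [hy i, hmem, hmem] at this
    exact this
  · intro h i
    by_cases hQ : Q i
    · have := h ⟨i, hQ⟩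
      rw [hy ⟨i, hQ⟩, hmem, hmem]
      exact this
    · obtain ⟨h1, h2⟩ := hx i hQ
      constructor
      · intro h3
        exfalso
        simp only [mem_map, Function.Embedding.subtype_apply] at h3
        obtain ⟨v, _, hv⟩ := h3
        exact h1 (hv ▸ v.2)
      · intro h3
        exfalso
        simp only [mem_map, Function.Embedding.subtype_apply] at h3
        obtain ⟨v, _, hv⟩ := h3
        exact h2 (hv ▸ v.2)

theorem isComp_map {P : V → Prop} {Q : I → Prop} [DecidablePred P] [DecidablePred Q]
    {x : I → V × V} {y : {i // Q i} → {v // P v} × {v // P v}}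
    (hy : ∀ i, x i.1 = ((y i).1.1, (y i).2.1)) (hx : ∀ i, ¬ Q i → ¬ P (x i).1 ∧ ¬ P (x i).2)
    (T : Finset {v // P v}) :
    IsComp x (T.map (Function.Embedding.subtype P)) ↔ IsComp y T := by
  constructor
  · rintro ⟨h1, h2, h3⟩
    refine ⟨?_, (closed_map hy hx T).1 h2, ?_⟩
    · simpa using h1
    · intro T' hT' hne hcl
      have := h3 (T'.map (Function.Embedding.subtype P)) (map_subset_map.2 hT') (by simpa using hne)
        ((closed_map hy hx T').2 hcl)
      exact map_injective _ this
  · rintro ⟨h1, h2, h3⟩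
    refine ⟨by simpa using h1, (closed_map hy hx T).2 h2, ?_⟩
    intro T' hT' hne hcl
    have hT'eq : T' = (T'.subtype P).map (Function.Embedding.subtype P) := by
      rw [subtype_map]
      symm
      rw [filter_eq_self]
      intro v hv
      have := hT' hv
      simp only [mem_map, Function.Embedding.subtype_apply] at this
      obtain ⟨w, _, hw⟩ := this
      exact hw ▸ w.2
    rw [hT'eq] at hcl hne hT' ⊢
    rw [closed_map hy hx] at hcl
    rw [h3 (T'.subtype P) (map_subset_map.1 hT') (map_nonempty.1 hne) hcl]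

/-- gluing a multigraph on `S` with labels `J` and one on the complements -/
def glue (S : Finset V) (J : Finset I) (y : {i // i ∈ J} → {v // v ∈ S} × {v // v ∈ S})
    (z : {i // i ∉ J} → {v // v ∉ S} × {v // v ∉ S}) (i : I) : V × V :=
  if h : i ∈ J then ((y ⟨i, h⟩).1.1, (y ⟨i, h⟩).2.1) else ((z ⟨i, h⟩).1.1, (z ⟨i, h⟩).2.1)

variable {S : Finset V} {J : Finset I} (y : {i // i ∈ J} → {v // v ∈ S} × {v // v ∈ S})
    (z : {i // i ∉ J} → {v // v ∉ S} × {v // v ∉ S})

theorem glue_in (i : {i // i ∈ J}) : glue S J y z i.1 = ((y i).1.1, (y i).2.1) := by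
  simp [glue, i.2]

theorem glue_out (i : {i // i ∉ J}) : glue S J y z i.1 = ((z i).1.1, (z i).2.1) := by
  simp [glue, i.2]

theorem glue_mem_fst (i : I) : (glue S J y z i).1 ∈ S ↔ i ∈ J := by
  by_cases h : i ∈ J
  · rw [glue_in y z ⟨i, h⟩]
    simp [h]
  · rw [glue_out y z ⟨i, h⟩]
    simp only [h, iff_false]
    exact (z ⟨i, h⟩).1.2

theorem glue_mem_snd (i : I) : (glue S J y z i).2 ∈ S ↔ i ∈ J := by
  by_cases h : i ∈ J
  · rw [glue_in y z ⟨i, h⟩]
    simp [h]
  · rw [glue_out y z ⟨i, h⟩]
    simp only [h, iff_false]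
    exact (z ⟨i, h⟩).2.2

theorem glue_closed : Closed (glue S J y z) S := by
  intro i
  rw [glue_mem_fst, glue_mem_snd]

theorem dg_glue_in (v : {v // v ∈ S}) : dg (glue S J y z) v.1 = dg y v := by
  simp only [dg]
  rw [split_sum J]
  have h0 : ∀ i : {i // i ∉ J}, ((if (glue S J y z i.1).1 = v.1 then 1 else 0)
      + (if (glue S J y z i.1).2 = v.1 then 1 else 0)) = 0 := by
    intro i
    have h1 := glue_mem_fst y z i.1
    have h2 := glue_mem_snd y z i.1
    have h3 := i.2
    rw [if_neg (fun h => h3 (h1.1 (by rw [h]; exact v.2))),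
      if_neg (fun h => h3 (h2.1 (by rw [h]; exact v.2)))]
  rw [Fintype.sum_eq_zero _ h0, add_zero]
  refine sum_congr rfl (fun i _ => ?_)
  rw [glue_in]
  simp only [Subtype.ext_iff]

theorem dg_glue_out (v : {v // v ∉ S}) : dg (glue S J y z) v.1 = dg z v := by
  simp only [dg]
  rw [split_sum J]
  have h0 : ∀ i : {i // i ∈ J}, ((if (glue S J y z i.1).1 = v.1 then 1 else 0)
      + (if (glue S J y z i.1).2 = v.1 then 1 else 0)) = 0 := by
    intro i
    have h1 := glue_mem_fst y z i.1
    have h2 := glue_mem_snd y z i.1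
    have h3 := i.2
    rw [if_neg (fun h => v.2 (by rw [← h]; exact h1.2 h3)),
      if_neg (fun h => v.2 (by rw [← h]; exact h2.2 h3))]
  rw [Fintype.sum_eq_zero _ h0, zero_add]
  refine sum_congr rfl (fun i _ => ?_)
  rw [glue_out]
  simp only [Subtype.ext_iff]

theorem wt_glue (α : ℝ) : wt (fun _ => α) (glue S J y z) = wt (fun _ => α) y * wt (fun _ => α) z := by
  simp only [wt]
  rw [split_prod S]
  congr 1
  · refine prod_congr rfl (fun v _ => ?_)
    rw [dg_glue_in]
  · refine prod_congr rfl (fun v _ => ?_)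
    rw [dg_glue_out]

theorem glue_isComp : IsComp (glue S J y z) S ↔ Conn y := by
  have h := isComp_map (P := (· ∈ S)) (Q := (· ∈ J)) (x := glue S J y z) (y := y)
    (fun i => glue_in y z i) (fun i hi => ⟨fun h => hi ((glue_mem_fst y z i).1 h),
      fun h => hi ((glue_mem_snd y z i).1 h)⟩) univ
  have hu : (univ : Finset {v // v ∈ S}).map (Function.Embedding.subtype (· ∈ S)) = S := by
    ext v
    simp
  rw [hu] at h
  exact h

theorem glue_isComp_out (T : Finset {v // v ∉ S}) :
    IsComp (glue S J y z) (T.map (Function.Embedding.subtype (· ∉ S))) ↔ IsComp z T :=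
  isComp_map (P := (· ∉ S)) (Q := (· ∉ J)) (x := glue S J y z) (y := z)
    (fun i => glue_out y z i) (fun i hi => ⟨fun h => h ((glue_mem_fst y z i).2 (not_not.1 hi)),
      fun h => h ((glue_mem_snd y z i).2 (not_not.1 hi))⟩) T

theorem cnt_glue {κ : ℕ} (hS : IsComp (glue S J y z) S) (hκ : κ ≤ #S) :
    cnt κ (glue S J y z) = cnt κ z + 1 := by
  classical
  unfold cnt
  have : ({T : Finset V | IsComp (glue S J y z) T ∧ κ ≤ #T} : Finset (Finset V))
      = insert S (({T : Finset {v // v ∉ S} | IsComp z T ∧ κ ≤ #T} : Finset (Finset {v // v ∉ S})).map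
        (mapEmbedding (Function.Embedding.subtype (· ∉ S))).toEmbedding) := by
    ext T
    simp only [mem_filter, mem_univ, true_and, mem_insert, mem_map, RelEmbedding.coe_toEmbedding,
      mapEmbedding_apply]
    constructor
    · rintro ⟨h1, h2⟩
      by_cases hT : T = S
      · exact Or.inl hT
      · right
        have hdis := h1.disjoint hS hT
        have hT' : (T.subtype (· ∉ S)).map (Function.Embedding.subtype (· ∉ S)) = T := by
          rw [subtype_map, filter_eq_self]
          intro v hv hvS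
          exact (disjoint_left.1 hdis) hv hvS
        refine ⟨T.subtype (· ∉ S), ⟨?_, ?_⟩, hT'⟩
        · rw [← glue_isComp_out y z, hT']
          exact h1
        · rw [← card_map (Function.Embedding.subtype (· ∉ S)), hT']
          exact h2
    · rintro (h | ⟨T', ⟨h1, h2⟩, rfl⟩)
      · subst h
        exact ⟨hS, hκ⟩
      · exact ⟨(glue_isComp_out y z T').2 h1, by rw [card_map]; exact h2⟩
  rw [this, card_insert_of_notMem, card_map]
  simp only [mem_map, mem_filter, mem_univ, true_and, RelEmbedding.coe_toEmbedding,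
    mapEmbedding_apply, not_exists, not_and]
  intro T hT hTS
  obtain ⟨v, hv⟩ := hS.1
  rw [← hTS] at hv
  simp only [mem_map, Function.Embedding.subtype_apply] at hv
  obtain ⟨w, _, hw⟩ := hv
  have hv' : v ∈ S := by
    rw [← hTS]
    simp only [mem_map, Function.Embedding.subtype_apply]
    exact ⟨w, by assumption, hw⟩
  exact w.2 (hw ▸ hv')

/-- labels inside `S` -/
def insSet (x : I → V × V) (S : Finset V) : Finset I := {i | (x i).1 ∈ S}

theorem card_insSet (x : I → V × V) (S : Finset V) : #(insSet x S) = ins x S := rfl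

theorem insSet_glue : insSet (glue S J y z) S = J := by
  ext i
  simp [insSet, glue_mem_fst]

variable (S J)

theorem sum_glue (h : (I → V × V) → ℝ) [∀ x : I → V × V, Decidable (Closed x S ∧ insSet x S = J)] :
    ∑ x : I → V × V, (if Closed x S ∧ insSet x S = J then h x else 0)
      = ∑ yz : ({i // i ∈ J} → {v // v ∈ S} × {v // v ∈ S}) × ({i // i ∉ J} → {v // v ∉ S} × {v // v ∉ S}),
          h (glue S J yz.1 yz.2) := by
  classical
  rw [← sum_filter]
  symm
  apply sum_bij (fun yz _ => glue S J yz.1 yz.2)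
  · intro yz _
    simp only [mem_filter, mem_univ, true_and]
    exact ⟨glue_closed _ _, insSet_glue _ _⟩
  · rintro ⟨y1, z1⟩ _ ⟨y2, z2⟩ _ heq
    simp only at heq
    have hy : y1 = y2 := by
      funext i
      have := congrFun heq i.1
      rw [glue_in, glue_in, Prod.ext_iff] at this
      exact Prod.ext (Subtype.ext this.1) (Subtype.ext this.2)
    have hz : z1 = z2 := by
      funext i
      have := congrFun heq i.1
      rw [glue_out, glue_out, Prod.ext_iff] at this
      exact Prod.ext (Subtype.ext this.1) (Subtype.ext this.2)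
    rw [hy, hz]
  · intro x hx
    simp only [mem_filter, mem_univ, true_and] at hx
    obtain ⟨hcl, hJ⟩ := hx
    have h1 : ∀ i, i ∈ J ↔ (x i).1 ∈ S := by
      intro i
      rw [← hJ]
      simp [insSet]
    have h2 : ∀ i, i ∈ J ↔ (x i).2 ∈ S := by
      intro i
      rw [h1, hcl i]
    refine ⟨(fun i => (⟨(x i.1).1, (h1 i.1).1 i.2⟩, ⟨(x i.1).2, (h2 i.1).1 i.2⟩),
      fun i => (⟨(x i.1).1, fun h => i.2 ((h1 i.1).2 h)⟩, ⟨(x i.1).2, fun h => i.2 ((h2 i.1).2 h)⟩)),
      mem_univ _, ?_⟩
    funext i
    simp only [glue]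
    split_ifs <;> rfl
  · intro _ _
    rfl

end sub

section relabel

variable {V I V' I' : Type*} [Fintype V] [DecidableEq V] [Fintype I] [DecidableEq I]
  [Fintype V'] [DecidableEq V'] [Fintype I'] [DecidableEq I'] (σ : V ≃ V') (τ : I ≃ I')

/-- relabelling of vertices and edges -/
def rl : (I → V × V) ≃ (I' → V' × V') := Equiv.arrowCongr τ (Equiv.prodCongr σ σ)

theorem rl_apply (x : I → V × V) (i : I) : rl σ τ x (τ i) = (σ (x i).1, σ (x i).2) := by
  simp only [rl, Equiv.arrowCongr, Equiv.coe_fn_mk, Function.comp, Equiv.symm_apply_apply]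
  rfl

theorem dg_rl (x : I → V × V) (v : V) : dg (rl σ τ x) (σ v) = dg x v := by
  simp only [dg]
  symm
  refine Fintype.sum_equiv τ _ _ (fun i => ?_)
  rw [rl_apply]
  simp only [EmbeddingLike.apply_eq_iff_eq]

theorem wt_rl (α : ℝ) (x : I → V × V) : wt (fun _ => α) (rl σ τ x) = wt (fun _ => α) x := by
  simp only [wt]
  symm
  refine Fintype.prod_equiv σ _ _ (fun v => ?_)
  rw [dg_rl]

theorem closed_rl (x : I → V × V) (T : Finset V) :
    Closed (rl σ τ x) (T.map σ.toEmbedding) ↔ Closed x T := by
  have hmem : ∀ v : V, σ v ∈ T.map σ.toEmbedding ↔ v ∈ T := by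
    intro v
    simp
  constructor
  · intro h i
    have := h (τ i)
    rw [rl_apply] at this
    simp only at this
    rw [hmem, hmem] at this
    exact this
  · intro h i'
    obtain ⟨i, rfl⟩ := τ.surjective i'
    rw [rl_apply]
    simp only
    rw [hmem, hmem]
    exact h i

theorem isComp_rl (x : I → V × V) (S : Finset V) :
    IsComp (rl σ τ x) (S.map σ.toEmbedding) ↔ IsComp x S := by
  constructor
  · rintro ⟨h1, h2, h3⟩
    refine ⟨map_nonempty.1 h1, (closed_rl σ τ x S).1 h2, ?_⟩
    intro T hT hne hcl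
    exact map_injective _ (h3 (T.map σ.toEmbedding) (map_subset_map.2 hT) (map_nonempty.2 hne)
      ((closed_rl σ τ x T).2 hcl))
  · rintro ⟨h1, h2, h3⟩
    refine ⟨map_nonempty.2 h1, (closed_rl σ τ x S).2 h2, ?_⟩
    intro T hT hne hcl
    obtain ⟨T', rfl⟩ : ∃ T' : Finset V, T = T'.map σ.toEmbedding := by
      refine ⟨T.map σ.symm.toEmbedding, ?_⟩
      rw [map_map]
      ext v
      simp
    rw [h3 T' (map_subset_map.1 hT) (map_nonempty.1 hne) ((closed_rl σ τ x T').1 hcl)]

theorem conn_rl (x : I → V × V) : Conn (rl σ τ x) ↔ Conn x := by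
  unfold Conn
  rw [← isComp_rl σ τ x univ]
  have : (univ : Finset V).map σ.toEmbedding = univ := by simp
  rw [this]

theorem cnt_rl (κ : ℕ) (x : I → V × V) : cnt κ (rl σ τ x) = cnt κ x := by
  classical
  unfold cnt
  symm
  refine card_bij (fun S _ => S.map σ.toEmbedding) ?_ ?_ ?_
  · intro S hS
    simp only [mem_filter, mem_univ, true_and] at hS ⊢
    rw [isComp_rl, card_map]
    exact hS
  · intro S _ T _ h
    exact map_injective _ h
  · intro T hT
    refine ⟨T.map σ.symm.toEmbedding, ?_, ?_⟩
    · simp only [mem_filter, mem_univ, true_and] at hT ⊢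
      rw [← isComp_rl σ τ, card_map]
      have : (T.map σ.symm.toEmbedding).map σ.toEmbedding = T := by
        rw [map_map]
        ext v
        simp
      rw [this]
      exact hT
    · rw [map_map]
      ext v
      simp

open Classical in
theorem sum_conn (α : ℝ) {k e : ℕ} (hk : Fintype.card V = k) (he : Fintype.card I = e) :
    ∑ y : I → V × V, (if Conn y then wt (fun _ => α) y else 0) = cn α k e := by
  unfold cn
  let σ : V ≃ Fin k := Fintype.equivFinOfCardEq hk
  let τ : I ≃ Fin e := Fintype.equivFinOfCardEq he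
  refine Fintype.sum_equiv (rl σ τ) _ _ (fun y => ?_)
  simp only [conn_rl, wt_rl]

theorem Z_mul_E {α : ℝ} (hα : 0 < α) (n m : ℕ) (f : (Fin m → Fin n × Fin n) → ℝ) :
    Z α n m * E α n m f = ∑ x : Fin m → Fin n × Fin n, wt (fun _ => α) x * f x := by
  unfold E
  by_cases h : Z α n m = 0
  · rw [h, zero_mul]
    symm
    apply sum_eq_zero
    intro x _
    exfalso
    rcases Nat.eq_zero_or_pos n with hn | hn
    · subst hn
      rcases Nat.eq_zero_or_pos m with hm | hm
      · subst hm
        simp [Z, rise_zero] at h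
      · exact (x ⟨0, hm⟩).1.elim0
    · have : 0 < Z α n m := rise_pos (by positivity) _
      exact this.ne' h
  · field_simp

theorem sum_cnt {α : ℝ} (hα : 0 < α) (κ : ℕ) {n m : ℕ} (hk : Fintype.card V = n)
    (he : Fintype.card I = m) :
    ∑ z : I → V × V, wt (fun _ => α) z * (cnt κ z : ℝ) = Z α n m * E α n m (fun x => (cnt κ x : ℝ)) := by
  rw [Z_mul_E hα]
  let σ : V ≃ Fin n := Fintype.equivFinOfCardEq hk
  let τ : I ≃ Fin m := Fintype.equivFinOfCardEq he
  refine Fintype.sum_equiv (rl σ τ) _ _ (fun y => ?_)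
  simp only [cnt_rl, wt_rl]

theorem sum_one {α : ℝ} {n m : ℕ} (hk : Fintype.card V = n) (he : Fintype.card I = m) :
    ∑ z : I → V × V, wt (fun _ => α) z = Z α n m := by
  rw [sum_wt, he]
  simp [Z, hk]

end relabel

section formula

variable {n m : ℕ}

open Classical in
/-- master formula -/
theorem sum_comp (α : ℝ) (A : Finset (ℕ × ℕ)) (g : (Fin m → Fin n × Fin n) → ℝ) (G : ℕ → ℕ → ℝ)
    (hg : ∀ (S : Finset (Fin n)) (J : Finset (Fin m)), (#S, #J) ∈ A →
      ∀ y : {i // i ∈ J} → {v // v ∈ S} × {v // v ∈ S}, Conn y →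
      ∑ z : {i // i ∉ J} → {v // v ∉ S} × {v // v ∉ S}, wt (fun _ => α) z * g (glue S J y z)
        = G #S #J) :
    ∑ x : Fin m → Fin n × Fin n, wt (fun _ => α) x * ((cntA A x : ℝ) * g x)
      = ∑ p ∈ A, (n.choose p.1) * (m.choose p.2) * cn α p.1 p.2 * G p.1 p.2 := by
  have h1 : ∀ x : Fin m → Fin n × Fin n, wt (fun _ => α) x * ((cntA A x : ℝ) * g x)
      = ∑ S : Finset (Fin n), ∑ J : Finset (Fin m), if (#S, #J) ∈ A then
          (if Closed x S ∧ insSet x S = J then
            (if IsComp x S then wt (fun _ => α) x * g x else 0) else 0) else 0 := by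
    intro x
    have : (cntA A x : ℝ) = ∑ S : Finset (Fin n), if IsComp x S ∧ (#S, ins x S) ∈ A then 1 else 0 := by
      unfold cntA
      rw [card_filter]
      push_cast
      rfl
    rw [this, sum_mul, mul_sum]
    apply sum_congr rfl
    intro S _
    rw [sum_eq_single (insSet x S)]
    · rw [card_insSet]
      by_cases hS : IsComp x S
      · by_cases hA : (#S, ins x S) ∈ A
        · simp [hS, hA, hS.2.1]
        · simp [hA]
      · simp [hS]
    · intro J _ hJ
      have : ¬ (Closed x S ∧ insSet x S = J) := fun h => hJ h.2.symm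
      simp [this]
    · intro h
      exact absurd (mem_univ _) h
  rw [sum_congr rfl (fun x _ => h1 x), sum_comm]
  have h2 : ∀ S : Finset (Fin n), ∑ x : Fin m → Fin n × Fin n, ∑ J : Finset (Fin m),
      (if (#S, #J) ∈ A then (if Closed x S ∧ insSet x S = J then
            (if IsComp x S then wt (fun _ => α) x * g x else 0) else 0) else 0)
      = ∑ J : Finset (Fin m), if (#S, #J) ∈ A then cn α #S #J * G #S #J else 0 := by
    intro S
    rw [sum_comm]
    apply sum_congr rfl
    intro J _
    by_cases hA : (#S, #J) ∈ A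
    · simp only [hA, if_true]
      rw [sum_glue S J, Fintype.sum_prod_type]
      have h3 : ∀ y : {i // i ∈ J} → {v // v ∈ S} × {v // v ∈ S},
          ∑ z : {i // i ∉ J} → {v // v ∉ S} × {v // v ∉ S},
            (if IsComp (glue S J y z) S then wt (fun _ => α) (glue S J y z) * g (glue S J y z) else 0)
          = (if Conn y then wt (fun _ => α) y else 0) * G #S #J := by
        intro y
        by_cases hy : Conn y
        · rw [if_pos hy, ← hg S J hA y hy, mul_sum]
          apply sum_congr rfl
          intro z _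
          rw [if_pos ((glue_isComp y z).2 hy), wt_glue]
          ring
        · rw [if_neg hy, zero_mul]
          apply sum_eq_zero
          intro z _
          rw [if_neg (fun h => hy ((glue_isComp y z).1 h))]
      rw [sum_congr rfl (fun y _ => h3 y), ← sum_mul]
      congr 1
      exact sum_conn α (by simp) (by simp)
    · simp [hA]
  rw [sum_congr rfl (fun S _ => h2 S)]
  -- group by cardinalities
  have h4 : ∀ S : Finset (Fin n), ∀ J : Finset (Fin m),
      (if (#S, #J) ∈ A then cn α #S #J * G #S #J else 0)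
      = ∑ p ∈ A, if #S = p.1 then (if #J = p.2 then cn α p.1 p.2 * G p.1 p.2 else 0) else 0 := by
    intro S J
    by_cases hA : (#S, #J) ∈ A
    · rw [if_pos hA, sum_eq_single (#S, #J)]
      · simp
      · rintro ⟨k, e⟩ _ hne
        simp only
        split_ifs with h5 h6
        · exact absurd (by rw [h5, h6]) hne
        · rfl
        · rfl
      · intro h
        exact absurd hA h
    · rw [if_neg hA]
      symm
      apply sum_eq_zero
      rintro ⟨k, e⟩ hp
      simp only
      split_ifs with h5 h6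
      · rw [← h5, ← h6] at hp
        exact absurd hp hA
      · rfl
      · rfl
  simp only [h4]
  rw [sum_congr rfl (fun S _ => sum_comm), sum_comm]
  apply sum_congr rfl
  intro p _
  have h5 : ∀ S : Finset (Fin n), ∑ J : Finset (Fin m),
      (if #S = p.1 then (if #J = p.2 then cn α p.1 p.2 * G p.1 p.2 else 0) else 0)
      = if #S = p.1 then (m.choose p.2) * (cn α p.1 p.2 * G p.1 p.2) else 0 := by
    intro S
    split_ifs
    · rw [← sum_filter, sum_const, nsmul_eq_mul]
      congr 2
      have : (univ.filter (fun J : Finset (Fin m) => #J = p.2)) = powersetCard p.2 univ := by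
        ext J
        simp [mem_powersetCard]
      rw [this, card_powersetCard]
      simp
    · simp
  rw [sum_congr rfl (fun S _ => h5 S), ← sum_filter, sum_const, nsmul_eq_mul]
  have : (univ.filter (fun S : Finset (Fin n) => #S = p.1)) = powersetCard p.1 univ := by
    ext J
    simp [mem_powersetCard]
  rw [this, card_powersetCard]
  simp only [card_univ, Fintype.card_fin]
  ring

theorem E_cntA {α : ℝ} (A : Finset (ℕ × ℕ)) :
    E α n m (fun x => (cntA A x : ℝ)) = ∑ p ∈ A, q α n m p.1 p.2 * cn α p.1 p.2 := by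
  classical
  have h := sum_comp (n := n) (m := m) α A (fun _ => 1) (fun k e => Z α (n - k) (m - e)) (by
    intro S J _ y _
    simp only [mul_one]
    exact sum_one (by simp [Fintype.card_subtype_compl]) (by simp [Fintype.card_subtype_compl]))
  simp only [mul_one] at h
  unfold E
  rw [h, sum_div]
  apply sum_congr rfl
  intro p _
  unfold q Z
  ring

theorem cnt_eq_cntA (κ : ℕ) (x : Fin m → Fin n × Fin n) :
    cnt κ x = cntA ((Icc κ n) ×ˢ (range (m + 1))) x := by
  classical
  unfold cnt cntA
  congr 1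
  ext S
  simp only [mem_filter, mem_univ, true_and, mem_product, mem_Icc, mem_range]
  have h1 : #S ≤ n := by simpa using card_le_univ S
  have h2 : ins x S < m + 1 := by
    unfold ins
    have := card_le_univ (filter (fun i => (x i).1 ∈ S) univ)
    rw [Fintype.card_fin] at this
    omega
  tauto

theorem E_cnt {α : ℝ} (κ : ℕ) :
    E α n m (fun x => (cnt κ x : ℝ))
      = ∑ p ∈ (Icc κ n) ×ˢ (range (m + 1)), q α n m p.1 p.2 * cn α p.1 p.2 := by
  rw [← E_cntA]
  simp only [cnt_eq_cntA]

theorem E_cnt_pair {α : ℝ} (hα : 0 < α) (κ : ℕ) :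
    E α n m (fun x => (cnt κ x : ℝ) * ((cnt κ x : ℝ) - 1))
      = ∑ p ∈ (Icc κ n) ×ˢ (range (m + 1)), q α n m p.1 p.2 * cn α p.1 p.2
          * E α (n - p.1) (m - p.2) (fun x => (cnt κ x : ℝ)) := by
  classical
  have h := sum_comp (n := n) (m := m) α ((Icc κ n) ×ˢ (range (m + 1)))
    (fun x => (cnt κ x : ℝ) - 1)
    (fun k e => Z α (n - k) (m - e) * E α (n - k) (m - e) (fun x => (cnt κ x : ℝ))) (by
    intro S J hA y hy
    rw [← sum_cnt hα κ (V := {v // v ∉ S}) (I := {i // i ∉ J})
      (by simp [Fintype.card_subtype_compl]) (by simp [Fintype.card_subtype_compl])]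
    apply sum_congr rfl
    intro z _
    have hκ : κ ≤ #S := by
      simp only [mem_product, mem_Icc] at hA
      exact hA.1.1
    rw [cnt_glue y z ((glue_isComp y z).2 hy) hκ]
    push_cast
    ring)
  simp only [← cnt_eq_cntA] at h
  unfold E at h ⊢
  rw [h, sum_div]
  apply sum_congr rfl
  intro p _
  unfold q Z
  ring

end formula

end PA2a
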