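import Mathlib

/-! The preferential attachment process without vertex growth: definitions for MP_2a260c_pr. -/

namespace PA2a

open scoped ENNReal

/-- The degree of the vertex `v` in `G`. -/
noncomputable def degree {n : ℕ} (G : SimpleGraph (Fin n)) (v : Fin n) : ℕ :=
  (G.neighborSet v).ncard

open Classical in
/-- The weight `(d_v + α) (d_w + α)` of an ordered pair `(v, w)` of distinct, non-adjacent vertices;
all other pairs have weight `0`. -/
noncomputable def pairWeight {n : ℕ} (α : ℝ) (G : SimpleGraph (Fin n)) (p : Fin n × Fin n) : ℝ≥0∞ :=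
  if p.1 ≠ p.2 ∧ ¬ G.Adj p.1 p.2 then
    ENNReal.ofReal ((degree G p.1 + α) * (degree G p.2 + α)) else 0

theorem pairWeight_ne_top {n : ℕ} (α : ℝ) (G : SimpleGraph (Fin n)) :
    ∑' p, pairWeight α G p ≠ ∞ := by
  rw [tsum_fintype, ENNReal.sum_ne_top]
  intro p _
  unfold pairWeight
  split_ifs
  · exact ENNReal.ofReal_ne_top
  · exact ENNReal.zero_ne_top

open Classical in
/-- One step of the process: an ordered pair `(v, w)` of distinct, non-adjacent vertices is drawn with
probability proportional to `(d_v + α) (d_w + α)`, and the edge `vw` is added.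
(If there is no such pair, the graph stays as it is.) -/
noncomputable def step {n : ℕ} (α : ℝ) (G : SimpleGraph (Fin n)) : PMF (SimpleGraph (Fin n)) :=
  if h : ∑' p, pairWeight α G p ≠ 0 then
    (PMF.normalize (pairWeight α G) h (pairWeight_ne_top α G)).map
      (fun p => G ⊔ SimpleGraph.edge p.1 p.2)
  else PMF.pure G

/-- The law of the random graph `G^α_{n,m}`: start with no edges, and make `m` steps. -/
noncomputable def law (α : ℝ) (n : ℕ) : ℕ → PMF (SimpleGraph (Fin n))
  | 0 => PMF.pure ⊥
  | m + 1 => (law α n m).bind (step α)

open Classical in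
/-- The numbers of vertices of the connected components of `G`, in decreasing order. -/
noncomputable def compSizes {n : ℕ} (G : SimpleGraph (Fin n)) : List ℕ :=
  ((Finset.univ : Finset G.ConnectedComponent).val.map (fun C => C.supp.ncard)).sort (· ≥ ·)

/-- `L j G`: the number of vertices of the `j`-th largest component (`0` if there are fewer than `j`
components), for `j ≥ 1`. -/
noncomputable def L (j : ℕ) {n : ℕ} (G : SimpleGraph (Fin n)) : ℕ := (compSizes G).getD (j - 1) 0

end PA2a
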