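import Pool.Agent.Lib.MP_2a260c_pr.Model

/-! Components with many excess edges (union bound). -/

namespace PA2a

open Finset

open Classical in
/-- total weight of the sequences of pairs all of whose entries with labels in `J` are in `S × S` -/
theorem sum_inside {α : ℝ} (n m : ℕ) (S : Finset (Fin n)) (J : Finset (Fin m)) :
    ∑ x : Fin m → Fin n × Fin n,
        wt (fun _ => α) x * (if ∀ i ∈ J, (x i).1 ∈ S ∧ (x i).2 ∈ S then 1 else 0)
      = rise (#S * α) (2 * #J) * rise (n * α + 2 * #J) (2 * (m - #J)) := by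
  have h1 : ∀ x : Fin m → Fin n × Fin n,
      wt (fun _ => α) x * (if ∀ i ∈ J, (x i).1 ∈ S ∧ (x i).2 ∈ S then (1 : ℝ) else 0)
        = ∑ p : J → Fin n × Fin n, (if ∀ j, (p j).1 ∈ S ∧ (p j).2 ∈ S then (1 : ℝ) else 0) *
            (if ∀ j : J, x (j : Fin m) = p j then wt (fun _ => α) x else 0) := by
    intro x
    rw [sum_eq_single (fun j : J => x (j : Fin m))]
    · simp only [implies_true, if_true]
      rw [mul_comm]
      congr 1
      by_cases h : ∀ i ∈ J, (x i).1 ∈ S ∧ (x i).2 ∈ S
      · have h' : ∀ j : J, (x j).1 ∈ S ∧ (x j).2 ∈ S := fun j => h j.1 j.2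
        rw [if_pos h, if_pos h']
      · have h' : ¬ ∀ j : J, (x j).1 ∈ S ∧ (x j).2 ∈ S := fun h' => h (fun i hi => h' ⟨i, hi⟩)
        rw [if_neg h, if_neg h']
    · intro p _ hp
      rw [if_neg (c := ∀ j : J, x (j : Fin m) = p j) (fun h => hp (funext fun j => (h j).symm)),
        mul_zero]
    · intro h
      exact absurd (mem_univ _) h
  simp only [h1]
  rw [sum_comm]
  have h2 : ∀ p : J → Fin n × Fin n,
      ∑ x : Fin m → Fin n × Fin n, (if ∀ j, (p j).1 ∈ S ∧ (p j).2 ∈ S then (1 : ℝ) else 0) *
            (if ∀ j : J, x (j : Fin m) = p j then wt (fun _ => α) x else 0)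
        = wt (fun v => if v ∈ S then α else 0) p *
          rise (n * α + 2 * #J) (2 * (m - #J)) := by
    intro p
    rw [← mul_sum, sum_wt_marg (fun _ => α) (fun j : J => (j : Fin m)) Subtype.val_injective p]
    simp only [sum_const, card_univ, Fintype.card_fin, nsmul_eq_mul, Fintype.card_coe]
    rw [← mul_assoc]
    congr 1
    by_cases h : ∀ j, (p j).1 ∈ S ∧ (p j).2 ∈ S
    · rw [if_pos h, one_mul]
      apply prod_congr rfl
      intro v _
      by_cases hv : v ∈ S
      · simp only [if_pos hv]
      · have h0 : dg p v = 0 := by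
          simp only [dg]
          apply sum_eq_zero
          intro j _
          rw [if_neg (fun he => hv (by rw [← he]; exact (h j).1)),
            if_neg (fun he => hv (by rw [← he]; exact (h j).2)), add_zero]
        simp only [h0, rise_zero]
    · rw [if_neg h, zero_mul]
      symm
      push Not at h
      obtain ⟨j, hj⟩ := h
      have : ∃ v, v ∉ S ∧ dg p v ≠ 0 := by
        by_cases h1 : (p j).1 ∈ S
        · refine ⟨(p j).2, hj h1, ?_⟩
          apply ne_of_gt
          simp only [dg]
          refine sum_pos' (fun _ _ => Nat.zero_le _) ⟨j, mem_univ _, ?_⟩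
          simp
        · refine ⟨(p j).1, h1, ?_⟩
          apply ne_of_gt
          simp only [dg]
          refine sum_pos' (fun _ _ => Nat.zero_le _) ⟨j, mem_univ _, ?_⟩
          simp
      obtain ⟨v, hv, hd⟩ := this
      refine prod_eq_zero (mem_univ v) ?_
      simp only [if_neg hv]
      exact rise_zero_left hd
  simp only [h2]
  rw [← sum_mul, sum_wt]
  congr 2
  · simp [sum_ite_mem]
  · simp

theorem rise_le_pow {a : ℝ} (ha : 0 ≤ a) {j : ℕ} {b : ℝ} (hb : a + j ≤ b) : rise a j ≤ b ^ j := by
  unfold rise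
  calc ∏ i ∈ range j, (a + i) ≤ ∏ _i ∈ range j, b := by
        apply prod_le_prod
        · intro i _; positivity
        · intro i hi
          have : (i : ℝ) ≤ j := by exact_mod_cast (mem_range.1 hi).le
          linarith
    _ = b ^ j := by simp

theorem pow_le_rise {a : ℝ} (ha : 0 ≤ a) (j : ℕ) : a ^ j ≤ rise a j := by
  unfold rise
  calc a ^ j = ∏ _i ∈ range j, a := by simp
    _ ≤ ∏ i ∈ range j, (a + i) := by
        apply prod_le_prod
        · intro i _; exact ha
        · intro i _
          have : (0 : ℝ) ≤ i := by positivity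
          linarith

theorem choose_le_aux (n k : ℕ) (hk : 0 < k) : (n.choose k : ℝ) ≤ (3 * n / k) ^ k := by
  have h1 : (n.choose k : ℝ) ≤ (n : ℝ) ^ k / k.factorial := Nat.choose_le_pow_div k n
  have h2 : (k : ℝ) ^ k / k.factorial ≤ 3 ^ k := by
    calc (k : ℝ) ^ k / k.factorial ≤ Real.exp k := Real.pow_div_factorial_le_exp _ (by positivity) _
      _ = Real.exp 1 ^ k := by rw [← Real.exp_nat_mul, mul_one]
      _ ≤ 3 ^ k := by
        apply pow_le_pow_left₀ (Real.exp_pos 1).le
        have := Real.exp_one_lt_d9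
        linarith
  have hk' : (0 : ℝ) < k := by exact_mod_cast hk
  calc (n.choose k : ℝ) ≤ (n : ℝ) ^ k / k.factorial := h1
    _ = ((n : ℝ) / k) ^ k * ((k : ℝ) ^ k / k.factorial) := by
        rw [div_pow]
        field_simp
    _ ≤ ((n : ℝ) / k) ^ k * 3 ^ k := by
        apply mul_le_mul_of_nonneg_left h2
        positivity
    _ = (3 * n / k) ^ k := by
        rw [← mul_pow]
        congr 1
        ring

open Classical in
theorem E_excess_le {α c3 : ℝ} (hα : 0 < α) (h3 : 0 < c3) :
    ∃ ε1 > 0, ∀ n m k : ℕ, 0 < k → m ≤ n → (k : ℝ) ≤ ε1 * n →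
      E α n m (fun x => (#{S : Finset (Fin n) | IsComp x S ∧ #S = k ∧ (1 + c3) * k ≤ ins x S} : ℝ))
        ≤ (1 / 2) ^ k := by
  -- constants
  obtain ⟨N, hN⟩ := exists_nat_ge (2 + c3)
  set A : ℝ := max 1 ((α + 2 * N) / α) with hA
  set C : ℝ := 3 ^ (1 + N) * A ^ (2 * N) with hC
  have hA1 : 1 ≤ A := le_max_left _ _
  have hCpos : 0 < C := by positivity
  refine ⟨min 1 ((1 / (2 * C)) ^ (1 / c3)), by positivity, ?_⟩
  intro n m k hk hmn hkn
  have hk' : (0 : ℝ) < k := by exact_mod_cast hk
  have hk1 : (1 : ℝ) ≤ k := by exact_mod_cast hk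
  have hn : (0 : ℝ) < n := by
    rcases Nat.eq_zero_or_pos n with rfl | h
    · simp at hkn
      omega
    · exact_mod_cast h
  set e0 : ℕ := ⌈(1 + c3) * k⌉₊ with he0
  have he1 : (1 + c3) * k ≤ e0 := Nat.le_ceil _
  have he2 : (e0 : ℝ) ≤ N * k := by
    have := Nat.ceil_lt_add_one (show 0 ≤ (1 + c3) * (k : ℝ) by positivity)
    calc (e0 : ℝ) ≤ (1 + c3) * k + 1 := this.le
      _ ≤ (2 + c3) * k := by nlinarith
      _ ≤ N * k := by
        apply mul_le_mul_of_nonneg_right hN hk'.le
  have he2' : e0 ≤ N * k := by exact_mod_cast he2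
  have hek : k ≤ e0 := by
    have : (k : ℝ) ≤ e0 := by nlinarith
    exact_mod_cast this
  have he0pos : 0 < e0 := lt_of_lt_of_le hk hek
  -- the pointwise bound
  have hpt : ∀ x : Fin m → Fin n × Fin n,
      (#{S : Finset (Fin n) | IsComp x S ∧ #S = k ∧ (1 + c3) * k ≤ ins x S} : ℝ)
        ≤ ∑ S ∈ powersetCard k (univ : Finset (Fin n)), ∑ J ∈ powersetCard e0 (univ : Finset (Fin m)),
            (if ∀ i ∈ J, (x i).1 ∈ S ∧ (x i).2 ∈ S then (1 : ℝ) else 0) := by
    intro x
    have hnn : ∀ S : Finset (Fin n), (0 : ℝ) ≤ ∑ J ∈ powersetCard e0 (univ : Finset (Fin m)),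
            (if ∀ i ∈ J, (x i).1 ∈ S ∧ (x i).2 ∈ S then (1 : ℝ) else 0) := by
      intro S
      apply sum_nonneg
      intro J _
      split_ifs <;> norm_num
    rw [card_eq_sum_ones]
    push_cast
    refine (sum_le_sum (g := fun S => ∑ J ∈ powersetCard e0 (univ : Finset (Fin m)),
            (if ∀ i ∈ J, (x i).1 ∈ S ∧ (x i).2 ∈ S then (1 : ℝ) else 0)) ?_).trans
      (sum_le_sum_of_subset_of_nonneg ?_ fun S _ _ => hnn S)
    · intro S hS
      rw [mem_filter] at hS
      obtain ⟨_, ⟨_, hcl, _⟩, _, hins⟩ := hS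
      have hins' : e0 ≤ ins x S := Nat.ceil_le.2 hins
      obtain ⟨J, hJ, hJc⟩ := exists_subset_card_eq hins'
      refine le_trans ?_ (single_le_sum (f := fun J =>
        (if ∀ i ∈ J, (x i).1 ∈ S ∧ (x i).2 ∈ S then (1 : ℝ) else 0)) ?_
        (mem_powersetCard_univ.2 hJc))
      · rw [if_pos]
        intro i hi
        have := (mem_filter.1 (hJ hi)).2
        exact ⟨this, (hcl i).1 this⟩
      · intro J _
        split_ifs <;> norm_num
    · intro S hS
      rw [mem_filter] at hS
      exact mem_powersetCard_univ.2 hS.2.2.1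
  have hZ : 0 < Z α n m := rise_pos (by positivity) _
  -- the expectation
  have hE : E α n m (fun x => (#{S : Finset (Fin n) | IsComp x S ∧ #S = k ∧ (1 + c3) * k ≤ ins x S} : ℝ))
      ≤ (n.choose k : ℝ) * (m.choose e0) * (rise (k * α) (2 * e0) / rise (n * α) (2 * e0)) := by
    unfold E
    rw [div_le_iff₀ hZ]
    calc ∑ x : Fin m → Fin n × Fin n, wt (fun _ => α) x *
          (#{S : Finset (Fin n) | IsComp x S ∧ #S = k ∧ (1 + c3) * k ≤ ins x S} : ℝ)
        ≤ ∑ x : Fin m → Fin n × Fin n, wt (fun _ => α) x *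
          ∑ S ∈ powersetCard k (univ : Finset (Fin n)), ∑ J ∈ powersetCard e0 (univ : Finset (Fin m)),
            (if ∀ i ∈ J, (x i).1 ∈ S ∧ (x i).2 ∈ S then (1 : ℝ) else 0) := by
          apply sum_le_sum
          intro x _
          exact mul_le_mul_of_nonneg_left (hpt x) (wt_nonneg (fun _ => hα.le) x)
      _ = ∑ S ∈ powersetCard k (univ : Finset (Fin n)), ∑ J ∈ powersetCard e0 (univ : Finset (Fin m)),
          ∑ x : Fin m → Fin n × Fin n, wt (fun _ => α) x *
            (if ∀ i ∈ J, (x i).1 ∈ S ∧ (x i).2 ∈ S then (1 : ℝ) else 0) := by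
          simp only [mul_sum]
          rw [sum_comm]
          apply sum_congr rfl
          intro S _
          rw [sum_comm]
      _ = ∑ S ∈ powersetCard k (univ : Finset (Fin n)), ∑ J ∈ powersetCard e0 (univ : Finset (Fin m)),
            rise (k * α) (2 * e0) * rise (n * α + 2 * e0) (2 * (m - e0)) := by
          apply sum_congr rfl
          intro S hS
          apply sum_congr rfl
          intro J hJ
          rw [sum_inside, mem_powersetCard_univ.1 hS, mem_powersetCard_univ.1 hJ]
      _ = (n.choose k : ℝ) * (m.choose e0) *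
            (rise (k * α) (2 * e0) * rise (n * α + 2 * e0) (2 * (m - e0))) := by
          simp only [sum_const, card_powersetCard, card_univ, Fintype.card_fin, nsmul_eq_mul]
          ring
      _ = (n.choose k : ℝ) * (m.choose e0) *
            (rise (k * α) (2 * e0) / rise (n * α) (2 * e0)) * Z α n m := by
          by_cases hem : e0 ≤ m
          · have hr : Z α n m = rise (n * α) (2 * e0) * rise (n * α + 2 * e0) (2 * (m - e0)) := by
              have := rise_add (n * α) (2 * e0) (2 * (m - e0))
              rw [show 2 * e0 + 2 * (m - e0) = 2 * m by omega] at this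
              rw [Z, this]
              push_cast
              rfl
            have hp : 0 < rise (n * α) (2 * e0) := rise_pos (by positivity) _
            rw [hr]
            generalize rise (↑n * α) (2 * e0) = R at hp
            generalize rise (↑n * α + 2 * ↑e0) (2 * (m - e0)) = Q
            field_simp
          · rw [Nat.choose_eq_zero_of_lt (by omega : m < e0)]
            simp
  refine hE.trans ?_
  -- the analysis
  set t : ℝ := k / n with ht
  have htpos : 0 < t := by positivity
  have htε : t ≤ min 1 ((1 / (2 * C)) ^ (1 / c3)) := by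
    rw [ht, div_le_iff₀ hn]
    exact hkn
  have ht1 : t ≤ 1 := htε.trans (min_le_left _ _)
  have htc : t ^ c3 ≤ 1 / (2 * C) := by
    calc t ^ c3 ≤ ((1 / (2 * C)) ^ (1 / c3)) ^ c3 :=
          Real.rpow_le_rpow htpos.le (htε.trans (min_le_right _ _)) h3.le
      _ = 1 / (2 * C) := by
          rw [← Real.rpow_mul (by positivity), one_div_mul_cancel h3.ne', Real.rpow_one]
  have hb1 : (n.choose k : ℝ) ≤ (3 / t) ^ k := by
    refine (choose_le_aux n k hk).trans (le_of_eq ?_)
    congr 1
    rw [ht]
    field_simp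
  have hb2 : (m.choose e0 : ℝ) ≤ (3 / t) ^ e0 := by
    refine (choose_le_aux m e0 he0pos).trans ?_
    apply pow_le_pow_left₀ (by positivity)
    rw [ht, div_div_eq_mul_div]
    have h1 : (m : ℝ) ≤ n := by exact_mod_cast hmn
    have h2 : (k : ℝ) ≤ e0 := by exact_mod_cast hek
    calc 3 * (m : ℝ) / e0 ≤ 3 * n / e0 := by gcongr
      _ ≤ 3 * n / k := by gcongr
  have hb3 : rise (k * α) (2 * e0) / rise (n * α) (2 * e0) ≤ (A * t) ^ (2 * e0) := by
    have h1 : rise (k * α) (2 * e0) ≤ ((α + 2 * N) * k) ^ (2 * e0) := by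
      apply rise_le_pow (by positivity)
      push_cast
      nlinarith
    have h2 : (n * α) ^ (2 * e0) ≤ rise (n * α) (2 * e0) := pow_le_rise (by positivity) _
    calc rise (k * α) (2 * e0) / rise (n * α) (2 * e0)
        ≤ ((α + 2 * N) * k) ^ (2 * e0) / (n * α) ^ (2 * e0) := by
          apply div_le_div₀ (by positivity) h1 (by positivity) h2
      _ = ((α + 2 * N) / α * t) ^ (2 * e0) := by
          rw [← div_pow]
          congr 1
          rw [ht]
          field_simp
      _ ≤ (A * t) ^ (2 * e0) := by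
          apply pow_le_pow_left₀ (by positivity)
          exact mul_le_mul_of_nonneg_right (le_max_right _ _) htpos.le
  calc (n.choose k : ℝ) * (m.choose e0) * (rise (k * α) (2 * e0) / rise (n * α) (2 * e0))
      ≤ (3 / t) ^ k * (3 / t) ^ e0 * (A * t) ^ (2 * e0) := by
        apply mul_le_mul (mul_le_mul hb1 hb2 (by positivity) (by positivity)) hb3 _ (by positivity)
        exact div_nonneg (rise_nonneg (by positivity) _) (rise_nonneg (by positivity) _)
    _ = 3 ^ (k + e0) * A ^ (2 * e0) * t ^ (e0 - k) := by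
        have h1 : t ^ (2 * e0) = t ^ k * t ^ e0 * t ^ (e0 - k) := by
          rw [← pow_add, ← pow_add]
          congr 1
          omega
        clear_value t
        rw [div_pow, div_pow, mul_pow, h1, pow_add]
        field_simp
    _ ≤ 3 ^ ((1 + N) * k) * A ^ (2 * N * k) * (t ^ c3) ^ k := by
        have h1 : (3 : ℝ) ^ (k + e0) ≤ 3 ^ ((1 + N) * k) := by
          apply pow_le_pow_right₀ (by norm_num)
          linarith
        have h2 : A ^ (2 * e0) ≤ A ^ (2 * N * k) := by
          apply pow_le_pow_right₀ hA1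
          linarith
        have h3 : t ^ (e0 - k) ≤ (t ^ c3) ^ k := by
          rw [← Real.rpow_natCast t (e0 - k), ← Real.rpow_natCast (t ^ c3) k,
            ← Real.rpow_mul htpos.le]
          apply Real.rpow_le_rpow_of_exponent_ge htpos ht1
          rw [Nat.cast_sub hek]
          linarith
        gcongr
    _ = (C * t ^ c3) ^ k := by
        rw [hC, mul_pow, mul_pow, ← pow_mul, ← pow_mul]
    _ ≤ (1 / 2) ^ k := by
        apply pow_le_pow_left₀ (by positivity)
        calc C * t ^ c3 ≤ C * (1 / (2 * C)) := mul_le_mul_of_nonneg_left htc hCpos.le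
          _ = 1 / 2 := by field_simp

end PA2a
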