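import Pool.Agent.Lib.MP_2a260c_pr.Ratio2

/-! Comparison of the expected component counts of two models: summation. -/

namespace PA2a

open Finset Real

theorem sum_lin (A B : ℝ) (x : ℕ) : ∑ y ∈ range x, (A - B * y) = A * x - B * (x * (x - 1) / 2) := by
  induction x with
  | zero => simp
  | succ x ih =>
    rw [sum_range_succ, ih]
    push_cast
    ring

theorem step_bound {α : ℝ} (hα : 0 < α) : ∃ C > 0, ∃ C4 > 0, ∃ ε0 > 0, ∀ N M y k e ε : ℝ, 0 < ε → ε ≤ ε0 →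
    1 ≤ ε ^ 3 * N → |M - cc α * N * (1 + ε)| ≤ 1 → 0 ≤ y → y ≤ 2 * ε * N →
    4 ≤ k → k ≤ 2 * ε * N → k - 1 ≤ e → e ≤ 2 * k →
    0 ≤ (e - cc α * k) / (cc α * N) ∧ (e - cc α * k) / (cc α * N) ≤ C4 * ε ∧
    (1 - cc α) / (2 * cc α) * (k / N) ≤ (e - cc α * k) / (cc α * N) ∧
    ell α ((M - y) / (cc α * (N - y))) - ell α ((M - y - e) / (cc α * (N - y - k)))
      ≤ -((α + 1) / (α + 2) / 2) * ((e - cc α * k) / (cc α * N)
          * (2 * (ε - (1 - cc α) / cc α * y / N) - (e - cc α * k) / (cc α * N)))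
        + C * ε ^ 2 * ((e - cc α * k) / (cc α * N)) := by
  have hc := cc_pos hα
  have hc2 := cc_lt hα
  set c := cc α with hcdef
  set a : ℝ := (1 - c) / c with ha
  set C1 : ℝ := 12 * a + 2 / c with hC1
  set C2 : ℝ := 3 * a + C1 with hC2
  set C3 : ℝ := 8 + 4 * C2 with hC3
  set C4 : ℝ := 4 / c with hC4
  set C6 : ℝ := C3 * (2 * C2 + 2 * C4) + 2 * C1 + C3 * C4 with hC6
  set C5 : ℝ := C2 + 2 * C4 with hC5
  have ha0 : 0 < a := by
    rw [ha]
    apply div_pos _ hc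
    linarith
  have hC1p : 0 < C1 := by rw [hC1]; positivity
  have hC2p : 0 < C2 := by rw [hC2]; positivity
  have hC3p : 0 < C3 := by rw [hC3]; positivity
  have hC4p : 0 < C4 := by rw [hC4]; positivity
  have hC5p : 0 < C5 := by rw [hC5]; positivity
  have hC6p : 0 < C6 := by rw [hC6]; positivity
  refine ⟨C6 + 8 * C5 ^ 2, by positivity, C4, hC4p, min (1 / 8) (min (1 / (2 * C3)) (1 / (2 * C5))),
    by positivity, ?_⟩
  intro N M y k e ε hε hε0 hN hM hy hy2 hk hk2 he he2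
  have hε1 : ε ≤ 1 / 8 := hε0.trans (min_le_left _ _)
  have hε2 : C3 * ε ≤ 1 / 2 := by
    have : ε ≤ 1 / (2 * C3) := hε0.trans ((min_le_right _ _).trans (min_le_left _ _))
    rw [le_div_iff₀ (by positivity)] at this
    linarith
  have hε3 : C5 * ε ≤ 1 / 2 := by
    have : ε ≤ 1 / (2 * C5) := hε0.trans ((min_le_right _ _).trans (min_le_right _ _))
    rw [le_div_iff₀ (by positivity)] at this
    linarith
  obtain ⟨u, D, h1, h2, h3, h4, h5, h6, h7, h8⟩ := step_aux hc hc2 ha hC1 hC2 hC3 hC4 hC6 hε hε1 hε2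
    hN hM hy hy2 hk hk2 he he2
  set Δ : ℝ := (e - c * k) / (c * N) with hΔ
  have hΔ0 : 0 ≤ Δ := by linarith
  refine ⟨hΔ0, h6, h7, ?_⟩
  have hr : 0 < C5 * ε := by positivity
  have h3' := abs_le.1 h3
  have hC5e : C5 * ε = C2 * ε + 2 * (C4 * ε) := by rw [hC5]; ring
  have h9 := ell_diff hα hr hε3 (s := 1 + u) (s' := 1 + u - D) (by linarith) (by linarith)
    (by linarith [mul_pos hC4p hε])
  rw [h1, h2]
  have e1 : (1 + u - 1) ^ 2 - (1 + u - D - 1) ^ 2 = D * (2 * u - D) := by ring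
  have e2 : 1 + u - (1 + u - D) = D := by ring
  rw [e1, e2] at h9
  have hb : 0 < (α + 1) / (α + 2) / 2 := by positivity
  have hb1 : (α + 1) / (α + 2) / 2 ≤ 1 := by
    rw [div_div, div_le_one (by positivity)]
    linarith
  have h10 : -((α + 1) / (α + 2) / 2) * (D * (2 * u - D)) ≤ -((α + 1) / (α + 2) / 2)
      * (Δ * (2 * (ε - a * y / N) - Δ) - C6 * ε ^ 2 * Δ) := by
    rw [neg_mul, neg_mul]
    apply neg_le_neg
    exact mul_le_mul_of_nonneg_left h8 hb.le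
  have h11 : 4 * (C5 * ε) ^ 2 * D ≤ 8 * C5 ^ 2 * ε ^ 2 * Δ := by
    have : 4 * (C5 * ε) ^ 2 * D ≤ 4 * (C5 * ε) ^ 2 * (2 * Δ) :=
      mul_le_mul_of_nonneg_left h5 (by positivity)
    calc _ ≤ _ := this
      _ = _ := by ring
  have h12 : (α + 1) / (α + 2) / 2 * (C6 * ε ^ 2 * Δ) ≤ C6 * ε ^ 2 * Δ :=
    mul_le_of_le_one_left (by positivity) hb1
  calc _ ≤ _ := h9
    _ ≤ -((α + 1) / (α + 2) / 2) * (Δ * (2 * (ε - a * y / N) - Δ) - C6 * ε ^ 2 * Δ)
        + 8 * C5 ^ 2 * ε ^ 2 * Δ := add_le_add h10 h11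
    _ = -((α + 1) / (α + 2) / 2) * (Δ * (2 * (ε - a * y / N) - Δ))
        + (α + 1) / (α + 2) / 2 * (C6 * ε ^ 2 * Δ) + 8 * C5 ^ 2 * ε ^ 2 * Δ := by ring
    _ ≤ -((α + 1) / (α + 2) / 2) * (Δ * (2 * (ε - a * y / N) - Δ))
        + C6 * ε ^ 2 * Δ + 8 * C5 ^ 2 * ε ^ 2 * Δ := by linarith
    _ = _ := by ring

theorem q_ratio {α : ℝ} (hα : 0 < α) : ∃ C > 0, ∃ ε0 > 0, ∀ (n m k e x : ℕ) (ε : ℝ), 0 < ε →
    ε ≤ ε0 → 1 ≤ ε ^ 3 * n → |(m : ℝ) - cc α * n * (1 + ε)| ≤ 1 → (x : ℝ) ≤ 2 * ε * n →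
    4 ≤ k → (k : ℝ) ≤ 2 * ε * n → k ≤ e + 1 → e ≤ 2 * k →
    (1 - cc α) / (2 * cc α) * (k / n) ≤ (e - cc α * k) / (cc α * n) ∧
    q α n m k e ≤ 2 * exp (-((α + 1) / (α + 2) / 2) * ((e - cc α * k) / (cc α * n) * x
        * (2 * ε - (1 - cc α) / cc α * x / n - (e - cc α * k) / (cc α * n) - C * ε ^ 2)))
      * q α (n - x) (m - x) k e := by
  obtain ⟨C, hC, C4, hC4, ε1, hε1, hstep⟩ := step_bound hα
  obtain ⟨CR, hCR, N0, hN0, hR⟩ := log_R hα
  have hc := cc_pos hα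
  have hc2 := cc_lt hα
  set b2 : ℝ := (α + 1) / (α + 2) / 2 with hb2
  have hb2p : 0 < b2 := by positivity
  set c := cc α with hcdef
  set a : ℝ := (1 - c) / c with ha
  have ha0 : 0 < a := by
    rw [ha]
    apply div_pos _ hc
    linarith
  refine ⟨C / b2, by positivity, min ε1 (min (1 / 8) (min (c / 16) (min (log 2 / (8 * CR))
    (min (1 / (2 * N0)) (c / 8))))), ?_, ?_⟩
  · have : (0 : ℝ) < N0 := by
      have : 0 < N0 := by omega
      exact_mod_cast this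
    have h2 : 0 < log 2 := log_pos (by norm_num)
    positivity
  intro n m k e x ε hε hε0 hN hM hx hk hk2 hke he2
  have g1 : ε ≤ ε1 := hε0.trans (min_le_left _ _)
  have hε0 := hε0.trans (min_le_right _ _)
  have g2 : ε ≤ 1 / 8 := hε0.trans (min_le_left _ _)
  have hε0 := hε0.trans (min_le_right _ _)
  have g3 : ε ≤ c / 16 := hε0.trans (min_le_left _ _)
  have hε0 := hε0.trans (min_le_right _ _)
  have g4 : ε ≤ log 2 / (8 * CR) := hε0.trans (min_le_left _ _)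
  have hε0 := hε0.trans (min_le_right _ _)
  have g5 : ε ≤ 1 / (2 * N0) := hε0.trans (min_le_left _ _)
  have g6 : ε ≤ c / 8 := hε0.trans (min_le_right _ _)
  have hN0p : (0 : ℝ) < N0 := by
    have : 0 < N0 := by omega
    exact_mod_cast this
  have hNp : (0 : ℝ) < n := by
    by_contra h
    push Not at h
    have : ε ^ 3 * n ≤ 0 := mul_nonpos_of_nonneg_of_nonpos (by positivity) h
    linarith
  -- sizes
  have s1 : 1 ≤ ε * n := by
    have : ε ^ 3 * n ≤ ε * n := by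
      apply mul_le_mul_of_nonneg_right _ hNp.le
      calc ε ^ 3 ≤ ε ^ 1 := pow_le_pow_of_le_one hε.le (by linarith) (by norm_num)
        _ = ε := pow_one ε
    linarith
  have s2 : ε * n ≤ 1 / 8 * n := mul_le_mul_of_nonneg_right g2 hNp.le
  have s3 : ε * n ≤ c / 16 * n := mul_le_mul_of_nonneg_right g3 hNp.le
  have s5 : (2 * N0 : ℝ) ≤ n := by
    rw [le_div_iff₀ (by positivity)] at g5
    have h1 : ε * (2 * N0) ≤ ε * n := by linarith
    exact le_of_mul_le_mul_left h1 hε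
  have s6 : 8 ≤ c * n := by
    have : ε * n ≤ c / 8 * n := mul_le_mul_of_nonneg_right g6 hNp.le
    linarith
  have hM' := abs_le.1 hM
  have hcn : c * n ≤ 1 / 2 * n := mul_le_mul_of_nonneg_right hc2.le hNp.le
  have hcne : 0 ≤ c * n * ε := by positivity
  have hcne2 : c * n * ε ≤ 1 / 2 * (ε * n) := by
    have : c * (ε * n) ≤ 1 / 2 * (ε * n) := mul_le_mul_of_nonneg_right hc2.le (by positivity)
    linarith
  have hke' : (k : ℝ) - 1 ≤ e := by
    have : (k : ℝ) ≤ e + 1 := by exact_mod_cast hke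
    linarith
  have he2' : (e : ℝ) ≤ 2 * k := by exact_mod_cast he2
  have hk' : (4 : ℝ) ≤ k := by exact_mod_cast hk
  obtain ⟨hΔ0, hΔ1, hΔ2, -⟩ := hstep n m 0 k e ε hε g1 hN hM le_rfl (by positivity) hk' hk2 hke' he2'
  refine ⟨hΔ2, ?_⟩
  set Δ : ℝ := (e - c * k) / (c * n) with hΔ
  have hxn : x + k + 1 ≤ n := by
    have : (x : ℝ) + k + 1 ≤ n := by linarith
    exact_mod_cast this
  have hxm : x + e ≤ m := by
    have : (x : ℝ) + e ≤ m := by linarith [hM'.1]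
    exact_mod_cast this
  have hchain := q_chain hα (fun y => (-b2 * (Δ * (2 * ε - Δ)) + C * ε ^ 2 * Δ + 4 * CR / n)
      - (-b2 * (Δ * (2 * a / n))) * y) (by omega : 1 ≤ k) x hxn hxm (by
    intro y hy
    have hyx : (y : ℝ) ≤ x := by exact_mod_cast hy.le
    have hy2 : (y : ℝ) ≤ 2 * ε * n := by linarith
    obtain ⟨-, -, -, hst⟩ := hstep n m y k e ε hε g1 hN hM (Nat.cast_nonneg y) hy2 hk' hk2 hke' he2'
    have c1 : ((n - y : ℕ) : ℝ) = n - y := by
      rw [Nat.cast_sub (by omega)]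
    have c2 : ((m - y : ℕ) : ℝ) = m - y := by
      rw [Nat.cast_sub (by omega)]
    have c3 : ((n - y - k : ℕ) : ℝ) = n - y - k := by
      rw [Nat.cast_sub (by omega), Nat.cast_sub (by omega)]
    have c4 : ((m - y - e : ℕ) : ℝ) = m - y - e := by
      rw [Nat.cast_sub (by omega), Nat.cast_sub (by omega)]
    have n1 : N0 ≤ n - y := by
      have : (N0 : ℝ) ≤ ((n - y : ℕ) : ℝ) := by
        rw [c1]
        linarith
      exact_mod_cast this
    have n2 : N0 ≤ n - y - k := by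
      have : (N0 : ℝ) ≤ ((n - y - k : ℕ) : ℝ) := by
        rw [c3]
        linarith
      exact_mod_cast this
    have mn : (m : ℝ) + 1 ≤ n := by linarith [hM'.2]
    have mn' : m + 1 ≤ n := by exact_mod_cast mn
    have m1 : 1 ≤ m - y - e := by
      have : (1 : ℝ) ≤ ((m - y - e : ℕ) : ℝ) := by
        rw [c4]
        linarith [hM'.1]
      exact_mod_cast this
    have r1 := (abs_le.1 (hR (n - y) (m - y) n1 (by omega) (by omega))).2
    have r2 := (abs_le.1 (hR (n - y - k) (m - y - e) n2 m1 (by omega))).1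
    rw [c1, c2] at r1
    rw [c3, c4] at r2
    have d1 : CR / (n - y) ≤ 2 * CR / n := by
      rw [div_le_div_iff₀ (by linarith) hNp]
      have : CR * n ≤ CR * (2 * (n - y)) := mul_le_mul_of_nonneg_left (by linarith) hCR.le
      linarith
    have d2 : CR / (n - y - k) ≤ 2 * CR / n := by
      rw [div_le_div_iff₀ (by linarith) hNp]
      have : CR * n ≤ CR * (2 * (n - y - k)) := mul_le_mul_of_nonneg_left (by linarith) hCR.le
      linarith
    have e5 : -b2 * (Δ * (2 * ε - Δ)) + C * ε ^ 2 * Δ + 4 * CR / n - -b2 * (Δ * (2 * a / n)) * y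
        = (-b2 * (Δ * (2 * (ε - a * y / n) - Δ)) + C * ε ^ 2 * Δ) + 2 * CR / n + 2 * CR / n := by
      ring
    rw [e5]
    linarith)
  refine hchain.trans ?_
  apply mul_le_mul_of_nonneg_right _ (q_nonneg hα _ _ _ _)
  rw [sum_lin]
  have e2 : (2 : ℝ) = exp (log 2) := (exp_log (by norm_num)).symm
  have e3 : 2 * exp (-b2 * (Δ * x * (2 * ε - a * x / n - Δ - C / b2 * ε ^ 2)))
      = exp (log 2 + -b2 * (Δ * x * (2 * ε - a * x / n - Δ - C / b2 * ε ^ 2))) := by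
    rw [exp_add, ← e2]
  rw [e3]
  apply exp_le_exp.2
  have hxx : (x : ℝ) * (x - 1) ≤ x * x := by
    have : (0 : ℝ) ≤ x := Nat.cast_nonneg x
    nlinarith
  have h20 : b2 * (Δ * (2 * a / n)) * (x * (x - 1) / 2) ≤ b2 * (Δ * (2 * a / n)) * (x * x / 2) := by
    apply mul_le_mul_of_nonneg_left
    · linarith
    · positivity
  have h21 : 4 * CR / n * x ≤ log 2 := by
    have h22 : 4 * CR / n * x ≤ 4 * CR / n * (2 * ε * n) := mul_le_mul_of_nonneg_left hx (by positivity)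
    have h23 : 4 * CR / n * (2 * ε * n) = 8 * CR * ε := by
      field_simp
      ring
    rw [le_div_iff₀ (by positivity)] at g4
    linarith
  have e6 : log 2 + -b2 * (Δ * x * (2 * ε - a * x / n - Δ - C / b2 * ε ^ 2))
      = log 2 + -b2 * (Δ * (2 * ε - Δ)) * x + b2 * (Δ * (2 * a / n)) * (x * x / 2)
        + C * ε ^ 2 * Δ * x := by
    field_simp
    ring
  rw [e6]
  linarith

end PA2a
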