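import Pool.Agent.Lib.MP_2a260c_pr.SecMom
import Pool.Agent.Lib.MP_2a260c_pr.Excess
import Pool.Agent.Lib.MP_2a260c_pr.Ratio3

/-! The main theorem for the exchangeable model. -/

namespace PA2a

open Finset

theorem Z_nonneg_x {α : ℝ} (hα : 0 < α) (n m : ℕ) : 0 ≤ Z α n m :=
  rise_nonneg (by positivity) _

theorem E_mono_x {α : ℝ} (hα : 0 < α) {n m : ℕ} {f g : (Fin m → Fin n × Fin n) → ℝ}
    (h : ∀ x, f x ≤ g x) : E α n m f ≤ E α n m g := by
  unfold E
  apply div_le_div_of_nonneg_right _ (Z_nonneg_x hα n m)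
  apply sum_le_sum
  intro x _
  exact mul_le_mul_of_nonneg_left (h x) (wt_nonneg (fun _ => hα.le) x)

theorem E_add_x {α : ℝ} {n m : ℕ} (f g : (Fin m → Fin n × Fin n) → ℝ) :
    E α n m (fun x => f x + g x) = E α n m f + E α n m g := by
  unfold E
  rw [← add_div, ← sum_add_distrib]
  congr 1
  apply sum_congr rfl
  intro x _
  ring

theorem E_sum_x {α : ℝ} {n m : ℕ} {ι : Type*} (s : Finset ι) (f : ι → (Fin m → Fin n × Fin n) → ℝ) :
    E α n m (fun x => ∑ i ∈ s, f i x) = ∑ i ∈ s, E α n m (f i) := by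
  unfold E
  rw [← sum_div]
  congr 1
  rw [sum_comm]
  apply sum_congr rfl
  intro x _
  rw [mul_sum]

theorem cntA_le_cnt {n m : ℕ} {A : Finset (ℕ × ℕ)} {κ : ℕ} (hA : ∀ p ∈ A, κ ≤ p.1)
    (x : Fin m → Fin n × Fin n) : cntA A x ≤ cnt κ x := by
  classical
  unfold cntA cnt
  apply card_le_card
  intro S hS
  simp only [mem_filter, mem_univ, true_and] at hS ⊢
  exact ⟨hS.1, hA _ hS.2⟩

theorem sum_ratio {α C : ℝ} (hα : 0 < α) {n m x κ : ℕ} (A : Finset (ℕ × ℕ)) {B : ℝ} (hB : 0 ≤ B)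
    (hA : ∀ p ∈ A, κ ≤ p.1)
    (h : ∀ p ∈ A, p.1 ≤ p.2 + 1 → q α n m p.1 p.2 ≤ B * q α (n - x) (m - x) p.1 p.2)
    (hC : E α (n - x) (m - x) (fun x => (cnt κ x : ℝ)) ≤ C) :
    E α n m (fun x => (cntA A x : ℝ)) ≤ B * C := by
  rw [E_cntA]
  calc ∑ p ∈ A, q α n m p.1 p.2 * cn α p.1 p.2
      ≤ ∑ p ∈ A, B * (q α (n - x) (m - x) p.1 p.2 * cn α p.1 p.2) := by
        apply sum_le_sum
        intro p hp
        rcases le_or_gt p.1 (p.2 + 1) with h1 | h1
        · have := mul_le_mul_of_nonneg_right (h p hp h1) (cn_nonneg hα.le p.1 p.2)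
          linarith
        · rw [cn_eq_zero (Or.inl h1)]
          simp
    _ = B * E α (n - x) (m - x) (fun x => (cntA A x : ℝ)) := by rw [E_cntA, mul_sum]
    _ ≤ B * C := by
        apply mul_le_mul_of_nonneg_left _ hB
        refine (E_mono_x hα fun x => ?_).trans hC
        exact_mod_cast cntA_le_cnt hA x

open Classical in
theorem indicator_le {n m K κA κB : ℕ} {c3 : ℝ} (x : Fin m → Fin n × Fin n) :
    (if 2 ≤ cnt K x then (1 : ℝ) else 0) ≤
      (cntA (((Ico K κB) ×ˢ (range (m + 1))).filter (fun p => (1 + c3) * p.1 < p.2)) x : ℝ)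
      + (cntA (((Ico K κA) ×ˢ (range (m + 1))).filter (fun p => (p.2 : ℝ) ≤ (1 + c3) * p.1)) x : ℝ)
      + (cntA (((Ico κA κB) ×ˢ (range (m + 1))).filter (fun p => (p.2 : ℝ) ≤ (1 + c3) * p.1)) x : ℝ)
      + (cnt κB x : ℝ) * ((cnt κB x : ℝ) - 1) := by
  have hnn : 0 ≤ (cnt κB x : ℝ) * ((cnt κB x : ℝ) - 1) := by
    rcases Nat.eq_zero_or_pos (cnt κB x) with h | h
    · rw [h]
      simp
    · have : (1 : ℝ) ≤ cnt κB x := by exact_mod_cast h
      nlinarith
  split_ifs with h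
  · unfold cnt at h
    rw [Nat.succ_le_iff, one_lt_card] at h
    obtain ⟨S, hS, T, hT, hST⟩ := h
    simp only [mem_filter, mem_univ, true_and] at hS hT
    have key : ∀ S : Finset (Fin n), IsComp x S → K ≤ #S → #S < κB →
        1 ≤ (cntA (((Ico K κB) ×ˢ (range (m + 1))).filter (fun p => (1 + c3) * p.1 < p.2)) x : ℝ)
      + (cntA (((Ico K κA) ×ˢ (range (m + 1))).filter (fun p => (p.2 : ℝ) ≤ (1 + c3) * p.1)) x : ℝ)
      + (cntA (((Ico κA κB) ×ˢ (range (m + 1))).filter (fun p => (p.2 : ℝ) ≤ (1 + c3) * p.1)) x : ℝ) := by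
      intro S hS hK hB
      have hins : ins x S < m + 1 := by
        unfold ins
        have := card_le_univ (filter (fun i => (x i).1 ∈ S) univ)
        rw [Fintype.card_fin] at this
        omega
      have hone : ∀ A : Finset (ℕ × ℕ), (#S, ins x S) ∈ A → (1 : ℝ) ≤ cntA A x := by
        intro A hA
        have : 0 < cntA A x := by
          unfold cntA
          rw [card_pos]
          exact ⟨S, by simp [hS, hA]⟩
        exact_mod_cast this
      rcases lt_or_ge ((1 + c3) * (#S : ℝ)) (ins x S : ℝ) with h1 | h1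
      · have := hone (((Ico K κB) ×ˢ (range (m + 1))).filter (fun p => (1 + c3) * p.1 < p.2))
          (by simp [hK, hB, hins, h1])
        have h2 : (0 : ℝ) ≤ cntA (((Ico K κA) ×ˢ (range (m + 1))).filter
          (fun p => (p.2 : ℝ) ≤ (1 + c3) * p.1)) x := Nat.cast_nonneg _
        have h3 : (0 : ℝ) ≤ cntA (((Ico κA κB) ×ˢ (range (m + 1))).filter
          (fun p => (p.2 : ℝ) ≤ (1 + c3) * p.1)) x := Nat.cast_nonneg _
        linarith
      · have h0 : (0 : ℝ) ≤ cntA (((Ico K κB) ×ˢ (range (m + 1))).filter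
          (fun p => (1 + c3) * p.1 < p.2)) x := Nat.cast_nonneg _
        rcases lt_or_ge (#S) κA with h2 | h2
        · have := hone (((Ico K κA) ×ˢ (range (m + 1))).filter (fun p => (p.2 : ℝ) ≤ (1 + c3) * p.1))
            (by simp [hK, h2, hins, h1])
          have h3 : (0 : ℝ) ≤ cntA (((Ico κA κB) ×ˢ (range (m + 1))).filter
            (fun p => (p.2 : ℝ) ≤ (1 + c3) * p.1)) x := Nat.cast_nonneg _
          linarith
        · have := hone (((Ico κA κB) ×ˢ (range (m + 1))).filter (fun p => (p.2 : ℝ) ≤ (1 + c3) * p.1))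
            (by simp [hB, h2, hins, h1])
          have h3 : (0 : ℝ) ≤ cntA (((Ico K κA) ×ˢ (range (m + 1))).filter
            (fun p => (p.2 : ℝ) ≤ (1 + c3) * p.1)) x := Nat.cast_nonneg _
          linarith
    rcases lt_or_ge (#S) κB with h1 | h1
    · linarith [key S hS.1 hS.2 h1]
    rcases lt_or_ge (#T) κB with h2 | h2
    · linarith [key T hT.1 hT.2 h2]
    have h3 : 1 < cnt κB x := by
      unfold cnt
      rw [one_lt_card]
      exact ⟨S, by simp [hS.1, h1], T, by simp [hT.1, h2], hST⟩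
    have h4 : (2 : ℝ) ≤ cnt κB x := by exact_mod_cast h3
    have h5 : (0 : ℝ) ≤ cntA (((Ico K κB) ×ˢ (range (m + 1))).filter
          (fun p => (1 + c3) * p.1 < p.2)) x := Nat.cast_nonneg _
    have h6 : (0 : ℝ) ≤ cntA (((Ico K κA) ×ˢ (range (m + 1))).filter
          (fun p => (p.2 : ℝ) ≤ (1 + c3) * p.1)) x := Nat.cast_nonneg _
    have h7 : (0 : ℝ) ≤ cntA (((Ico κA κB) ×ˢ (range (m + 1))).filter
          (fun p => (p.2 : ℝ) ≤ (1 + c3) * p.1)) x := Nat.cast_nonneg _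
    nlinarith
  · positivity

open Classical in
theorem E_excess_sum {α c3 ε1 : ℝ} (hα : 0 < α)
    (h : ∀ n m k : ℕ, 0 < k → m ≤ n → (k : ℝ) ≤ ε1 * n →
      E α n m (fun x => (#{S : Finset (Fin n) | IsComp x S ∧ #S = k ∧ (1 + c3) * k ≤ ins x S} : ℝ))
        ≤ (1 / 2) ^ k) {n m K κB : ℕ} (hK : 0 < K) (hmn : m ≤ n)
    (hB : ∀ k, k < κB → (k : ℝ) ≤ ε1 * n) :
    E α n m (fun x => (cntA (((Ico K κB) ×ˢ (range (m + 1))).filter
      (fun p => (1 + c3) * p.1 < p.2)) x : ℝ)) ≤ 2 * (1 / 2) ^ K := by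
  have h1 : ∀ x : Fin m → Fin n × Fin n, (cntA (((Ico K κB) ×ˢ (range (m + 1))).filter
      (fun p => (1 + c3) * p.1 < p.2)) x : ℝ)
      ≤ ∑ k ∈ Ico K κB, (#{S : Finset (Fin n) | IsComp x S ∧ #S = k ∧ (1 + c3) * k ≤ ins x S} : ℝ) := by
    intro x
    have h2 : cntA (((Ico K κB) ×ˢ (range (m + 1))).filter (fun p => (1 + c3) * p.1 < p.2)) x
        ≤ ∑ k ∈ Ico K κB, #{S : Finset (Fin n) | IsComp x S ∧ #S = k ∧ (1 + c3) * k ≤ ins x S} := by
      unfold cntA
      refine (card_le_card ?_).trans card_biUnion_le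
      intro S hS
      simp only [mem_filter, mem_univ, true_and, mem_product, mem_Ico] at hS
      simp only [mem_biUnion, mem_filter, mem_univ, true_and, mem_Ico]
      exact ⟨#S, hS.2.1.1, hS.1, rfl, hS.2.2.le⟩
    calc (cntA (((Ico K κB) ×ˢ (range (m + 1))).filter (fun p => (1 + c3) * p.1 < p.2)) x : ℝ)
        ≤ ((∑ k ∈ Ico K κB,
            #{S : Finset (Fin n) | IsComp x S ∧ #S = k ∧ (1 + c3) * k ≤ ins x S} : ℕ) : ℝ) := by
          exact_mod_cast h2
      _ = _ := by push_cast; rfl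
  refine (E_mono_x hα h1).trans ?_
  rw [E_sum_x]
  calc ∑ k ∈ Ico K κB, E α n m (fun x =>
        (#{S : Finset (Fin n) | IsComp x S ∧ #S = k ∧ (1 + c3) * k ≤ ins x S} : ℝ))
      ≤ ∑ k ∈ Ico K κB, (1 / 2 : ℝ) ^ k := by
        apply sum_le_sum
        intro k hk
        rw [mem_Ico] at hk
        exact h n m k (by omega) hmn (hB k hk.2)
    _ ≤ (1 / 2) ^ K / (1 - 1 / 2) := geom_sum_Ico_le_of_lt_one (by norm_num) (by norm_num)
    _ = 2 * (1 / 2) ^ K := by ring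

/-- use of the ratio bound -/
theorem ratio_use {b2 Δ X k n a ε Y : ℝ} (hb2 : 0 < b2) (ha : 0 < a) (hn : 0 < n) (hε : 0 < ε)
    (hk : 0 ≤ k) (hΔ : a / 2 * (k / n) ≤ Δ) (hX : 7 / 8 * (ε * n / a) ≤ X) (hY : ε / 64 ≤ Y) :
    -b2 * (Δ * X * Y) ≤ -(b2 * (7 / 1024) * (ε ^ 2 * k)) := by
  have h1 : a / 2 * (k / n) * (7 / 8 * (ε * n / a)) ≤ Δ * X := by
    apply mul_le_mul hΔ hX (by positivity)
    have : 0 ≤ a / 2 * (k / n) := by positivity
    linarith
  have h2 : a / 2 * (k / n) * (7 / 8 * (ε * n / a)) * (ε / 64) ≤ Δ * X * Y := by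
    apply mul_le_mul h1 hY (by positivity)
    have : 0 ≤ a / 2 * (k / n) * (7 / 8 * (ε * n / a)) := by positivity
    linarith
  have h3 : a / 2 * (k / n) * (7 / 8 * (ε * n / a)) * (ε / 64) = 7 / 1024 * (ε ^ 2 * k) := by
    field_simp
    ring
  rw [h3] at h2
  have h4 := mul_le_mul_of_nonneg_left h2 hb2.le
  linarith

end PA2a
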