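import Pool.Agent.Lib.MP_2a260c_pr.Exch

/-! The main theorem for the exchangeable model: assembly. -/

namespace PA2a

open Finset Real

/-- the conclusion of `q_ratio`, as a predicate -/
def QR (α C ε0 : ℝ) : Prop := ∀ (n m k e x : ℕ) (ε : ℝ), 0 < ε →
    ε ≤ ε0 → 1 ≤ ε ^ 3 * n → |(m : ℝ) - cc α * n * (1 + ε)| ≤ 1 → (x : ℝ) ≤ 2 * ε * n →
    4 ≤ k → (k : ℝ) ≤ 2 * ε * n → k ≤ e + 1 → e ≤ 2 * k →
    (1 - cc α) / (2 * cc α) * (k / n) ≤ (e - cc α * k) / (cc α * n) ∧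
    q α n m k e ≤ 2 * exp (-((α + 1) / (α + 2) / 2) * ((e - cc α * k) / (cc α * n) * x
        * (2 * ε - (1 - cc α) / cc α * x / n - (e - cc α * k) / (cc α * n) - C * ε ^ 2)))
      * q α (n - x) (m - x) k e

/-- regime bound: `λ` is the largest normalised size `a k / n ≤ λ ε`, and `t` the normalised shift -/
theorem regime {α C ε0 : ℝ} (hα : 0 < α) (hQ : QR α C ε0) {n m k e x : ℕ} {ε lam t : ℝ}
    (hε : 0 < ε) (hε0 : ε ≤ ε0) (hε1 : ε ≤ 1 / 8)
    (hεC : ((1 - cc α) / cc α + C) * ε ≤ 1 / 64)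
    (hN : 1 ≤ ε ^ 3 * n) (hεn : 2 ≤ ε * n)
    (hM : |(m : ℝ) - cc α * n * (1 + ε)| ≤ 1)
    (ht : 7 / 8 ≤ t) (ht2 : t ≤ 5 / 4)
    (hx1 : t * (ε * n / ((1 - cc α) / cc α)) ≤ x) (hx2 : (x : ℝ) ≤ t * (ε * n / ((1 - cc α) / cc α)) + 1)
    (hk : 4 ≤ k) (hk2 : (k : ℝ) ≤ lam * (ε * n / ((1 - cc α) / cc α)))
    (hlam : lam ≤ 17 / 16) (hlt : t + 35 / 34 * lam ≤ 2 - 1 / 32)
    (hke : k ≤ e + 1) (he : (e : ℝ) ≤ (1 + (1 - cc α) / 34) * k) :
    q α n m k e ≤ 2 * exp (-((α + 1) / (α + 2) / 2 * (7 / 1024) * (ε ^ 2 * k)))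
      * q α (n - x) (m - x) k e := by
  have hc := cc_pos hα
  have hc2 := cc_lt hα
  set c := cc α with hcdef
  set a : ℝ := (1 - c) / c with ha
  have ha1 : 1 < a := by
    rw [ha, lt_div_iff₀ hc]
    linarith
  have hnp : (0 : ℝ) < n := by
    by_contra h
    push Not at h
    have : ε ^ 3 * n ≤ 0 := mul_nonpos_of_nonneg_of_nonpos (by positivity) h
    linarith
  have hεna : ε * n / a ≤ ε * n := div_le_self (by positivity) ha1.le
  have hεna0 : 0 ≤ ε * n / a := by positivity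
  have hx3 : (x : ℝ) ≤ 2 * ε * n := by
    have : t * (ε * n / a) ≤ 5 / 4 * (ε * n) := mul_le_mul ht2 hεna hεna0 (by norm_num)
    linarith
  have hk3 : (k : ℝ) ≤ 2 * ε * n := by
    have : lam * (ε * n / a) ≤ 17 / 16 * (ε * n) := mul_le_mul hlam hεna hεna0 (by norm_num)
    linarith
  have hkp : (0 : ℝ) ≤ k := Nat.cast_nonneg k
  have he2 : e ≤ 2 * k := by
    have : (e : ℝ) ≤ 2 * k := by
      have : (1 + (1 - c) / 34) * (k : ℝ) ≤ 2 * k := mul_le_mul_of_nonneg_right (by linarith) hkp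
      linarith
    exact_mod_cast this
  obtain ⟨h1, h2⟩ := hQ n m k e x ε hε hε0 hN hM hx3 hk hk3 hke he2
  rw [← hcdef] at h1 h2
  refine h2.trans ?_
  apply mul_le_mul_of_nonneg_right _ (q_nonneg hα _ _ _ _)
  apply mul_le_mul_of_nonneg_left _ (by norm_num)
  apply exp_le_exp.2
  set Δ : ℝ := (e - c * k) / (c * n) with hΔ
  apply ratio_use (a := a) (n := n) (by positivity) (by linarith) hnp hε hkp
  · have e1 : a / 2 * ((k : ℝ) / n) = (1 - c) / (2 * c) * (k / n) := by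
      rw [ha]
      field_simp
    rw [e1]
    exact h1
  · calc 7 / 8 * (ε * n / a) ≤ t * (ε * n / a) := mul_le_mul_of_nonneg_right ht hεna0
      _ ≤ x := hx1
  · have hΔ1 : Δ ≤ 35 / 34 * lam * ε := by
      have e1 : Δ ≤ 35 / 34 * (a * k / n) := by
        rw [hΔ, div_le_iff₀ (by positivity)]
        have : 35 / 34 * (a * k / n) * (c * n) = 35 / 34 * (1 - c) * k := by
          rw [ha]
          field_simp
        rw [this]
        linarith
      have e2 : a * k / n ≤ lam * ε := by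
        rw [div_le_iff₀ hnp]
        have : a * k ≤ a * (lam * (ε * n / a)) := mul_le_mul_of_nonneg_left hk2 (by linarith)
        have e3 : a * (lam * (ε * n / a)) = lam * ε * n := by
          field_simp
        linarith
      linarith
    have hx4 : a * x / n ≤ t * ε + a * ε ^ 2 := by
      rw [div_le_iff₀ hnp]
      have e1 : a * x ≤ a * (t * (ε * n / a) + 1) := mul_le_mul_of_nonneg_left hx2 (by linarith)
      have e2 : a * (t * (ε * n / a) + 1) = t * ε * n + a := by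
        field_simp
      have e3 : 1 ≤ ε ^ 2 * n := by
        have : ε ^ 3 * n ≤ ε ^ 2 * n := by
          apply mul_le_mul_of_nonneg_right _ hnp.le
          exact pow_le_pow_of_le_one hε.le (by linarith) (by norm_num)
        linarith
      have e4 : a * 1 ≤ a * (ε ^ 2 * n) := mul_le_mul_of_nonneg_left e3 (by linarith)
      linarith
    have h5 : (a + C) * ε * ε ≤ 1 / 64 * ε := mul_le_mul_of_nonneg_right hεC hε.le
    have h6 : (t + 35 / 34 * lam) * ε ≤ (2 - 1 / 32) * ε := mul_le_mul_of_nonneg_right hlt hε.le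
    linarith

/-- `m - x` stays subcritical -/
theorem sub_aux {c a ε n m x t δ r : ℝ} (hc : 0 < c) (ha : a = (1 - c) / c) (hc2 : c < 1 / 2)
    (hn : 0 < n) (hM : |m - c * n * (1 + ε)| ≤ 1)
    (hx1 : t * (ε * n / a) ≤ x) (hx0 : 0 ≤ x) (hδ : 0 ≤ δ)
    (h : r + 1 + δ * (c * n) + (c * (ε * n)) * (1 - t) ≤ 0) :
    (m - x) + r - (1 - δ) * c * (n - x) ≤ 0 := by
  have hM' := abs_le.1 hM
  have ha1 : 1 < a := by
    rw [ha, lt_div_iff₀ hc]
    linarith
  have h1 : (1 - c) * (t * (ε * n / a)) = c * (ε * n) * t := by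
    rw [ha]
    have : (1 - c) ≠ 0 := by linarith
    field_simp
  have h2 : (1 - c) * (t * (ε * n / a)) ≤ (1 - c) * x := mul_le_mul_of_nonneg_left hx1 (by linarith)
  have h3 : 0 ≤ δ * (c * x) := by positivity
  nlinarith [hM'.2]

section bounds

variable {α C ε0 : ℝ} (hα : 0 < α) (hQ : QR α C ε0) {n m : ℕ} {ε : ℝ}
    (hε : 0 < ε) (hε0 : ε ≤ ε0) (hε1 : ε ≤ 1 / 8)
    (hεC : ((1 - cc α) / cc α + C) * ε ≤ 1 / 64)
    (hN : 1 ≤ ε ^ 3 * n) (hεn : 4 ≤ ε * n / (4 * ((1 - cc α) / cc α)))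
    (hcεn : 64 ≤ cc α * (ε * n))
    (hM : |(m : ℝ) - cc α * n * (1 + ε)| ≤ 1)

include hα hε hε1 hεn hcεn hM

theorem basic_facts : 1 < (1 - cc α) / cc α ∧ (0 : ℝ) < n ∧ 2 ≤ ε * n ∧
    ((⌈5 / 4 * (ε * n / ((1 - cc α) / cc α))⌉₊ : ℕ) : ℝ) ≤ n ∧
    ((⌈5 / 4 * (ε * n / ((1 - cc α) / cc α))⌉₊ : ℕ) : ℝ) ≤ m ∧
    ((⌈7 / 8 * (ε * n / ((1 - cc α) / cc α))⌉₊ : ℕ) : ℝ) ≤ n ∧
    ((⌈7 / 8 * (ε * n / ((1 - cc α) / cc α))⌉₊ : ℕ) : ℝ) ≤ m := by
  have hc := cc_pos hα
  have hc2 := cc_lt hα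
  set c := cc α with hcdef
  set a : ℝ := (1 - c) / c with ha
  have ha1 : 1 < a := by
    rw [ha, lt_div_iff₀ hc]
    linarith
  have hnp : (0 : ℝ) < n := by
    by_contra h
    push Not at h
    have : c * (ε * n) ≤ 0 := by
      apply mul_nonpos_of_nonneg_of_nonpos hc.le
      exact mul_nonpos_of_nonneg_of_nonpos hε.le h
    linarith
  have hca : c * a = 1 - c := by
    rw [ha]
    field_simp
  have h2 : 2 ≤ ε * n := by
    have : c * (ε * n) ≤ 1 / 2 * (ε * n) := mul_le_mul_of_nonneg_right hc2.le (by positivity)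
    linarith
  have hM' := abs_le.1 hM
  have hcn : 0 ≤ c * n * ε := by positivity
  -- 5/4 (ε n / a) + 1 ≤ m, n
  have hm1 : 5 / 4 * (ε * n / a) + 1 ≤ m := by
    have h3 : ε * n / a ≤ 2 * (c * (ε * n)) := by
      rw [div_le_iff₀ (by linarith)]
      have : 2 * (c * (ε * n)) * a = 2 * (1 - c) * (ε * n) := by
        rw [← hca]
        ring
      rw [this]
      have : 1 * (ε * n) ≤ 2 * (1 - c) * (ε * n) :=
        mul_le_mul_of_nonneg_right (by linarith) (by positivity)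
      linarith
    have h4 : c * (ε * n) ≤ 1 / 8 * (c * n) := by
      have : ε * (c * n) ≤ 1 / 8 * (c * n) := mul_le_mul_of_nonneg_right hε1 (by positivity)
      linarith
    linarith [hM'.1]
  have hmn : (m : ℝ) ≤ n := by
    have h5 : c * n * (1 + ε) ≤ 1 / 2 * n * (1 + 1 / 8) := by
      apply mul_le_mul _ (by linarith) (by linarith) (by positivity)
      exact mul_le_mul_of_nonneg_right hc2.le hnp.le
    have h6 : 64 ≤ c * (ε * n) := hcεn
    have h7 : c * (ε * n) ≤ 1 / 2 * (1 / 8 * n) := by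
      apply mul_le_mul hc2.le _ (by positivity) (by norm_num)
      exact mul_le_mul_of_nonneg_right hε1 hnp.le
    linarith [hM'.2]
  have hq : 0 ≤ ε * n / a := by positivity
  have c1 : ((⌈5 / 4 * (ε * n / a)⌉₊ : ℕ) : ℝ) ≤ 5 / 4 * (ε * n / a) + 1 :=
    (Nat.ceil_lt_add_one (by positivity)).le
  have c2 : ((⌈7 / 8 * (ε * n / a)⌉₊ : ℕ) : ℝ) ≤ 7 / 8 * (ε * n / a) + 1 :=
    (Nat.ceil_lt_add_one (by positivity)).le
  refine ⟨ha1, hnp, h2, ?_, ?_, ?_, ?_⟩ <;> linarith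

include hQ hε0 hεC hN

theorem boundA {K κA : ℕ} (hK : 4 ≤ K)
    (hκA : ∀ k, k < κA → (k : ℝ) ≤ ε * n / (4 * ((1 - cc α) / cc α))) :
    E α n m (fun x => (cntA (((Ico K κA) ×ˢ (range (m + 1))).filter
      (fun p => (p.2 : ℝ) ≤ (1 + (1 - cc α) / 34) * p.1)) x : ℝ))
      ≤ 2 * exp (-((α + 1) / (α + 2) / 2 * (7 / 1024) * (ε ^ 2 * K))) * (n / (ε / 8 * K ^ 2)) := by
  obtain ⟨ha1, hnp, h2, hx1, hx2, -, -⟩ := basic_facts hα hε hε1 hεn hcεn hM
  have hc := cc_pos hα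
  have hc2 := cc_lt hα
  set c := cc α with hcdef
  set a : ℝ := (1 - c) / c with ha
  set x : ℕ := ⌈5 / 4 * (ε * n / a)⌉₊ with hx
  have hq : 0 ≤ ε * n / a := by positivity
  have hxl : 5 / 4 * (ε * n / a) ≤ x := Nat.le_ceil _
  have hxu : (x : ℝ) ≤ 5 / 4 * (ε * n / a) + 1 := (Nat.ceil_lt_add_one (by positivity)).le
  have hxn : x ≤ n := by exact_mod_cast hx1
  have hxm : x ≤ m := by exact_mod_cast hx2
  apply sum_ratio (x := x) (κ := K) hα
  · positivity
  · intro p hp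
    simp only [mem_filter, mem_product, mem_Ico, mem_range] at hp
    exact hp.1.1.1
  · intro p hp hp2
    simp only [mem_filter, mem_product, mem_Ico, mem_range] at hp
    have hk := hκA p.1 hp.1.1.2
    have hk2 : (p.1 : ℝ) ≤ 1 / 4 * (ε * n / a) := by
      have : ε * n / (4 * a) = 1 / 4 * (ε * n / a) := by
        field_simp
      linarith
    refine (regime (lam := 1 / 4) (t := 5 / 4) hα hQ hε hε0 hε1 hεC hN h2 hM (by norm_num) le_rfl
      hxl hxu (by omega) hk2 (by norm_num) (by norm_num) hp2 hp.2).trans ?_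
    apply mul_le_mul_of_nonneg_right _ (q_nonneg hα _ _ _ _)
    apply mul_le_mul_of_nonneg_left _ (by norm_num)
    apply exp_le_exp.2
    apply neg_le_neg
    apply mul_le_mul_of_nonneg_left _ (by positivity)
    apply mul_le_mul_of_nonneg_left _ (by positivity)
    exact_mod_cast hp.1.1.1
  · have hs : ((m - x : ℕ) : ℝ) ≤ (1 - ε / 8) * cc α * (n - x : ℕ) := by
      rw [Nat.cast_sub hxm, Nat.cast_sub hxn]
      have := sub_aux (r := 0) (δ := ε / 8) (t := 5 / 4) hc ha hc2 hnp hM hxl (Nat.cast_nonneg x)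
        (by positivity) (by nlinarith)
      linarith
    refine (E_cnt_le hα (by positivity : 0 < ε / 8) (by omega : 0 < K) hs).trans ?_
    apply div_le_div_of_nonneg_right _ (by positivity)
    rw [Nat.cast_sub hxn]
    have : (0 : ℝ) ≤ x := Nat.cast_nonneg x
    linarith

theorem boundB {κA κB : ℕ} (hκA' : ε * n / (4 * ((1 - cc α) / cc α)) ≤ κA)
    (hκB : ∀ k, k < κB → (k : ℝ) ≤ 17 / 16 * (ε * n / ((1 - cc α) / cc α)))
    (hτ : (n : ℝ) / (ε / 16 * κA ^ 2) ≤ 1) :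
    E α n m (fun x => (cntA (((Ico κA κB) ×ˢ (range (m + 1))).filter
      (fun p => (p.2 : ℝ) ≤ (1 + (1 - cc α) / 34) * p.1)) x : ℝ))
      ≤ 2 * exp (-((α + 1) / (α + 2) / 2 * (7 / 1024) * (ε ^ 2 * κA))) * 2 := by
  obtain ⟨ha1, hnp, h2, -, -, hx1, hx2⟩ := basic_facts hα hε hε1 hεn hcεn hM
  have hc := cc_pos hα
  have hc2 := cc_lt hα
  set c := cc α with hcdef
  set a : ℝ := (1 - c) / c with ha
  set x : ℕ := ⌈7 / 8 * (ε * n / a)⌉₊ with hx
  have hq : 0 ≤ ε * n / a := by positivity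
  have hxl : 7 / 8 * (ε * n / a) ≤ x := Nat.le_ceil _
  have hxu : (x : ℝ) ≤ 7 / 8 * (ε * n / a) + 1 := (Nat.ceil_lt_add_one (by positivity)).le
  have hxn : x ≤ n := by exact_mod_cast hx1
  have hxm : x ≤ m := by exact_mod_cast hx2
  have hκ4 : (4 : ℝ) ≤ κA := hεn.trans hκA'
  have hκ4' : 4 ≤ κA := by exact_mod_cast hκ4
  apply sum_ratio (x := x) (κ := κA) hα
  · positivity
  · intro p hp
    simp only [mem_filter, mem_product, mem_Ico, mem_range] at hp
    exact hp.1.1.1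
  · intro p hp hp2
    simp only [mem_filter, mem_product, mem_Ico, mem_range] at hp
    have hk := hκB p.1 hp.1.1.2
    refine (regime (lam := 17 / 16) (t := 7 / 8) hα hQ hε hε0 hε1 hεC hN h2 hM le_rfl (by norm_num)
      hxl hxu (by omega) hk (by norm_num) (by norm_num) hp2 hp.2).trans ?_
    apply mul_le_mul_of_nonneg_right _ (q_nonneg hα _ _ _ _)
    apply mul_le_mul_of_nonneg_left _ (by norm_num)
    apply exp_le_exp.2
    apply neg_le_neg
    apply mul_le_mul_of_nonneg_left _ (by positivity)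
    apply mul_le_mul_of_nonneg_left _ (by positivity)
    exact_mod_cast hp.1.1.1
  · have hκc : c * (ε * n) / 4 ≤ κA * (1 - c) := by
      have h3 : ε * n / (4 * a) * (1 - c) = c * (ε * n) / 4 := by
        rw [ha]
        have : (1 - c) ≠ 0 := by linarith
        field_simp
      have h4 : ε * n / (4 * a) * (1 - c) ≤ κA * (1 - c) :=
        mul_le_mul_of_nonneg_right hκA' (by linarith)
      linarith
    have hs : ((m - x : ℕ) : ℝ) + 1 - (1 - ε / 16) * cc α * (n - x : ℕ) - κA * (1 - cc α) ≤ 0 := by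
      rw [Nat.cast_sub hxm, Nat.cast_sub hxn]
      have := sub_aux (r := 1 - κA * (1 - c)) (δ := ε / 16) (t := 7 / 8) hc ha hc2 hnp hM hxl
        (Nat.cast_nonneg x) (by positivity) (by nlinarith)
      linarith
    refine (sec_mom hα (by positivity : 0 < ε / 16) (by omega : 0 < κA) hs ?_).1
    refine le_trans ?_ hτ
    apply div_le_div_of_nonneg_right _ (by positivity)
    rw [Nat.cast_sub hxn]
    have : (0 : ℝ) ≤ x := Nat.cast_nonneg x
    linarith

omit hQ hε0 hεC hN in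
theorem boundC {κB : ℕ} (hκB' : 17 / 16 * (ε * n / ((1 - cc α) / cc α)) ≤ κB)
    (hτ : (n : ℝ) / (ε / 32 * κB ^ 2) ≤ 1) :
    E α n m (fun x => (cnt κB x : ℝ) * ((cnt κB x : ℝ) - 1)) ≤ 2 * (n / (ε / 32 * κB ^ 2)) := by
  obtain ⟨ha1, hnp, h2, -, -, -, -⟩ := basic_facts hα hε hε1 hεn hcεn hM
  have hc := cc_pos hα
  have hc2 := cc_lt hα
  set c := cc α with hcdef
  set a : ℝ := (1 - c) / c with ha
  have hq : 0 < ε * n / a := by positivity
  have hκc : 17 / 16 * (c * (ε * n)) ≤ κB * (1 - c) := by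
    have h3 : 17 / 16 * (ε * n / a) * (1 - c) = 17 / 16 * (c * (ε * n)) := by
      rw [ha]
      have : (1 - c) ≠ 0 := by linarith
      field_simp
    have h4 : 17 / 16 * (ε * n / a) * (1 - c) ≤ κB * (1 - c) :=
      mul_le_mul_of_nonneg_right hκB' (by linarith)
    linarith
  have hκ0 : 0 < κB := by
    have : (0 : ℝ) < κB := by linarith
    exact_mod_cast this
  have hs : (m : ℝ) + 1 - (1 - ε / 32) * cc α * n - κB * (1 - cc α) ≤ 0 := by
    have := sub_aux (r := 1 - κB * (1 - c)) (x := 0) (δ := ε / 32) (t := 0) hc ha hc2 hnp hM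
      (by simp) le_rfl (by positivity) (by nlinarith)
    linarith
  exact (sec_mom hα (by positivity : 0 < ε / 32) hκ0 hs hτ).2

end bounds

end PA2a
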