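import Pool.Agent.Lib.MP_2a260c_pr.Exch2

/-! The main theorem for the exchangeable model. -/

namespace PA2a

open Finset Real


open Classical in
theorem exch {α : ℝ} (hα : 0 < α) :
    ∃ D > 0, ∃ C > 0, ∃ ε0 > 0, ∃ W0 : ℝ, ∀ (n m : ℕ) (ε : ℝ), 0 < ε → ε ≤ ε0 → W0 ≤ ε ^ 3 * n →
      |(m : ℝ) - cc α * n * (1 + ε)| ≤ 1 →
      E α n m (fun x => if 2 ≤ cnt (⌊D * ε⁻¹ ^ 2 * Real.log (ε ^ 3 * n)⌋₊ + 1) x then 1 else 0)
        ≤ C / (ε ^ 3 * n) := by
  obtain ⟨Cr, hCr, ε1, hε1, hQ⟩ := q_ratio hα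
  have hc := cc_pos hα
  have hc2 := cc_lt hα
  obtain ⟨ε2, hε2, hexc⟩ := E_excess_le (c3 := (1 - cc α) / 34) hα (by linarith)
  set c := cc α with hcdef
  set a : ℝ := (1 - c) / c with ha
  have ha1 : 1 < a := by
    rw [ha, lt_div_iff₀ hc]
    linarith
  set c' : ℝ := (α + 1) / (α + 2) / 2 * (7 / 1024) with hc'
  have hc'p : 0 < c' := by positivity
  set D : ℝ := 2 / c' + 4 with hD
  have hDp : 4 ≤ D := by
    have : 0 < 2 / c' := by positivity
    linarith
  refine ⟨D, by positivity, 2 + 16 + 16 * a / c' + 64 * a ^ 2, by positivity,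
    min ε1 (min (1 / 8) (min (1 / (64 * (a + Cr))) (ε2 / 2))), by positivity,
    max (exp 1) (max (256 * a ^ 2) (64 / c)), ?_⟩
  intro n m ε hε hε0 hW hM
  have g1 : ε ≤ ε1 := hε0.trans (min_le_left _ _)
  have hε0 := hε0.trans (min_le_right _ _)
  have g2 : ε ≤ 1 / 8 := hε0.trans (min_le_left _ _)
  have hε0 := hε0.trans (min_le_right _ _)
  have g3 : ε ≤ 1 / (64 * (a + Cr)) := hε0.trans (min_le_left _ _)
  have g4 : ε ≤ ε2 / 2 := hε0.trans (min_le_right _ _)
  have g3' : (a + Cr) * ε ≤ 1 / 64 := by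
    rw [le_div_iff₀ (by positivity)] at g3
    linarith
  set W : ℝ := ε ^ 3 * n with hWdef
  have w1 : exp 1 ≤ W := (le_max_left _ _).trans hW
  have hW := (le_max_right _ _).trans hW
  have w2 : 256 * a ^ 2 ≤ W := (le_max_left _ _).trans hW
  have w3 : 64 / c ≤ W := (le_max_right _ _).trans hW
  have hWp : 0 < W := (exp_pos 1).trans_le w1
  have hlog1 : 1 ≤ log W := by
    rw [← log_exp 1]
    exact log_le_log (exp_pos 1) w1
  have hW1 : 1 ≤ W := by
    have := Real.add_one_le_exp 1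
    linarith
  have hnp : (0 : ℝ) < n := by
    by_contra h
    push Not at h
    have : ε ^ 3 * n ≤ 0 := mul_nonpos_of_nonneg_of_nonpos (by positivity) h
    linarith
  have hWεn : W ≤ ε * n := by
    rw [hWdef]
    apply mul_le_mul_of_nonneg_right _ hnp.le
    calc ε ^ 3 ≤ ε ^ 1 := pow_le_pow_of_le_one hε.le (by linarith) (by norm_num)
      _ = ε := pow_one ε
  have haa : 16 * a ≤ W := by
    have h1 : a * 1 ≤ a * a := mul_le_mul_of_nonneg_left ha1.le (by linarith)
    have h2 : a * a = a ^ 2 := by ring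
    linarith
  have hεn4 : 4 ≤ ε * n / (4 * a) := by
    rw [le_div_iff₀ (by positivity)]
    linarith
  have hcεn : 64 ≤ c * (ε * n) := by
    rw [div_le_iff₀ hc] at w3
    have : W * c ≤ ε * n * c := mul_le_mul_of_nonneg_right hWεn hc.le
    linarith
  obtain ⟨-, -, h2, -, -, -, -⟩ := basic_facts hα hε g2 hεn4 hcεn hM
  -- the three thresholds
  set t : ℝ := D * ε⁻¹ ^ 2 * log W with ht
  set K : ℕ := ⌊t⌋₊ + 1 with hK
  set κA : ℕ := ⌊ε * n / (4 * a)⌋₊ + 1 with hκA
  set κB : ℕ := ⌊17 / 16 * (ε * n / a)⌋₊ + 1 with hκB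
  have hεinv : 1 ≤ ε⁻¹ ^ 2 := by
    apply one_le_pow₀
    rw [one_le_inv₀ hε]
    linarith
  have htp : 0 ≤ t := by positivity
  have htK : t ≤ K := by
    rw [hK]
    push_cast
    exact (Nat.lt_floor_add_one t).le
  have hDlog : 4 * 1 ≤ D * log W := mul_le_mul hDp hlog1 (by norm_num) (by positivity)
  have ht1 : D * log W ≤ t := by
    have : D * log W * 1 ≤ D * log W * ε⁻¹ ^ 2 := mul_le_mul_of_nonneg_left hεinv (by positivity)
    rw [ht]
    linarith
  have hK4 : 4 ≤ K := by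
    have : (4 : ℝ) ≤ K := by linarith
    exact_mod_cast this
  have hKpos : (0 : ℝ) < K := by linarith
  have hκA1 : ∀ k, k < κA → (k : ℝ) ≤ ε * n / (4 * a) := by
    intro k hk
    have : k ≤ ⌊ε * n / (4 * a)⌋₊ := by omega
    exact (Nat.le_floor_iff (by positivity)).1 this
  have hκA2 : ε * n / (4 * a) ≤ κA := by
    rw [hκA]
    push_cast
    exact (Nat.lt_floor_add_one _).le
  have hκB1 : ∀ k, k < κB → (k : ℝ) ≤ 17 / 16 * (ε * n / a) := by
    intro k hk
    have : k ≤ ⌊17 / 16 * (ε * n / a)⌋₊ := by omega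
    exact (Nat.le_floor_iff (by positivity)).1 this
  have hκB2 : 17 / 16 * (ε * n / a) ≤ κB := by
    rw [hκB]
    push_cast
    exact (Nat.lt_floor_add_one _).le
  have hεna : ε * n / a ≤ ε * n := div_le_self (by positivity) ha1.le
  -- tau
  have hτ : ∀ (κ : ℝ) (s z : ℝ), 0 < s → 0 < z → z * (ε * n / a) ≤ κ →
      n / (ε / s * κ ^ 2) ≤ s * a ^ 2 / z ^ 2 / W := by
    intro κ s z hs hz hκ
    have h3 : (z * (ε * n / a)) ^ 2 ≤ κ ^ 2 := pow_le_pow_left₀ (by positivity) hκ 2
    have h4 : n / (ε / s * κ ^ 2) ≤ n / (ε / s * (z * (ε * n / a)) ^ 2) := by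
      apply div_le_div_of_nonneg_left hnp.le (by positivity)
      exact mul_le_mul_of_nonneg_left h3 (by positivity)
    refine h4.trans (le_of_eq ?_)
    rw [hWdef]
    field_simp
  have hτA : (n : ℝ) / (ε / 16 * κA ^ 2) ≤ 1 := by
    refine (hτ κA 16 (1 / 4) (by norm_num) (by norm_num) ?_).trans ?_
    · have : ε * n / (4 * a) = 1 / 4 * (ε * n / a) := by
        field_simp
      linarith
    · rw [div_le_one hWp]
      have : 16 * a ^ 2 / (1 / 4 : ℝ) ^ 2 = 256 * a ^ 2 := by ring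
      linarith
  have hτB0 : (n : ℝ) / (ε / 32 * κB ^ 2) ≤ 32 * a ^ 2 / W := by
    refine (hτ κB 32 1 (by norm_num) (by norm_num) ?_).trans (le_of_eq (by ring))
    have : 0 ≤ ε * n / a := by positivity
    linarith
  have hτB : (n : ℝ) / (ε / 32 * κB ^ 2) ≤ 1 := by
    refine hτB0.trans ?_
    rw [div_le_one hWp]
    have : 0 ≤ a ^ 2 := sq_nonneg a
    linarith
  -- pointwise bound
  have hM2 := abs_le.1 hM
  have hmn : m ≤ n := by
    have : (m : ℝ) ≤ n := by
      have h5 : c * n * (1 + ε) ≤ 1 / 2 * n * (1 + 1 / 8) := by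
        apply mul_le_mul _ (by linarith) (by linarith) (by positivity)
        exact mul_le_mul_of_nonneg_right hc2.le hnp.le
      have h7 : ε * n ≤ 1 / 8 * n := mul_le_mul_of_nonneg_right g2 hnp.le
      linarith [hM2.2]
    exact_mod_cast this
  refine (E_mono_x hα (fun x => indicator_le (K := K) (κA := κA) (κB := κB)
    (c3 := (1 - c) / 34) x)).trans ?_
  rw [E_add_x, E_add_x, E_add_x]
  -- T1
  have T1 := E_excess_sum (c3 := (1 - c) / 34) (K := K) (κB := κB) hα hexc (by omega) hmn (by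
    intro k hk
    have h3 := hκB1 k hk
    have h4 : ε * n ≤ ε2 / 2 * n := mul_le_mul_of_nonneg_right g4 hnp.le
    linarith)
  have T1' : 2 * (1 / 2 : ℝ) ^ K ≤ 2 / W := by
    have h3 : (1 / 2 : ℝ) ^ K = exp (-(K * log 2)) := by
      have e1 : exp (-log 2) = 1 / 2 := by
        rw [exp_neg, exp_log (by norm_num)]
        norm_num
      rw [← e1, ← exp_nat_mul]
      congr 1
      ring
    have h4 : log W ≤ K * log 2 := by
      have h5 : 1 / 2 ≤ log 2 := by
        have := Real.log_two_gt_d9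
        linarith
      have h6 : D * log W * (1 / 2) ≤ K * log 2 := by
        apply mul_le_mul (ht1.trans htK) h5 (by norm_num) hKpos.le
      have h7 : 4 * log W ≤ D * log W := mul_le_mul_of_nonneg_right hDp (by linarith)
      linarith
    have h5 : exp (-(K * log 2)) ≤ 1 / W := by
      rw [exp_neg, ← one_div]
      apply one_div_le_one_div_of_le hWp
      calc W = exp (log W) := (exp_log hWp).symm
        _ ≤ _ := exp_le_exp.2 h4
    rw [h3]
    calc 2 * exp (-(K * log 2)) ≤ 2 * (1 / W) := mul_le_mul_of_nonneg_left h5 (by norm_num)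
      _ = 2 / W := by ring
  -- T2
  have T2 := boundA hα hQ hε g1 g2 g3' hW1 hεn4 hcεn hM hK4 hκA1
  have T2' : 2 * exp (-((α + 1) / (α + 2) / 2 * (7 / 1024) * (ε ^ 2 * K))) * (n / (ε / 8 * K ^ 2))
      ≤ 16 / W := by
    rw [← hc']
    have h3 : D * log W ≤ ε ^ 2 * K := by
      have : ε ^ 2 * t ≤ ε ^ 2 * K := mul_le_mul_of_nonneg_left htK (by positivity)
      have h4 : ε ^ 2 * t = D * log W := by
        rw [ht]
        field_simp
      linarith
    have h4 : 2 * log W ≤ c' * (ε ^ 2 * K) := by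
      have h5 : c' * (D * log W) ≤ c' * (ε ^ 2 * K) := mul_le_mul_of_nonneg_left h3 hc'p.le
      have h6 : c' * (D * log W) = 2 * log W + 4 * c' * log W := by
        rw [hD]
        field_simp
      have h7 : 0 ≤ 4 * c' * log W := by positivity
      linarith
    have h5 : exp (-(c' * (ε ^ 2 * K))) ≤ 1 / W ^ 2 := by
      rw [exp_neg, ← one_div]
      apply one_div_le_one_div_of_le (by positivity)
      calc W ^ 2 = exp (2 * log W) := by
            rw [two_mul, exp_add, exp_log hWp]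
            ring
        _ ≤ _ := exp_le_exp.2 h4
    have h6 : (n : ℝ) / (ε / 8 * K ^ 2) ≤ 8 * W := by
      have h7 : ε⁻¹ ^ 2 ≤ K := by
        have h8 : 1 ≤ D * log W := by linarith
        have : 1 * ε⁻¹ ^ 2 ≤ D * log W * ε⁻¹ ^ 2 := mul_le_mul_of_nonneg_right h8 (by positivity)
        have h9 : t = D * log W * ε⁻¹ ^ 2 := by
          rw [ht]
          ring
        linarith
      have h8 : (ε⁻¹ ^ 2) ^ 2 ≤ (K : ℝ) ^ 2 := pow_le_pow_left₀ (by positivity) h7 2
      have h9 : (n : ℝ) / (ε / 8 * K ^ 2) ≤ n / (ε / 8 * (ε⁻¹ ^ 2) ^ 2) := by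
        apply div_le_div_of_nonneg_left hnp.le (by positivity)
        exact mul_le_mul_of_nonneg_left h8 (by positivity)
      refine h9.trans (le_of_eq ?_)
      rw [hWdef]
      field_simp
    calc 2 * exp (-(c' * (ε ^ 2 * K))) * (n / (ε / 8 * K ^ 2))
        ≤ 2 * (1 / W ^ 2) * (8 * W) := by
          apply mul_le_mul _ h6 (by positivity) (by positivity)
          exact mul_le_mul_of_nonneg_left h5 (by norm_num)
      _ = 16 / W := by
          field_simp
          norm_num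
  -- T3
  have T3 := boundB hα hQ hε g1 g2 g3' hW1 hεn4 hcεn hM hκA2 hκB1 hτA
  have T3' : 2 * exp (-((α + 1) / (α + 2) / 2 * (7 / 1024) * (ε ^ 2 * κA))) * 2
      ≤ 16 * a / c' / W := by
    rw [← hc']
    have h3 : c' * (W / (4 * a)) ≤ c' * (ε ^ 2 * κA) := by
      apply mul_le_mul_of_nonneg_left _ hc'p.le
      have h4 : W / (4 * a) = ε ^ 2 * (ε * n / (4 * a)) := by
        rw [hWdef]
        ring
      rw [h4]
      exact mul_le_mul_of_nonneg_left hκA2 (by positivity)
    have h5 : exp (-(c' * (ε ^ 2 * κA))) ≤ 4 * a / c' / W := by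
      have h6 : 0 < c' * (W / (4 * a)) := by positivity
      rw [exp_neg, ← one_div]
      have h7 : c' * (W / (4 * a)) ≤ exp (c' * (ε ^ 2 * κA)) := by
        have := Real.add_one_le_exp (c' * (ε ^ 2 * κA))
        linarith
      calc 1 / exp (c' * (ε ^ 2 * κA)) ≤ 1 / (c' * (W / (4 * a))) :=
            one_div_le_one_div_of_le h6 h7
        _ = 4 * a / c' / W := by
            field_simp
    calc 2 * exp (-(c' * (ε ^ 2 * κA))) * 2 ≤ 2 * (4 * a / c' / W) * 2 := by linarith
      _ = 16 * a / c' / W := by ring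
  -- T4
  have T4 := boundC hα hε g2 hεn4 hcεn hM hκB2 hτB
  have e5 : (2 + 16 + 16 * a / c' + 64 * a ^ 2) / W
      = 2 / W + 16 / W + 16 * a / c' / W + 2 * (32 * a ^ 2 / W) := by
    ring
  rw [e5]
  linarith

end PA2a
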