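import Pool.Agent.Lib.MP_2a260c_pr.Comp

/-! Components of the multigraph and of the underlying simple graph. -/

namespace PA2a

open Finset

set_option linter.unusedSectionVars false

section

variable {V I : Type*} [Fintype V] [DecidableEq V] [Fintype I] [DecidableEq I]

theorem gr_adj (x : I → V × V) (u v : V) :
    (gr x).Adj u v ↔ u ≠ v ∧ ((∃ i, x i = (u, v)) ∨ ∃ i, x i = (v, u)) := by
  simp [gr, SimpleGraph.fromRel_adj]

theorem Closed.adj {x : I → V × V} {T : Finset V} (hT : Closed x T) {u v : V}
    (h : (gr x).Adj u v) : u ∈ T ↔ v ∈ T := by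
  rw [gr_adj] at h
  rcases h.2 with ⟨i, hi⟩ | ⟨i, hi⟩
  · have := hT i
    rw [hi] at this
    exact this
  · have := hT i
    rw [hi] at this
    exact this.symm

theorem Closed.reachable {x : I → V × V} {T : Finset V} (hT : Closed x T) {u v : V}
    (h : (gr x).Reachable u v) : u ∈ T ↔ v ∈ T := by
  obtain ⟨p⟩ := h
  induction p with
  | nil => exact Iff.rfl
  | cons hadj _ ih => exact (hT.adj hadj).trans ih

theorem reachable_edge (x : I → V × V) (i : I) : (gr x).Reachable (x i).1 (x i).2 := by
  by_cases h : (x i).1 = (x i).2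
  · rw [h]
  · apply SimpleGraph.Adj.reachable
    rw [gr_adj]
    exact ⟨h, Or.inl ⟨i, rfl⟩⟩

open Classical in
theorem closed_reach (x : I → V × V) (u : V) :
    Closed x (univ.filter (fun v => (gr x).Reachable u v)) := by
  intro i
  simp only [mem_filter, mem_univ, true_and]
  exact ⟨fun h => h.trans (reachable_edge x i), fun h => h.trans (reachable_edge x i).symm⟩

open Classical in
theorem isComp_reach (x : I → V × V) (u : V) :
    IsComp x (univ.filter (fun v => (gr x).Reachable u v)) := by
  refine ⟨⟨u, by simp⟩, closed_reach x u, ?_⟩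
  intro T hT hne hcl
  apply subset_antisymm hT
  intro v hv
  obtain ⟨w, hw⟩ := hne
  have hw' := hT hw
  simp only [mem_filter, mem_univ, true_and] at hv hw'
  exact (hcl.reachable (hw'.symm.trans hv)).1 hw

open Classical in
theorem IsComp.eq_reach {x : I → V × V} {S : Finset V} (hS : IsComp x S) {u : V} (hu : u ∈ S) :
    S = univ.filter (fun v => (gr x).Reachable u v) := by
  apply hS.eq_of_inter (isComp_reach x u)
  exact ⟨u, by simp [hu]⟩

theorem supp_isComp (x : I → V × V) (C : (gr x).ConnectedComponent) (S : Finset V)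
    (hS : (S : Set V) = C.supp) : IsComp x S := by
  classical
  obtain ⟨u, hu⟩ := C.exists_rep
  have : S = univ.filter (fun v => (gr x).Reachable u v) := by
    ext v
    rw [← mem_coe, hS, SimpleGraph.ConnectedComponent.mem_supp_iff, ← hu]
    simp only [mem_filter, mem_univ, true_and]
    constructor
    · intro h
      exact (SimpleGraph.ConnectedComponent.exact h).symm
    · intro h
      exact SimpleGraph.ConnectedComponent.sound h.symm
  rw [this]
  exact isComp_reach x u

theorem Conn.card_le {x : I → V × V} (h : Conn x) : Fintype.card V ≤ Fintype.card I + 1 := by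
  classical
  obtain ⟨u, _⟩ := h.1
  have hconn : (gr x).Connected := by
    haveI : Nonempty V := ⟨u⟩
    refine SimpleGraph.Connected.mk ?_
    intro v w
    have := h.eq_reach (mem_univ v)
    have hw : w ∈ (univ : Finset V) := mem_univ w
    rw [this] at hw
    simpa using hw
  have h1 := hconn.card_vert_le_card_edgeSet_add_one
  have h2 : Nat.card (gr x).edgeSet ≤ Fintype.card I := by
    rw [← Nat.card_eq_fintype_card]
    have hex : ∀ e : (gr x).edgeSet, ∃ i, s((x i).1, (x i).2) = e.1 := by
      rintro ⟨e, he⟩
      induction e with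
      | _ a b =>
        rw [SimpleGraph.mem_edgeSet, gr_adj] at he
        rcases he.2 with ⟨i, hi⟩ | ⟨i, hi⟩
        · exact ⟨i, by simp [hi]⟩
        · exact ⟨i, by simp [hi, Sym2.eq_swap]⟩
    choose f hf using hex
    apply Nat.card_le_card_of_injective f
    intro e1 e2 h12
    apply Subtype.ext
    rw [← hf e1, ← hf e2, h12]
  rw [Nat.card_eq_fintype_card] at h1
  omega

end

theorem cn_nonneg {α : ℝ} (hα : 0 ≤ α) (k e : ℕ) : 0 ≤ cn α k e := by
  classical
  unfold cn
  apply sum_nonneg
  intro y _
  split_ifs
  · exact wt_nonneg (fun _ => hα) y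
  · exact le_rfl

theorem cn_eq_zero {α : ℝ} {k e : ℕ} (h : e + 1 < k ∨ k = 0) : cn α k e = 0 := by
  classical
  unfold cn
  apply sum_eq_zero
  intro y _
  rw [if_neg]
  intro hy
  have h1 := hy.card_le
  simp only [Fintype.card_fin] at h1
  rcases h with h | h
  · omega
  · subst h
    obtain ⟨u, _⟩ := hy.1
    exact u.elim0

end PA2a
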