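import Pool.Agent.Lib.MP_2a260c_pr.Transfer
import Pool.Agent.Lib.MP_2a260c_pr.Graph

/-! Final deduction: from the exchangeable model to the process. -/

namespace PA2a

open Filter Topology Finset

theorem two_le_countP_of_getD {l : List ℕ} (hl : l.Pairwise (· ≥ ·)) {κ : ℕ} (hκ : 0 < κ)
    (h : κ ≤ l.getD 1 0) : 2 ≤ l.countP (fun a => decide (κ ≤ a)) := by
  match l, hl, h with
  | [], _, h => simp at h; omega
  | [a], _, h => simp at h; omega
  | a :: b :: r, hl, h =>
    have hb : κ ≤ b := by simpa using h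
    have ha : κ ≤ a := by
      have := List.rel_of_pairwise_cons hl (List.mem_cons_self : b ∈ b :: r)
      exact hb.trans this
    rw [List.countP_cons, List.countP_cons]
    simp [ha, hb]

open Classical in
theorem exists_two_comps {n : ℕ} (G : SimpleGraph (Fin n)) {κ : ℕ} (hκ : 0 < κ) (h : κ ≤ L 2 G) :
    ∃ C C' : G.ConnectedComponent, C ≠ C' ∧ κ ≤ C.supp.ncard ∧ κ ≤ C'.supp.ncard := by
  unfold L at h
  have h1 : 2 ≤ (compSizes G).countP (fun a => decide (κ ≤ a)) := by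
    apply two_le_countP_of_getD _ hκ h
    exact Multiset.pairwise_sort _ _
  have h2 : ((compSizes G : List ℕ) : Multiset ℕ)
      = (Finset.univ : Finset G.ConnectedComponent).val.map (fun C => C.supp.ncard) :=
    Multiset.sort_eq _ _
  have h3 : Multiset.countP (fun a => κ ≤ a) ((compSizes G : List ℕ) : Multiset ℕ)
      = (compSizes G).countP (fun a => decide (κ ≤ a)) := by
    rw [Multiset.coe_countP]
  rw [h2, Multiset.countP_map] at h3
  rw [← h3] at h1
  have h4 : 2 ≤ #{C : G.ConnectedComponent | κ ≤ C.supp.ncard} := h1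
  obtain ⟨C, hC, C', hC', hne⟩ := Finset.one_lt_card.1 h4
  refine ⟨C, C', hne, ?_, ?_⟩
  · simpa using hC
  · simpa using hC'

theorem two_le_cnt {n m : ℕ} (x : Fin m → Fin n × Fin n) {κ : ℕ} (hκ : 0 < κ)
    (h : κ ≤ L 2 (gr x)) : 2 ≤ cnt κ x := by
  classical
  obtain ⟨C, C', hne, hC, hC'⟩ := exists_two_comps (gr x) hκ h
  unfold cnt
  apply Finset.one_lt_card.2
  have hcard : ∀ D : (gr x).ConnectedComponent, #D.supp.toFinset = D.supp.ncard := by
    intro D
    rw [Set.ncard_eq_toFinset_card']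
  refine ⟨C.supp.toFinset, ?_, C'.supp.toFinset, ?_, ?_⟩
  · simp only [mem_filter, mem_univ, true_and]
    exact ⟨supp_isComp x C _ (by simp), by rw [hcard]; exact hC⟩
  · simp only [mem_filter, mem_univ, true_and]
    exact ⟨supp_isComp x C' _ (by simp), by rw [hcard]; exact hC'⟩
  · intro h1
    apply hne
    apply SimpleGraph.ConnectedComponent.supp_injective
    rw [← Set.coe_toFinset C.supp, h1, Set.coe_toFinset]

theorem E_mono' {α : ℝ} (hα : 0 ≤ α) {n m : ℕ} {f g : (Fin m → Fin n × Fin n) → ℝ}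
    (h : ∀ x, f x ≤ g x) : E α n m f ≤ E α n m g := by
  unfold E
  apply div_le_div_of_nonneg_right
  · apply sum_le_sum
    intro x _
    exact mul_le_mul_of_nonneg_left (h x) (wt_nonneg (fun _ => hα) x)
  · unfold Z
    exact rise_nonneg (by positivity) _

theorem E_nonneg' {α : ℝ} (hα : 0 ≤ α) {n m : ℕ} {f : (Fin m → Fin n × Fin n) → ℝ}
    (h : ∀ x, 0 ≤ f x) : 0 ≤ E α n m f := by
  unfold E
  apply div_nonneg
  · apply sum_nonneg
    intro x _
    exact mul_nonneg (wt_nonneg (fun _ => hα) x) (h x)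
  · unfold Z
    exact rise_nonneg (by positivity) _

theorem toOuter_compl {β : Type*} (p : PMF β) (s : Set β) :
    p.toOuterMeasure s = 1 - p.toOuterMeasure sᶜ := by
  have h : p.toOuterMeasure s + p.toOuterMeasure sᶜ = 1 := by
    rw [PMF.toOuterMeasure_apply, PMF.toOuterMeasure_apply, ← ENNReal.tsum_add, ← p.tsum_coe]
    congr 1
    ext a
    by_cases ha : a ∈ s
    · rw [Set.indicator_of_mem ha, Set.indicator_of_notMem (by simpa using ha), add_zero]
    · rw [Set.indicator_of_notMem ha, Set.indicator_of_mem (by simpa using ha), zero_add]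
  have h2 : p.toOuterMeasure sᶜ ≠ ⊤ := by
    intro h3
    rw [h3, add_top] at h
    exact ENNReal.top_ne_one h
  exact ENNReal.eq_sub_of_add_eq h2 h

theorem final_of {α : ℝ} (hα : 0 < α)
    (hex : ∃ D > 0, ∃ C > 0, ∃ ε0 > 0, ∃ W0 : ℝ, ∀ (n m : ℕ) (ε : ℝ), 0 < ε → ε ≤ ε0 →
      W0 ≤ ε ^ 3 * n → |(m : ℝ) - cc α * n * (1 + ε)| ≤ 1 →
      E α n m (fun x => if 2 ≤ cnt (⌊D * ε⁻¹ ^ 2 * Real.log (ε ^ 3 * n)⌋₊ + 1) x then 1 else 0)
        ≤ C / (ε ^ 3 * n)) :
    ∃ D : ℝ, 0 < D ∧ ∀ ε : ℕ → ℝ,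
    Tendsto ε atTop (𝓝 0) → Tendsto (fun n : ℕ => ε n ^ 3 * n) atTop atTop →
    Tendsto (fun n : ℕ => (law α n ⌊n * α / (2 * (α + 1)) * (1 + ε n)⌋₊).toOuterMeasure
      {G | (L 2 G : ℝ) ≤ D * (ε n)⁻¹ ^ 2 * Real.log (ε n ^ 3 * n)}) atTop (𝓝 1) := by
  classical
  obtain ⟨D, hD, C, hC, ε0, hε0, W0, hex⟩ := hex
  obtain ⟨C1, hC1, htr⟩ := transfer hα
  refine ⟨D, hD, ?_⟩
  intro ε hε hεn
  -- notation
  set m : ℕ → ℕ := fun n => ⌊n * α / (2 * (α + 1)) * (1 + ε n)⌋₊ with hm
  set t : ℕ → ℝ := fun n => D * (ε n)⁻¹ ^ 2 * Real.log (ε n ^ 3 * n) with ht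
  -- the bad events
  have key : Tendsto (fun n : ℕ => ((law α n (m n)).toOuterMeasure
      {G | (L 2 G : ℝ) ≤ t n}ᶜ).toReal) atTop (𝓝 0) := by
    rw [Metric.tendsto_atTop]
    intro η hη
    set K : ℝ := max 1 (4 * C1 / η) with hK
    obtain ⟨n0, C2, htr'⟩ := htr K (le_max_left _ _)
    have hKη : C1 / K ≤ η / 4 := by
      have h1 : 4 * C1 / η ≤ K := le_max_right _ _
      have h2 : 0 < K := lt_of_lt_of_le one_pos (le_max_left _ _)
      rw [div_le_iff₀ h2]
      rw [div_le_iff₀ hη] at h1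
      linarith
    have e1 : ∀ᶠ n : ℕ in atTop, ε n ≤ ε0 := by
      filter_upwards [hε.eventually (gt_mem_nhds hε0)] with n hn
      exact hn.le
    have e2 : ∀ᶠ n : ℕ in atTop, ε n < 1 / α :=
      hε.eventually (gt_mem_nhds (by positivity))
    have e3 : ∀ᶠ n : ℕ in atTop, W0 ≤ ε n ^ 3 * n := hεn.eventually (eventually_ge_atTop W0)
    have e4 : ∀ᶠ n : ℕ in atTop, 1 ≤ ε n ^ 3 * n := hεn.eventually (eventually_ge_atTop 1)
    have e5 : ∀ᶠ n : ℕ in atTop, 4 * (|C2| * C) / η ≤ ε n ^ 3 * n :=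
      hεn.eventually (eventually_ge_atTop _)
    obtain ⟨N, hN⟩ := eventually_atTop.1
      (e1.and (e2.and (e3.and (e4.and (e5.and (eventually_ge_atTop n0))))))
    refine ⟨N, fun n hn => ?_⟩
    obtain ⟨h1, h2, h3, h4, h5, h6⟩ := hN n hn
    have hεpos : 0 < ε n := by
      by_contra hneg
      rw [not_lt] at hneg
      have h7 : ε n ^ 3 ≤ 0 := by
        have : ε n ^ 3 = ε n * (ε n) ^ 2 := by ring
        rw [this]
        exact mul_nonpos_of_nonpos_of_nonneg hneg (sq_nonneg _)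
      have h8 : ε n ^ 3 * n ≤ 0 := mul_nonpos_of_nonpos_of_nonneg h7 (by positivity)
      linarith
    have hn0 : (0 : ℝ) ≤ n := by positivity
    have hy : 0 ≤ n * α / (2 * (α + 1)) * (1 + ε n) := by positivity
    have hmle : (m n : ℝ) ≤ n * α / (2 * (α + 1)) * (1 + ε n) := Nat.floor_le hy
    have hmge : n * α / (2 * (α + 1)) * (1 + ε n) < (m n : ℝ) + 1 := Nat.lt_floor_add_one _
    have hcc : cc α * n * (1 + ε n) = n * α / (2 * (α + 1)) * (1 + ε n) := by
      unfold cc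
      ring
    have habs : |(m n : ℝ) - cc α * n * (1 + ε n)| ≤ 1 := by
      rw [hcc, abs_le]
      constructor <;> linarith
    have h2m : 2 * m n ≤ n := by
      have h7 : (2 * m n : ℝ) ≤ n := by
        calc (2 * m n : ℝ) ≤ 2 * (n * α / (2 * (α + 1)) * (1 + ε n)) := by linarith
          _ = n * (α * (1 + ε n) / (α + 1)) := by
              field_simp
          _ ≤ n * 1 := by
              apply mul_le_mul_of_nonneg_left _ hn0
              rw [div_le_one (by positivity)]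
              have : α * ε n ≤ 1 := by
                rw [lt_div_iff₀ hα] at h2
                linarith
              linarith
          _ = n := mul_one _
      exact_mod_cast h7
    have hA := htr' n (m n) h6 h2m {G | (L 2 G : ℝ) ≤ t n}ᶜ
    have hB := hex n (m n) (ε n) hεpos h1 h3 habs
    have htn : 0 ≤ t n := by
      apply mul_nonneg (by positivity)
      exact Real.log_nonneg h4
    have hcmp : E α n (m n) (fun x => if gr x ∈ {G | (L 2 G : ℝ) ≤ t n}ᶜ then 1 else 0)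
        ≤ E α n (m n) (fun x => if 2 ≤ cnt (⌊D * (ε n)⁻¹ ^ 2 * Real.log (ε n ^ 3 * n)⌋₊ + 1) x
          then 1 else 0) := by
      apply E_mono' hα.le
      intro x
      by_cases hx : gr x ∈ {G | (L 2 G : ℝ) ≤ t n}ᶜ
      · rw [if_pos hx]
        have hx' : t n < (L 2 (gr x) : ℝ) := by
          simpa using hx
        have h7 : ⌊t n⌋₊ + 1 ≤ L 2 (gr x) := (Nat.floor_lt htn).2 hx'
        have h8 := two_le_cnt x (Nat.succ_pos _) h7
        rw [if_pos h8]
      · rw [if_neg hx]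
        split_ifs <;> norm_num
    have hE0 : 0 ≤ E α n (m n) (fun x => if gr x ∈ {G | (L 2 G : ℝ) ≤ t n}ᶜ then 1 else 0) := by
      apply E_nonneg' hα.le
      intro x
      split_ifs <;> norm_num
    have h9 : C2 * E α n (m n) (fun x => if gr x ∈ {G | (L 2 G : ℝ) ≤ t n}ᶜ then 1 else 0)
        ≤ η / 4 := by
      calc C2 * E α n (m n) (fun x => if gr x ∈ {G | (L 2 G : ℝ) ≤ t n}ᶜ then 1 else 0)
          ≤ |C2| * E α n (m n) (fun x => if gr x ∈ {G | (L 2 G : ℝ) ≤ t n}ᶜ then 1 else 0) :=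
            mul_le_mul_of_nonneg_right (le_abs_self _) hE0
        _ ≤ |C2| * (C / (ε n ^ 3 * n)) :=
            mul_le_mul_of_nonneg_left (hcmp.trans hB) (abs_nonneg _)
        _ ≤ η / 4 := by
            rw [← mul_div_assoc, div_le_iff₀ (by linarith)]
            rw [div_le_iff₀ hη] at h5
            linarith
    rw [Real.dist_eq, sub_zero, abs_of_nonneg ENNReal.toReal_nonneg]
    have hA' : ((law α n (m n)).toOuterMeasure {G | (L 2 G : ℝ) ≤ t n}ᶜ).toReal
        ≤ C1 / K + C2 * E α n (m n)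
          (fun x => if gr x ∈ {G | (L 2 G : ℝ) ≤ t n}ᶜ then 1 else 0) := by
      convert hA
    linarith
  have key2 : Tendsto (fun n : ℕ => (law α n (m n)).toOuterMeasure
      {G | (L 2 G : ℝ) ≤ t n}ᶜ) atTop (𝓝 0) := by
    have hfin : ∀ n : ℕ, (law α n (m n)).toOuterMeasure {G | (L 2 G : ℝ) ≤ t n}ᶜ ≠ ⊤ := by
      intro n
      have h1 : (law α n (m n)).toOuterMeasure {G | (L 2 G : ℝ) ≤ t n}ᶜ ≤ 1 := by
        rw [PMF.toOuterMeasure_apply, ← (law α n (m n)).tsum_coe]
        apply ENNReal.tsum_le_tsum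
        intro a
        exact Set.indicator_le_self _ _ a
      exact ne_top_of_le_ne_top ENNReal.one_ne_top h1
    rw [← ENNReal.tendsto_toReal_iff hfin ENNReal.zero_ne_top]
    simpa using key
  have h := ENNReal.Tendsto.sub (tendsto_const_nhds (x := (1 : ENNReal)) (f := atTop)) key2
    (Or.inl ENNReal.one_ne_top)
  rw [tsub_zero] at h
  refine h.congr ?_
  intro n
  exact (toOuter_compl _ _).symm

end PA2a
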