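import Pool.Agent.Lib.MP_2a260c_pr.Model

/-! One-step ratios and their logarithms. -/

namespace PA2a

open Finset Real

/-- the one-step ratio -/
noncomputable def R (α : ℝ) (n m : ℕ) : ℝ :=
  n * m * rise ((n - 1 : ℕ) * α) (2 * (m - 1)) / rise (n * α) (2 * m)

/-- the rate function -/
noncomputable def ell (α s : ℝ) : ℝ := log s - (α + 2) * log (α + 1 + s)

/-- the additive constant -/
noncomputable def k0 (α : ℝ) : ℝ := log (cc α) + (α + 2) * log (α + 1) - 2 * log α

theorem cc_pos {α : ℝ} (hα : 0 < α) : 0 < cc α := by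
  unfold cc
  positivity

theorem cc_lt {α : ℝ} (hα : 0 < α) : cc α < 1 / 2 := by
  unfold cc
  rw [div_lt_div_iff₀ (by positivity) (by norm_num)]
  linarith

theorem R_pos {α : ℝ} (hα : 0 < α) {n m : ℕ} (hn : 2 ≤ n) (hm : 1 ≤ m) : 0 < R α n m := by
  unfold R
  have h1 : 0 < rise ((n - 1 : ℕ) * α) (2 * (m - 1)) := by
    apply rise_pos
    have : (0 : ℝ) < (n - 1 : ℕ) := by
      have : 0 < n - 1 := by omega
      exact_mod_cast this
    positivity
  have h2 : 0 < rise (n * α) (2 * m) := by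
    apply rise_pos
    have : (0 : ℝ) < n := by
      have : 0 < n := by omega
      exact_mod_cast this
    positivity
  have h3 : (0 : ℝ) < n := by
    have : 0 < n := by omega
    exact_mod_cast this
  have h4 : (0 : ℝ) < m := by
    have : 0 < m := by omega
    exact_mod_cast this
  positivity

theorem q_step {α : ℝ} (hα : 0 < α) {n m k e : ℕ} (hk : 1 ≤ k) (hkn : k < n) (hem : e < m) :
    q α n m k e * R α (n - k) (m - e) = R α n m * q α (n - 1) (m - 1) k e := by
  obtain ⟨n', rfl⟩ : ∃ n', n = n' + 1 := ⟨n - 1, by omega⟩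
  obtain ⟨m', rfl⟩ : ∃ m', m = m' + 1 := ⟨m - 1, by omega⟩
  have hn' : 1 ≤ n' := by omega
  have hkn' : k ≤ n' := by omega
  have hem' : e ≤ m' := by omega
  unfold q R
  have e1 : n' + 1 - 1 = n' := by omega
  have e2 : m' + 1 - 1 = m' := by omega
  have e3 : n' + 1 - k - 1 = n' - k := by omega
  have e4 : m' + 1 - e - 1 = m' - e := by omega
  rw [e1, e2, e3, e4]
  have c1 : ((n'.choose k : ℕ) : ℝ) * (n' + 1 : ℕ) = ((n' + 1).choose k : ℕ) * (n' + 1 - k : ℕ) := by
    exact_mod_cast Nat.choose_mul_succ_eq n' k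
  have c2 : ((m'.choose e : ℕ) : ℝ) * (m' + 1 : ℕ) = ((m' + 1).choose e : ℕ) * (m' + 1 - e : ℕ) := by
    exact_mod_cast Nat.choose_mul_succ_eq m' e
  have r1 : rise ((n' + 1 - k : ℕ) * α) (2 * (m' + 1 - e)) ≠ 0 := by
    apply ne_of_gt
    apply rise_pos
    have : (0 : ℝ) < (n' + 1 - k : ℕ) := by
      have : 0 < n' + 1 - k := by omega
      exact_mod_cast this
    positivity
  have r2 : rise ((n' + 1 : ℕ) * α) (2 * (m' + 1)) ≠ 0 := by
    apply ne_of_gt
    apply rise_pos
    positivity
  have r3 : rise ((n' : ℕ) * α) (2 * m') ≠ 0 := by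
    apply ne_of_gt
    apply rise_pos
    have : (0 : ℝ) < (n' : ℕ) := by exact_mod_cast hn'
    positivity
  generalize rise ((n' + 1 - k : ℕ) * α) (2 * (m' + 1 - e)) = ρ1 at *
  generalize rise ((n' + 1 : ℕ) * α) (2 * (m' + 1)) = ρ2 at *
  generalize rise ((n' : ℕ) * α) (2 * m') = ρ3 at *
  generalize rise ((n' - k : ℕ) * α) (2 * (m' - e)) = ρ4 at *
  have l : ((n' + 1).choose k : ℕ) * ((m' + 1).choose e : ℕ) * ρ1 / ρ2
      * ((n' + 1 - k : ℕ) * (m' + 1 - e : ℕ) * ρ4 / ρ1)
      = (((n' + 1).choose k : ℕ) * (n' + 1 - k : ℕ)) * (((m' + 1).choose e : ℕ) * (m' + 1 - e : ℕ))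
        * ρ4 / ρ2 := by
    field_simp
  have r : (n' + 1 : ℕ) * (m' + 1 : ℕ) * ρ3 / ρ2 * ((n'.choose k : ℕ) * (m'.choose e : ℕ) * ρ4 / ρ3)
      = (((n'.choose k : ℕ) : ℝ) * (n' + 1 : ℕ)) * (((m'.choose e : ℕ) : ℝ) * (m' + 1 : ℕ))
        * ρ4 / ρ2 := by
    field_simp
  rw [l, r, c1, c2]

theorem log_one_sub_bounds {α t : ℝ} (hα : 0 < α) (ht : 2 * α ≤ t) (ht1 : 1 ≤ t) :
    -(2 * α ^ 2 + α) / t ^ 2 ≤ log (1 - α / t) + α * (log (t + 1) - log t) ∧
      log (1 - α / t) + α * (log (t + 1) - log t) ≤ 0 := by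
  have htp : 0 < t := by linarith
  have hy : α / t ≤ 1 / 2 := by
    rw [div_le_div_iff₀ htp (by norm_num)]
    linarith
  have hy0 : 0 < α / t := by positivity
  have h1 : 0 < 1 - α / t := by linarith
  have hlog : log (t + 1) - log t = log (1 + 1 / t) := by
    rw [← log_div (by linarith) htp.ne']
    congr 1
    field_simp
  rw [hlog]
  constructor
  · -- lower
    have l1 : -(α / t) - 2 * (α / t) ^ 2 ≤ log (1 - α / t) := by
      have h2 := Real.one_sub_inv_le_log_of_pos h1
      have h3 : (1 - α / t)⁻¹ ≤ 1 + α / t + 2 * (α / t) ^ 2 := by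
        rw [inv_le_iff_one_le_mul₀ h1]
        nlinarith [sq_nonneg (α / t)]
      linarith
    have l2 : 1 / t - (1 / t) ^ 2 ≤ log (1 + 1 / t) := by
      have h2 := Real.one_sub_inv_le_log_of_pos (show 0 < 1 + 1 / t by positivity)
      have h3 : (1 + 1 / t)⁻¹ ≤ 1 - 1 / t + (1 / t) ^ 2 := by
        rw [inv_le_iff_one_le_mul₀ (by positivity)]
        have : 0 < 1 / t := by positivity
        nlinarith [pow_pos this 3]
      linarith
    have : α * (1 / t - (1 / t) ^ 2) ≤ α * log (1 + 1 / t) := mul_le_mul_of_nonneg_left l2 hα.le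
    have e : -(2 * α ^ 2 + α) / t ^ 2 = (-(α / t) - 2 * (α / t) ^ 2) + α * (1 / t - (1 / t) ^ 2) := by
      field_simp
      ring
    rw [e]
    linarith
  · have u1 : log (1 - α / t) ≤ -(α / t) := by
      have := Real.log_le_sub_one_of_pos h1
      linarith
    have u2 : log (1 + 1 / t) ≤ 1 / t := by
      have := Real.log_le_sub_one_of_pos (show 0 < 1 + 1 / t by positivity)
      linarith
    have : α * log (1 + 1 / t) ≤ α * (1 / t) := mul_le_mul_of_nonneg_left u2 hα.le
    have e : α * (1 / t) = α / t := by ring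
    linarith

theorem log_rise_ratio {α T : ℝ} (hα : 0 < α) (hT : 2 * α ≤ T) (hT1 : 1 ≤ T) (j : ℕ) :
    0 < rise (T - α) j / rise T j ∧
    -α * (log (T + j) - log T) - j * ((2 * α ^ 2 + α) / T ^ 2) ≤ log (rise (T - α) j / rise T j) ∧
      log (rise (T - α) j / rise T j) ≤ -α * (log (T + j) - log T) := by
  have hTp : 0 < T := by linarith
  have hTa : 0 < T - α := by linarith
  induction j with
  | zero => simp [rise_zero]
  | succ j ih =>
    obtain ⟨h0, h1, h2⟩ := ih
    have hj : (0 : ℝ) ≤ j := Nat.cast_nonneg j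
    have ht : 0 < T + j := by linarith
    have hb := log_one_sub_bounds hα (show 2 * α ≤ T + j by linarith) (by linarith)
    have e1 : rise (T - α) (j + 1) / rise T (j + 1)
        = rise (T - α) j / rise T j * (1 - α / (T + j)) := by
      rw [rise_succ, rise_succ]
      have := (rise_pos hTp j).ne'
      field_simp
      ring
    have hpos : 0 < 1 - α / (T + j) := by
      have : α / (T + j) < 1 := by
        rw [div_lt_one ht]
        linarith
      linarith
    have e2 : log (rise (T - α) (j + 1) / rise T (j + 1))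
        = log (rise (T - α) j / rise T j) + log (1 - α / (T + j)) := by
      rw [e1, log_mul h0.ne' hpos.ne']
    have hsq : -((2 * α ^ 2 + α) / T ^ 2) ≤ -(2 * α ^ 2 + α) / (T + j) ^ 2 := by
      rw [neg_div]
      apply neg_le_neg
      apply div_le_div_of_nonneg_left (by positivity) (by positivity)
      apply pow_le_pow_left₀ hTp.le
      linarith
    refine ⟨by rw [e1]; positivity, ?_, ?_⟩
    · rw [e2]
      push_cast
      rw [← add_assoc]
      nlinarith [hb.1, h1]
    · rw [e2]
      push_cast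
      rw [← add_assoc]
      nlinarith [hb.2, h2]

theorem log_R {α : ℝ} (hα : 0 < α) : ∃ C > 0, ∃ N0 : ℕ, 2 ≤ N0 ∧ ∀ n m : ℕ, N0 ≤ n → 1 ≤ m → m ≤ n →
    |log (R α n m) - (k0 α + ell α (m / (cc α * n)))| ≤ C / n := by
  refine ⟨4 * (2 * α ^ 2 + α) / α ^ 2 + 4 * (α + 2) / α, by positivity,
    max 2 (⌈1 / α⌉₊), le_max_left _ _, ?_⟩
  intro n m hn hm hmn
  have hn2 : 2 ≤ n := le_trans (le_max_left _ _) hn
  have hn3 : 1 / α ≤ n := by
    have := le_trans (le_max_right _ _) hn
    exact (Nat.le_ceil _).trans (by exact_mod_cast this)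
  have hnp : (0 : ℝ) < n := by
    have : 0 < n := by omega
    exact_mod_cast this
  have hmp : (0 : ℝ) < m := by
    have : 0 < m := by omega
    exact_mod_cast this
  have hn2' : (2 : ℝ) ≤ n := by exact_mod_cast hn2
  have hmn' : (m : ℝ) ≤ n := by exact_mod_cast hmn
  have hm' : (1 : ℝ) ≤ m := by exact_mod_cast hm
  set T : ℝ := n * α with hT
  have hTp : 0 < T := by positivity
  have hT1 : 1 ≤ T := by
    rw [hT]
    rwa [div_le_iff₀ hα] at hn3
  have hT2 : 2 * α ≤ T := by
    rw [hT]
    nlinarith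
  obtain ⟨m', rfl⟩ : ∃ m', m = m' + 1 := ⟨m - 1, by omega⟩
  obtain ⟨g0, g1, g2⟩ := log_rise_ratio hα hT2 hT1 (2 * m')
  have hcast : ((n - 1 : ℕ) : ℝ) * α = T - α := by
    rw [Nat.cast_sub (by omega), hT]
    push_cast
    ring
  have eR : R α n (m' + 1) = n * (m' + 1 : ℕ) * (rise (T - α) (2 * m') / rise T (2 * m'))
      / ((T + 2 * m') * (T + 2 * m' + 1)) := by
    unfold R
    have : m' + 1 - 1 = m' := by omega
    rw [this, hcast, show 2 * (m' + 1) = 2 * m' + 1 + 1 by ring, rise_succ, rise_succ, ← hT]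
    push_cast
    have := (rise_pos hTp (2 * m')).ne'
    have h3 : T + 2 * (m' : ℝ) ≠ 0 := by positivity
    have h4 : T + 2 * (m' : ℝ) + 1 ≠ 0 := by positivity
    have h5 : T + (2 * (m' : ℝ) + 1) ≠ 0 := by positivity
    field_simp
    ring
  have hlogR : log (R α n (m' + 1)) = log n + log (m' + 1 : ℕ)
      + log (rise (T - α) (2 * m') / rise T (2 * m')) - log (T + 2 * m') - log (T + 2 * m' + 1) := by
    rw [eR, log_div, log_mul, log_mul, log_mul]
    · ring
    all_goals positivity
  set m : ℝ := ((m' + 1 : ℕ) : ℝ) with hmdef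
  have hm2 : (m' : ℝ) = m - 1 := by rw [hmdef]; push_cast; ring
  -- the target expression
  have hell : k0 α + ell α (m / (cc α * n)) = log m + (α + 1) * log n + α * log α
      - (α + 2) * log (T + 2 * m) := by
    unfold k0 ell
    have hc := cc_pos hα
    have e1 : α + 1 + m / (cc α * n) = (α + 1) * (T + 2 * m) / (α * n) := by
      unfold cc
      rw [hT]
      field_simp
    rw [e1, log_div (by positivity) (by positivity), log_mul (by positivity) (by positivity),
      log_div (by positivity) (by positivity), log_mul (by positivity) (by positivity),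
      log_mul (by positivity) (by positivity)]
    ring
  have hlT : log T = log n + log α := by
    rw [hT, log_mul (by positivity) (by positivity)]
  -- differences of logarithms
  have hd1 : 0 ≤ log (T + 2 * m) - log (T + 2 * m') ∧ log (T + 2 * m) - log (T + 2 * m') ≤ 2 / T := by
    constructor
    · have : log (T + 2 * m') ≤ log (T + 2 * m) := by
        apply log_le_log (by positivity)
        linarith
      linarith
    · rw [← log_div (by positivity) (by positivity)]
      have h1 := Real.log_le_sub_one_of_pos (show 0 < (T + 2 * m) / (T + 2 * m') by positivity)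
      have h2 : (T + 2 * m) / (T + 2 * m') - 1 = 2 / (T + 2 * m') := by
        rw [hm2]
        have : T + 2 * (m - 1) ≠ 0 := by
          rw [← hm2]
          positivity
        field_simp
        ring
      have h3 : 2 / (T + 2 * (m' : ℝ)) ≤ 2 / T := by
        apply div_le_div_of_nonneg_left (by norm_num) hTp
        have : (0 : ℝ) ≤ m' := Nat.cast_nonneg _
        linarith
      linarith
  have hd2 : 0 ≤ log (T + 2 * m) - log (T + 2 * m' + 1) ∧
      log (T + 2 * m) - log (T + 2 * m' + 1) ≤ 2 / T := by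
    constructor
    · have : log (T + 2 * m' + 1) ≤ log (T + 2 * m) := by
        apply log_le_log (by positivity)
        linarith
      linarith
    · have : log (T + 2 * m') ≤ log (T + 2 * m' + 1) := by
        apply log_le_log (by positivity)
        linarith
      linarith [hd1.2]
  rw [hlogR, hell]
  push_cast at g1 g2
  have hC : (4 * (2 * α ^ 2 + α) / α ^ 2 + 4 * (α + 2) / α) / n
      = 4 * (2 * α ^ 2 + α) * n / T ^ 2 + 4 * (α + 2) / T := by
    rw [hT]
    field_simp
  rw [hC]
  have hA : 2 * (m' : ℝ) * ((2 * α ^ 2 + α) / T ^ 2) ≤ 4 * (2 * α ^ 2 + α) * n / T ^ 2 := by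
    rw [mul_div_assoc', div_le_div_iff_of_pos_right (by positivity)]
    have : (m' : ℝ) ≤ n := by linarith
    have h5 : 0 < 2 * α ^ 2 + α := by positivity
    nlinarith
  have hB : (α + 2) * (2 / T) ≤ 4 * (α + 2) / T := by
    rw [mul_div_assoc', div_le_div_iff_of_pos_right hTp]
    nlinarith
  have hB' : α * (log (T + 2 * m) - log (T + 2 * m')) ≤ α * (2 / T) :=
    mul_le_mul_of_nonneg_left hd1.2 hα.le
  have hB'' : 0 ≤ α * (log (T + 2 * m) - log (T + 2 * m')) := mul_nonneg hα.le hd1.1
  have hpos1 : 0 ≤ 4 * (2 * α ^ 2 + α) * n / T ^ 2 := by positivity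
  have hpos2 : 0 ≤ 4 * (α + 2) / T := by positivity
  rw [hlT] at g1 g2
  obtain ⟨a1, a2⟩ := hd1
  obtain ⟨b1, b2⟩ := hd2
  generalize log (T + 2 * m) = L0 at *
  generalize log (T + 2 * m') = L1 at *
  generalize log (T + 2 * m' + 1) = L2 at *
  generalize log (rise (T - α) (2 * m') / rise T (2 * m')) = L3 at *
  generalize 4 * (2 * α ^ 2 + α) * n / T ^ 2 = X1 at *
  generalize 4 * (α + 2) / T = X2 at *
  generalize 2 * (m' : ℝ) * ((2 * α ^ 2 + α) / T ^ 2) = X3 at *
  have hX : 2 * (2 / T) + α * (2 / T) ≤ X2 := by linarith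
  generalize 2 / T = X4 at *
  rw [abs_le]
  constructor
  · linarith
  · linarith

end PA2a
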