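import Pool.Agent.Lib.MP_2a260c_pr.Polya

/-! Closed sets, components, expectation in the exchangeable model. -/

namespace PA2a

open Finset

section general

variable {V I : Type*} [Fintype V] [DecidableEq V] [Fintype I] [DecidableEq I]

/-- `T` is a union of components of the multigraph `x`. -/
def Closed (x : I → V × V) (T : Finset V) : Prop := ∀ i, (x i).1 ∈ T ↔ (x i).2 ∈ T

/-- `S` is the vertex set of a connected component of the multigraph `x`
(components are the minimal nonempty closed sets). -/
def IsComp (x : I → V × V) (S : Finset V) : Prop :=
  S.Nonempty ∧ Closed x S ∧ ∀ T, T ⊆ S → T.Nonempty → Closed x T → T = S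

/-- the multigraph `x` is connected (and has at least one vertex) -/
def Conn (x : I → V × V) : Prop := IsComp x univ

/-- number of edges (labels) inside the closed set `S` -/
def ins (x : I → V × V) (S : Finset V) : ℕ := #{i | (x i).1 ∈ S}

open Classical in
/-- number of components with at least `κ` vertices -/
noncomputable def cnt (κ : ℕ) (x : I → V × V) : ℕ := #{S : Finset V | IsComp x S ∧ κ ≤ #S}

open Classical in
/-- number of components `S` such that `(|S|, number of edges in S)` lies in `A` -/
noncomputable def cntA (A : Finset (ℕ × ℕ)) (x : I → V × V) : ℕ :=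
  #{S : Finset V | IsComp x S ∧ (#S, ins x S) ∈ A}

/-- the simple graph underlying the multigraph `x` -/
def gr (x : I → V × V) : SimpleGraph V := SimpleGraph.fromRel (fun u v => ∃ i, x i = (u, v))

end general

/-- total weight -/
noncomputable def Z (α : ℝ) (n m : ℕ) : ℝ := rise (n * α) (2 * m)

/-- expectation of `f` in the exchangeable model with `n` vertices and `m` edges -/
noncomputable def E (α : ℝ) (n m : ℕ) (f : (Fin m → Fin n × Fin n) → ℝ) : ℝ :=
  (∑ x : Fin m → Fin n × Fin n, wt (fun _ => α) x * f x) / Z α n m

open Classical in
/-- total weight of the connected multigraphs with `k` vertices and `e` edges -/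
noncomputable def cn (α : ℝ) (k e : ℕ) : ℝ :=
  ∑ y : Fin e → Fin k × Fin k, if Conn y then wt (fun _ => α) y else 0

/-- the combinatorial factor -/
noncomputable def q (α : ℝ) (n m k e : ℕ) : ℝ :=
  (n.choose k) * (m.choose e) * rise ((n - k : ℕ) * α) (2 * (m - e)) / rise (n * α) (2 * m)

/-- the critical density -/
noncomputable def cc (α : ℝ) : ℝ := α / (2 * (α + 1))

end PA2a
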