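import Mathlib

/-! Rising factorials and the exchangeable (Polya urn) weights on sequences of ordered pairs. -/

namespace PA2a

open Finset

/-- Rising factorial `a (a+1) ... (a+j-1)`. -/
noncomputable def rise (a : ℝ) (j : ℕ) : ℝ := ∏ i ∈ range j, (a + i)

theorem rise_zero (a : ℝ) : rise a 0 = 1 := by simp [rise]

theorem rise_succ (a : ℝ) (j : ℕ) : rise a (j + 1) = rise a j * (a + j) := by
  simp [rise, prod_range_succ]

theorem rise_one (a : ℝ) : rise a 1 = a := by simp [rise]

theorem rise_two (a : ℝ) : rise a 2 = a * (a + 1) := by simp [rise, prod_range_succ]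

theorem rise_add (a : ℝ) (i j : ℕ) : rise a (i + j) = rise a i * rise (a + i) j := by
  simp only [rise, prod_range_add]
  congr 1
  apply prod_congr rfl
  intro k _
  push_cast
  ring

theorem rise_pos {a : ℝ} (ha : 0 < a) (j : ℕ) : 0 < rise a j := by
  apply prod_pos
  intro i _
  positivity

theorem rise_nonneg {a : ℝ} (ha : 0 ≤ a) (j : ℕ) : 0 ≤ rise a j := by
  apply prod_nonneg
  intro i _
  positivity

theorem rise_zero_left {j : ℕ} (hj : j ≠ 0) : rise 0 j = 0 := by
  obtain ⟨k, rfl⟩ := Nat.exists_eq_succ_of_ne_zero hj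
  rw [rise, prod_eq_zero_iff]
  exact ⟨0, by simp, by simp⟩

section words

variable {V I J : Type*} [Fintype V] [DecidableEq V] [Fintype I] [Fintype J]

/-- number of occurrences of the letter `v` in the word `y` -/
def occ (y : I → V) (v : V) : ℕ := ∑ i, if y i = v then 1 else 0

theorem sum_occ (y : I → V) : ∑ v, occ y v = Fintype.card I := by
  simp only [occ]
  rw [sum_comm]
  simp

theorem sum_word (a : V → ℝ) (m : ℕ) :
    ∑ y : Fin m → V, ∏ v, rise (a v) (occ y v) = rise (∑ v, a v) m := by
  induction m with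
  | zero =>
    simp [occ, rise_zero]
  | succ m ih =>
    rw [← (Fin.snocEquiv (fun _ : Fin (m + 1) => V)).sum_comp, Fintype.sum_prod_type]
    have hocc : ∀ (u : V) (y : Fin m → V) (v : V),
        occ (Fin.snoc (α := fun _ => V) y u : Fin (m + 1) → V) v
          = occ y v + if u = v then 1 else 0 := by
      intro u y v
      simp only [occ]
      rw [Fin.sum_univ_castSucc]
      simp only [Fin.snoc_castSucc, Fin.snoc_last]
    have hprod : ∀ (u : V) (y : Fin m → V),
        ∏ v, rise (a v) (occ (Fin.snoc (α := fun _ => V) y u : Fin (m + 1) → V) v)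
          = (∏ v, rise (a v) (occ y v)) * (a u + occ y u) := by
      intro u y
      rw [← mul_prod_erase univ _ (mem_univ u), ← mul_prod_erase univ (fun v => rise (a v) (occ y v)) (mem_univ u)]
      rw [hocc, if_pos rfl, rise_succ]
      have : ∏ x ∈ univ.erase u, rise (a x) (occ (Fin.snoc (α := fun _ => V) y u : Fin (m + 1) → V) x)
          = ∏ x ∈ univ.erase u, rise (a x) (occ y x) := by
        apply prod_congr rfl
        intro x hx
        rw [hocc, if_neg (ne_of_mem_erase hx).symm]
        simp
      rw [this]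
      ring
    have hsnoc : ∀ (u : V) (y : Fin m → V),
        ((Fin.snocEquiv (fun _ : Fin (m + 1) => V)) (u, y)) = Fin.snoc (α := fun _ => V) y u := by
      intro u y
      rfl
    simp only [hsnoc, hprod]
    rw [sum_comm]
    have : ∀ y : Fin m → V, ∑ u, (∏ v, rise (a v) (occ y v)) * (a u + occ y u)
        = (∏ v, rise (a v) (occ y v)) * (∑ v, a v + m) := by
      intro y
      rw [← mul_sum, sum_add_distrib]
      congr 2
      have := sum_occ y
      rw [Fintype.card_fin] at this
      exact_mod_cast this
    simp only [this]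
    rw [← sum_mul, ih, rise_succ]

theorem sum_word' (a : V → ℝ) [DecidableEq I] :
    ∑ y : I → V, ∏ v, rise (a v) (occ y v) = rise (∑ v, a v) (Fintype.card I) := by
  rw [← sum_word a (Fintype.card I)]
  let e := Fintype.equivFin I
  apply Fintype.sum_equiv (Equiv.arrowCongr e (Equiv.refl V))
  intro y
  apply prod_congr rfl
  intro v _
  congr 1
  simp only [occ]
  apply Fintype.sum_equiv e
  intro i
  simp [Equiv.arrowCongr]

end words

section pairs

variable {V I J : Type*} [Fintype V] [DecidableEq V] [Fintype I] [Fintype J]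

/-- degree of `v` in the multigraph given by the sequence of ordered pairs `x` (a loop counts twice) -/
def dg (x : I → V × V) (v : V) : ℕ :=
  ∑ i, ((if (x i).1 = v then 1 else 0) + (if (x i).2 = v then 1 else 0))

/-- exchangeable weight -/
noncomputable def wt (a : V → ℝ) (x : I → V × V) : ℝ := ∏ v, rise (a v) (dg x v)

theorem wt_nonneg {a : V → ℝ} (ha : ∀ v, 0 ≤ a v) (x : I → V × V) : 0 ≤ wt a x :=
  prod_nonneg fun v _ => rise_nonneg (ha v) _

omit [Fintype V] in
theorem dg_sum (x : I ⊕ J → V × V) (v : V) :
    dg x v = dg (x ∘ Sum.inl) v + dg (x ∘ Sum.inr) v := by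
  simp [dg, Fintype.sum_sum_type]

theorem wt_sum (a : V → ℝ) (x : I ⊕ J → V × V) :
    wt a x = wt a (x ∘ Sum.inl) * wt (fun v => a v + dg (x ∘ Sum.inl) v) (x ∘ Sum.inr) := by
  simp only [wt, ← prod_mul_distrib]
  apply prod_congr rfl
  intro v _
  rw [dg_sum, rise_add]

omit [Fintype V] in
theorem dg_comp_equiv (e : I ≃ J) (x : J → V × V) (v : V) : dg (x ∘ e) v = dg x v := by
  simp only [dg]
  exact Fintype.sum_equiv e _ _ (fun i => rfl)

theorem wt_comp_equiv (a : V → ℝ) (e : I ≃ J) (x : J → V × V) : wt a (x ∘ e) = wt a x := by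
  simp only [wt, dg_comp_equiv]

theorem sum_dg (x : I → V × V) : ∑ v, dg x v = 2 * Fintype.card I := by
  simp only [dg]
  rw [sum_comm]
  simp [sum_add_distrib, mul_comm]

theorem sum_wt (a : V → ℝ) [DecidableEq I] :
    ∑ x : I → V × V, wt a x = rise (∑ v, a v) (2 * Fintype.card I) := by
  have h := sum_word' (I := I ⊕ I) a
  rw [Fintype.card_sum, ← two_mul] at h
  rw [← h]
  apply Fintype.sum_equiv
    ((Equiv.arrowProdEquivProdArrow I (fun _ => V) (fun _ => V)).trans
      (Equiv.sumArrowEquivProdArrow I I V).symm)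
  intro x
  simp only [wt]
  apply prod_congr rfl
  intro v _
  congr 1
  simp only [dg, occ, Fintype.sum_sum_type, sum_add_distrib]
  rfl

/-- Marginals: fixing the entries with labels in the range of `f`. -/
theorem sum_wt_marg [DecidableEq I] [DecidableEq J] (a : V → ℝ) (f : J → I)
    (hf : Function.Injective f) (p : J → V × V) :
    ∑ x : I → V × V, (if ∀ j, x (f j) = p j then wt a x else 0)
      = wt a p * rise (∑ v, a v + 2 * Fintype.card J) (2 * (Fintype.card I - Fintype.card J)) := by
  classical
  let e : J ⊕ {i // i ∉ Set.range f} ≃ I :=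
    (Equiv.sumCongr (Equiv.ofInjective f hf) (Equiv.refl _)).trans (Equiv.Set.sumCompl (Set.range f))
  have he : ∀ j, e (Sum.inl j) = f j := by
    intro j
    show (Equiv.Set.sumCompl (Set.range f)) (Sum.inl (Equiv.ofInjective f hf j)) = f j
    rw [Equiv.Set.sumCompl_apply_inl]
    rfl
  have hcard : Fintype.card {i // i ∉ Set.range f} = Fintype.card I - Fintype.card J := by
    have := Fintype.card_congr e
    rw [Fintype.card_sum] at this
    omega
  -- reindex
  have h1 : ∑ x : I → V × V, (if ∀ j, x (f j) = p j then wt a x else 0)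
      = ∑ yz : (J → V × V) × ({i // i ∉ Set.range f} → V × V),
          (if yz.1 = p then wt a yz.1 * wt (fun v => a v + dg yz.1 v) yz.2 else 0) := by
    apply Fintype.sum_equiv
      ((Equiv.arrowCongr e.symm (Equiv.refl (V × V))).trans
        (Equiv.sumArrowEquivProdArrow J {i // i ∉ Set.range f} (V × V)))
    intro x
    have hx1 : (((Equiv.arrowCongr e.symm (Equiv.refl (V × V))).trans
        (Equiv.sumArrowEquivProdArrow J {i // i ∉ Set.range f} (V × V))) x).1 = (x ∘ e) ∘ Sum.inl := by
      rfl
    have hx2 : (((Equiv.arrowCongr e.symm (Equiv.refl (V × V))).trans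
        (Equiv.sumArrowEquivProdArrow J {i // i ∉ Set.range f} (V × V))) x).2 = (x ∘ e) ∘ Sum.inr := by
      rfl
    rw [hx1, hx2]
    have hc : (∀ j, x (f j) = p j) ↔ (x ∘ e) ∘ Sum.inl = p := by
      constructor
      · intro h
        funext j
        simp [he, h]
      · intro h j
        have := congrFun h j
        simpa [he] using this
    by_cases h : ∀ j, x (f j) = p j
    · rw [if_pos h, if_pos (hc.1 h), ← wt_sum, wt_comp_equiv]
    · rw [if_neg h, if_neg (fun h' => h (hc.2 h'))]
  rw [h1, Fintype.sum_prod_type]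
  rw [sum_eq_single p]
  · simp only [if_true]
    rw [← mul_sum, sum_wt, hcard]
    congr 2
    rw [sum_add_distrib]
    congr 1
    have := sum_dg p
    exact_mod_cast this
  · intro y _ hy
    simp [hy]
  · intro h
    exact absurd (mem_univ p) h

end pairs

end PA2a
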