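import Pool.Agent.Lib.MP_2a260c_pr.LogR

/-! Comparison of the expected component counts of two models. -/

namespace PA2a

open Finset Real

theorem q_nonneg {α : ℝ} (hα : 0 < α) (n m k e : ℕ) : 0 ≤ q α n m k e := by
  unfold q
  have h1 : 0 ≤ rise ((n - k : ℕ) * α) (2 * (m - e)) := rise_nonneg (by positivity) _
  have h2 : 0 ≤ rise (n * α) (2 * m) := rise_nonneg (by positivity) _
  positivity

theorem q_chain {α : ℝ} (hα : 0 < α) (B : ℕ → ℝ) {n m k e : ℕ} (hk : 1 ≤ k) (x : ℕ)
    (hxn : x + k + 1 ≤ n) (hxm : x + e ≤ m)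
    (hB : ∀ y < x, log (R α (n - y) (m - y)) - log (R α (n - y - k) (m - y - e)) ≤ B y) :
    q α n m k e ≤ exp (∑ y ∈ range x, B y) * q α (n - x) (m - x) k e := by
  induction x with
  | zero => simp
  | succ x ih =>
    have h1 := ih (by omega) (by omega) (fun y hy => hB y (by omega))
    have h2 := q_step hα (n := n - x) (m := m - x) hk (by omega) (by omega : e < m - x)
    have hR1 : 0 < R α (n - x) (m - x) := R_pos hα (by omega) (by omega)
    have hR2 : 0 < R α (n - x - k) (m - x - e) := R_pos hα (by omega) (by omega)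
    have h3 : q α (n - x) (m - x) k e ≤ exp (B x) * q α (n - (x + 1)) (m - (x + 1)) k e := by
      have e1 : n - x - 1 = n - (x + 1) := by omega
      have e2 : m - x - 1 = m - (x + 1) := by omega
      rw [e1, e2] at h2
      have h4 : R α (n - x) (m - x) ≤ exp (B x) * R α (n - x - k) (m - x - e) := by
        rw [← exp_log hR1, ← exp_log hR2, ← exp_add]
        apply exp_le_exp.2
        linarith [hB x (by omega)]
      have hq := q_nonneg hα (n - (x + 1)) (m - (x + 1)) k e
      have h5 : q α (n - x) (m - x) k e * R α (n - x - k) (m - x - e)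
          ≤ (exp (B x) * q α (n - (x + 1)) (m - (x + 1)) k e) * R α (n - x - k) (m - x - e) := by
        rw [h2]
        calc R α (n - x) (m - x) * q α (n - (x + 1)) (m - (x + 1)) k e
            ≤ (exp (B x) * R α (n - x - k) (m - x - e)) * q α (n - (x + 1)) (m - (x + 1)) k e :=
              mul_le_mul_of_nonneg_right h4 hq
          _ = _ := by ring
      exact le_of_mul_le_mul_right h5 hR2
    rw [sum_range_succ, exp_add]
    calc q α n m k e ≤ exp (∑ y ∈ range x, B y) * q α (n - x) (m - x) k e := h1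
      _ ≤ exp (∑ y ∈ range x, B y) * (exp (B x) * q α (n - (x + 1)) (m - (x + 1)) k e) :=
          mul_le_mul_of_nonneg_left h3 (exp_pos _).le
      _ = _ := by ring

theorem ell_diff {α r s s' : ℝ} (hα : 0 < α) (hr : 0 < r) (hr2 : r ≤ 1 / 2) (h1 : 1 - r ≤ s')
    (h2 : s' ≤ s) (h3 : s ≤ 1 + r) :
    ell α s - ell α s' ≤
      -((α + 1) / (α + 2) / 2) * ((s - 1) ^ 2 - (s' - 1) ^ 2) + 4 * r ^ 2 * (s - s') := by
  set b : ℝ := (α + 1) / (α + 2) with hb
  have key : AntitoneOn (fun t => ell α t + b / 2 * (t - 1) ^ 2 - 4 * r ^ 2 * t) (Set.Icc (1 - r) (1 + r)) := by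
    have hd : ∀ t ∈ Set.Icc (1 - r) (1 + r), HasDerivAt
        (fun t => ell α t + b / 2 * (t - 1) ^ 2 - 4 * r ^ 2 * t)
        (1 / t - (α + 2) * (1 / (α + 1 + t)) + b * (t - 1) - 4 * r ^ 2) t := by
      intro t ht
      have htp : 0 < t := by linarith [ht.1]
      have d1 : HasDerivAt (fun t => log t) (1 / t) t := by
        simpa using Real.hasDerivAt_log htp.ne'
      have d2 : HasDerivAt (fun t => log (α + 1 + t)) (1 / (α + 1 + t)) t := by
        have hne : α + 1 + t ≠ 0 := by positivity
        exact ((hasDerivAt_id' t).const_add (α + 1)).log hne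
      have d3 : HasDerivAt (fun t => b / 2 * (t - 1) ^ 2) (b * (t - 1)) t := by
        have := (((hasDerivAt_id' t).sub_const 1).pow 2).const_mul (b / 2)
        refine this.congr_deriv ?_
        simp only [Nat.cast_ofNat, Nat.add_one_sub_one, pow_one, mul_one]
        ring
      have d4 : HasDerivAt (fun t => 4 * r ^ 2 * t) (4 * r ^ 2) t := by
        simpa using (hasDerivAt_id t).const_mul (4 * r ^ 2)
      exact ((d1.sub (d2.const_mul (α + 2))).add d3).sub d4
    apply antitoneOn_of_deriv_nonpos (convex_Icc _ _)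
    · exact fun t ht => (hd t ht).continuousAt.continuousWithinAt
    · exact fun t ht => (hd t (interior_subset ht)).differentiableAt.differentiableWithinAt
    · intro t ht
      have ht' := interior_subset ht
      rw [(hd t ht').deriv]
      have htp : 1 / 2 ≤ t := by linarith [ht'.1]
      have htp0 : 0 < t := by linarith
      have e1 : 1 / t - (α + 2) * (1 / (α + 1 + t)) + b * (t - 1)
          = (α + 1) * (1 - t) ^ 2 * (α + 2 + t) / (t * (α + 1 + t) * (α + 2)) := by
        rw [hb]
        have : α + 1 + t ≠ 0 := by positivity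
        field_simp
        ring
      have hsq : (1 - t) ^ 2 ≤ r ^ 2 := by
        apply sq_le_sq'
        · linarith [ht'.2]
        · linarith [ht'.1]
      have e2 : (α + 1) * (1 - t) ^ 2 * (α + 2 + t) / (t * (α + 1 + t) * (α + 2)) ≤ 4 * (1 - t) ^ 2 := by
        rw [div_le_iff₀ (by positivity)]
        have h0 : 0 ≤ (1 - t) ^ 2 := sq_nonneg _
        have h1 : (α + 1) * (α + 2 + t) ≤ 4 * (t * (α + 1 + t) * (α + 2)) := by
          nlinarith [mul_pos hα htp0, mul_pos hα hα, mul_nonneg hα.le (sub_nonneg.2 htp),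
            mul_nonneg (mul_nonneg hα.le hα.le) (sub_nonneg.2 htp),
            mul_nonneg (mul_nonneg hα.le htp0.le) (sub_nonneg.2 htp),
            mul_nonneg htp0.le (sub_nonneg.2 htp)]
        calc (α + 1) * (1 - t) ^ 2 * (α + 2 + t) = (1 - t) ^ 2 * ((α + 1) * (α + 2 + t)) := by ring
          _ ≤ (1 - t) ^ 2 * (4 * (t * (α + 1 + t) * (α + 2))) := mul_le_mul_of_nonneg_left h1 h0
          _ = _ := by ring
      linarith
  have := key ⟨h1, by linarith⟩ ⟨by linarith, h3⟩ h2
  simp only at this
  nlinarith [this]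

end PA2a
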