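import Pool.Agent.Lib.MP_2a260c_pr.Ratio

/-! Comparison of the expected component counts of two models: the quantitative estimate. -/

namespace PA2a

open Finset Real

theorem step_aux {c a C1 C2 C3 C4 C6 N M y k e ε : ℝ} (hc : 0 < c) (hc2 : c < 1 / 2)
    (ha : a = (1 - c) / c) (hC1 : C1 = 12 * a + 2 / c) (hC2 : C2 = 3 * a + C1)
    (hC3 : C3 = 8 + 4 * C2) (hC4 : C4 = 4 / c) (hC6 : C6 = C3 * (2 * C2 + 2 * C4) + 2 * C1 + C3 * C4)
    (hε : 0 < ε) (hε1 : ε ≤ 1 / 8) (hε2 : C3 * ε ≤ 1 / 2)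
    (hN : 1 ≤ ε ^ 3 * N) (hM : |M - c * N * (1 + ε)| ≤ 1) (hy : 0 ≤ y) (hy2 : y ≤ 2 * ε * N)
    (hk : 4 ≤ k) (hk2 : k ≤ 2 * ε * N) (he : k - 1 ≤ e) (he2 : e ≤ 2 * k) :
    ∃ u D : ℝ, (M - y) / (c * (N - y)) = 1 + u ∧ (M - y - e) / (c * (N - y - k)) = 1 + u - D ∧
      |u| ≤ C2 * ε ∧ 0 ≤ D ∧ D ≤ 2 * ((e - c * k) / (c * N)) ∧ (e - c * k) / (c * N) ≤ C4 * ε ∧
      (1 - c) / (2 * c) * (k / N) ≤ (e - c * k) / (c * N) ∧
      (e - c * k) / (c * N) * (2 * (ε - a * y / N) - (e - c * k) / (c * N))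
        - C6 * ε ^ 2 * ((e - c * k) / (c * N)) ≤ D * (2 * u - D) := by
  have hNp : 0 < N := by
    by_contra h
    push Not at h
    have : ε ^ 3 * N ≤ 0 := mul_nonpos_of_nonneg_of_nonpos (by positivity) h
    linarith
  have ha1 : 1 ≤ a := by
    rw [ha, le_div_iff₀ hc]
    linarith
  have hC1p : 0 < C1 := by rw [hC1]; positivity
  have hC2p : 0 < C2 := by rw [hC2]; positivity
  have hC3p : 0 < C3 := by rw [hC3]; positivity
  have hC4p : 0 < C4 := by rw [hC4]; positivity
  have hεN : 2 * ε * N ≤ 1 / 4 * N := mul_le_mul_of_nonneg_right (by linarith) hNp.le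
  have hy3 : y ≤ N / 4 := by linarith
  have hk3 : k ≤ N / 4 := by linarith
  have haε : ε ≤ a * ε := le_mul_of_one_le_left hε.le ha1
  have hNy : 0 < N - y := by linarith
  have hNyk : 0 < N - y - k := by linarith
  have hNy2 : N / 2 ≤ N - y := by linarith
  have hNyk2 : N / 2 ≤ N - y - k := by linarith
  set Δ : ℝ := (e - c * k) / (c * N) with hΔ
  set w : ℝ := ε - a * y / N with hw
  set ρ : ℝ := M - c * N * (1 + ε) with hρ
  set u : ℝ := (M - y) / (c * (N - y)) - 1 with hu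
  set D : ℝ := (e - c * k - c * k * u) / (c * (N - y - k)) with hD
  have hyN : y / N ≤ 2 * ε := by
    rw [div_le_iff₀ hNp]
    exact hy2
  have hyN0 : 0 ≤ y / N := by positivity
  have hw1 : |w| ≤ 3 * a * ε := by
    rw [abs_le, hw, mul_div_assoc]
    constructor
    · have : a * (y / N) ≤ a * (2 * ε) := mul_le_mul_of_nonneg_left hyN (by linarith)
      linarith
    · have : 0 ≤ a * (y / N) := mul_nonneg (by linarith) hyN0
      linarith
  have huw : u - w = (c * w * y + ρ) / (c * (N - y)) := by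
    rw [hu, hw, hρ, ha]
    field_simp
    ring
  have huw2 : |u - w| ≤ C1 * ε ^ 2 := by
    rw [huw, abs_div, abs_of_pos (mul_pos hc hNy), div_le_iff₀ (mul_pos hc hNy)]
    have h1 : |c * w * y + ρ| ≤ c * (3 * a * ε) * (2 * ε * N) + 1 := by
      calc |c * w * y + ρ| ≤ |c * w * y| + |ρ| := abs_add_le _ _
        _ = c * |w| * y + |ρ| := by rw [abs_mul, abs_mul, abs_of_pos hc, abs_of_nonneg hy]
        _ ≤ c * (3 * a * ε) * (2 * ε * N) + 1 := by
            apply add_le_add _ hM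
            apply mul_le_mul _ hy2 hy (by positivity)
            exact mul_le_mul_of_nonneg_left hw1 hc.le
    have h2 : c * (3 * a * ε) * (2 * ε * N) + 1 ≤ C1 * ε ^ 2 * (c * (N / 2)) := by
      have e1 : C1 * ε ^ 2 * (c * (N / 2)) = c * (3 * a * ε) * (2 * ε * N) + ε ^ 2 * N := by
        rw [hC1]
        field_simp
        ring
      rw [e1]
      have : ε ^ 3 * N ≤ ε ^ 2 * N := by
        apply mul_le_mul_of_nonneg_right _ hNp.le
        apply pow_le_pow_of_le_one hε.le (by linarith) (by norm_num)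
      linarith
    have h3 : C1 * ε ^ 2 * (c * (N / 2)) ≤ C1 * ε ^ 2 * (c * (N - y)) := by
      apply mul_le_mul_of_nonneg_left _ (by positivity)
      exact mul_le_mul_of_nonneg_left hNy2 hc.le
    linarith
  have hε' : ε ^ 2 ≤ ε := by
    rw [sq]
    exact mul_le_of_le_one_left hε.le (by linarith)
  have hu1 : |u| ≤ C2 * ε := by
    have : |u| ≤ |w| + |u - w| := by
      have := abs_add_le w (u - w)
      rwa [add_sub_cancel] at this
    have h1 : C1 * ε ^ 2 ≤ C1 * ε := mul_le_mul_of_nonneg_left hε' hC1p.le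
    have h2 : C2 * ε = 3 * a * ε + C1 * ε := by
      rw [hC2]
      ring
    linarith
  -- Δ
  have hΔk : (1 - c) / (2 * c) * (k / N) ≤ Δ := by
    rw [hΔ, div_mul_div_comm, div_le_div_iff₀ (by positivity) (by positivity)]
    have h0 : c * k ≤ 1 / 2 * k := mul_le_mul_of_nonneg_right hc2.le (by linarith)
    have : (1 - c) * k ≤ 2 * (e - c * k) := by linarith
    have h2 : 0 < c * N := by positivity
    calc (1 - c) * k * (c * N) ≤ 2 * (e - c * k) * (c * N) := mul_le_mul_of_nonneg_right this h2.le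
      _ = (e - c * k) * (2 * c * N) := by ring
  have hkN : k / N ≤ 2 * Δ := by
    have h1 : 1 / 2 ≤ (1 - c) / (2 * c) := by
      rw [div_le_div_iff₀ (by norm_num) (by positivity)]
      linarith
    have h2 : 0 ≤ k / N := by positivity
    have h3 : 1 / 2 * (k / N) ≤ (1 - c) / (2 * c) * (k / N) := mul_le_mul_of_nonneg_right h1 h2
    linarith
  have hΔ0 : 0 < Δ := by
    have : 0 < k / N := by positivity
    linarith
  have hΔ1 : Δ ≤ C4 * ε := by
    rw [hΔ, div_le_iff₀ (by positivity), hC4]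
    have : 4 / c * ε * (c * N) = 4 * ε * N := by
      field_simp
    rw [this]
    have h6 : 0 ≤ c * k := by positivity
    linarith
  have hDΔ : D - Δ = Δ * ((y + k) / (N - y - k)) - k * u / (N - y - k) := by
    rw [hD, hΔ]
    field_simp
    ring
  have hDΔ2 : |D - Δ| ≤ C3 * ε * Δ := by
    rw [hDΔ]
    have h1 : (y + k) / (N - y - k) ≤ 8 * ε := by
      rw [div_le_iff₀ hNyk]
      have h7 : 8 * ε * (N / 2) ≤ 8 * ε * (N - y - k) :=
        mul_le_mul_of_nonneg_left hNyk2 (by positivity)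
      linarith
    have h1' : 0 ≤ (y + k) / (N - y - k) := by positivity
    have h2 : |k * u / (N - y - k)| ≤ 2 * (k / N) * (C2 * ε) := by
      rw [abs_div, abs_of_pos hNyk, abs_mul, abs_of_pos (by linarith : 0 < k), div_le_iff₀ hNyk]
      have h3 : k * |u| ≤ k * (C2 * ε) := mul_le_mul_of_nonneg_left hu1 (by linarith)
      have h4 : 2 * (k / N) * (C2 * ε) * (N / 2) = k * (C2 * ε) := by
        field_simp
      have h5 : 2 * (k / N) * (C2 * ε) * (N / 2) ≤ 2 * (k / N) * (C2 * ε) * (N - y - k) := by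
        apply mul_le_mul_of_nonneg_left hNyk2
        positivity
      linarith
    calc |Δ * ((y + k) / (N - y - k)) - k * u / (N - y - k)|
        ≤ |Δ * ((y + k) / (N - y - k))| + |k * u / (N - y - k)| := abs_sub _ _
      _ ≤ Δ * (8 * ε) + 2 * (2 * Δ) * (C2 * ε) := by
          apply add_le_add
          · rw [abs_of_nonneg (mul_nonneg hΔ0.le h1')]
            exact mul_le_mul_of_nonneg_left h1 hΔ0.le
          · apply h2.trans
            apply mul_le_mul_of_nonneg_right _ (by positivity)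
            linarith
      _ = C3 * ε * Δ := by
          rw [hC3]
          ring
  have hDu := abs_le.1 hDΔ2
  have hD1 : C3 * ε * Δ ≤ 1 / 2 * Δ := mul_le_mul_of_nonneg_right hε2 hΔ0.le
  have hD0 : 0 ≤ D := by linarith
  have hD2 : D ≤ 2 * Δ := by linarith
  refine ⟨u, D, by rw [hu]; ring, ?_, hu1, hD0, hD2, hΔ1, hΔk, ?_⟩
  · have hs : M - y = c * (N - y) * (1 + u) := by
      rw [hu]
      field_simp
      ring
    rw [hs, hD]
    field_simp
    ring
  · have e1 : D * (2 * u - D) = Δ * (2 * w - Δ) + (D - Δ) * (2 * u - D)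
        + Δ * (2 * (u - w)) - Δ * (D - Δ) := by ring
    rw [e1]
    have t1 : |(D - Δ) * (2 * u - D)| ≤ C3 * ε * Δ * ((2 * C2 + 2 * C4) * ε) := by
      rw [abs_mul]
      apply mul_le_mul hDΔ2 _ (abs_nonneg _) (by positivity)
      calc |2 * u - D| ≤ |2 * u| + |D| := abs_sub _ _
        _ = 2 * |u| + D := by rw [abs_mul, abs_of_nonneg hD0]; norm_num
        _ ≤ 2 * (C2 * ε) + 2 * (C4 * ε) := by linarith
        _ = (2 * C2 + 2 * C4) * ε := by ring
    have t2 : |Δ * (2 * (u - w))| ≤ Δ * (2 * (C1 * ε ^ 2)) := by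
      rw [abs_mul, abs_of_pos hΔ0, abs_mul]
      apply mul_le_mul_of_nonneg_left _ hΔ0.le
      rw [abs_of_pos (by norm_num : (0 : ℝ) < 2)]
      linarith
    have t3 : |Δ * (D - Δ)| ≤ C4 * ε * (C3 * ε * Δ) := by
      rw [abs_mul, abs_of_pos hΔ0]
      apply mul_le_mul hΔ1 hDΔ2 (abs_nonneg _) (by positivity)
    have g1 := (abs_le.1 t1).1
    have g2 := (abs_le.1 t2).1
    have g3 := (abs_le.1 t3).2
    have e2 : C6 * ε ^ 2 * Δ = C3 * ε * Δ * ((2 * C2 + 2 * C4) * ε) + Δ * (2 * (C1 * ε ^ 2))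
        + C4 * ε * (C3 * ε * Δ) := by
      rw [hC6]
      ring
    linarith

end PA2a
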