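import Pool.Agent.Lib.MP_2a260c_pr.Susc
import Pool.Agent.Lib.MP_2a260c_pr.Graph
import Pool.Agent.Lib.MP_2a260c_pr.LogR

/-! Second moment: at most one large component. -/

namespace PA2a

open Finset

theorem E_one_le {α : ℝ} (hα : 0 < α) (n m : ℕ) : E α n m (fun _ => 1) ≤ 1 := by
  unfold E
  simp only [mul_one]
  rw [sum_wt]
  simp only [sum_const, card_univ, Fintype.card_fin, nsmul_eq_mul]
  unfold Z
  exact div_self_le_one _

theorem q_nonneg' {α : ℝ} (hα : 0 < α) (n m k e : ℕ) : 0 ≤ q α n m k e := by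
  unfold q
  have h1 : 0 ≤ rise ((n - k : ℕ) * α) (2 * (m - e)) := rise_nonneg (by positivity) _
  have h2 : 0 ≤ rise (n * α) (2 * m) := rise_nonneg (by positivity) _
  positivity

theorem sec_mom {α δ : ℝ} (hα : 0 < α) (hδ : 0 < δ) {n m κ : ℕ} (hκ : 0 < κ)
    (h : (m : ℝ) + 1 - (1 - δ) * cc α * n - κ * (1 - cc α) ≤ 0)
    (hτ : (n : ℝ) / (δ * κ ^ 2) ≤ 1) :
    E α n m (fun x => (cnt κ x : ℝ)) ≤ 2 ∧
      E α n m (fun x => (cnt κ x : ℝ) * ((cnt κ x : ℝ) - 1)) ≤ 2 * (n / (δ * κ ^ 2)) := by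
  have hc := cc_pos hα
  have hc2 := cc_lt hα
  set τ : ℝ := (n : ℝ) / (δ * κ ^ 2) with hτdef
  have hτ0 : 0 ≤ τ := by positivity
  have h1 : E α n m (fun x => (cnt κ x : ℝ) * ((cnt κ x : ℝ) - 1))
      ≤ τ * E α n m (fun x => (cnt κ x : ℝ)) := by
    rw [E_cnt_pair hα, E_cnt, mul_sum]
    apply sum_le_sum
    intro p hp
    simp only [mem_product, mem_Icc, mem_range] at hp
    rcases le_or_gt p.1 (p.2 + 1) with h2 | h2
    · have h3 : E α (n - p.1) (m - p.2) (fun x => (cnt κ x : ℝ)) ≤ τ := by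
        refine (E_cnt_le hα hδ hκ ?_).trans ?_
        · rw [Nat.cast_sub (by omega), Nat.cast_sub (by omega)]
          have h4 : (p.1 : ℝ) ≤ p.2 + 1 := by exact_mod_cast h2
          have h5 : (κ : ℝ) ≤ p.1 := by exact_mod_cast hp.1.1
          have h6 : (κ : ℝ) * (1 - cc α) ≤ p.1 * (1 - cc α) :=
            mul_le_mul_of_nonneg_right h5 (by linarith)
          have h7 : 0 ≤ δ * cc α * p.1 := by positivity
          linarith
        · apply div_le_div_of_nonneg_right _ (by positivity)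
          exact_mod_cast Nat.sub_le _ _
      have h4 : 0 ≤ q α n m p.1 p.2 * cn α p.1 p.2 :=
        mul_nonneg (q_nonneg' hα _ _ _ _) (cn_nonneg hα.le _ _)
      calc q α n m p.1 p.2 * cn α p.1 p.2 * E α (n - p.1) (m - p.2) (fun x => (cnt κ x : ℝ))
          ≤ q α n m p.1 p.2 * cn α p.1 p.2 * τ := mul_le_mul_of_nonneg_left h3 h4
        _ = _ := by ring
    · rw [cn_eq_zero (Or.inl h2)]
      simp
  have hX0 : 0 ≤ E α n m (fun x => (cnt κ x : ℝ)) := by
    rw [E_cnt]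
    apply sum_nonneg
    intro p _
    exact mul_nonneg (q_nonneg' hα _ _ _ _) (cn_nonneg hα.le _ _)
  have h2 : E α n m (fun x => (cnt κ x : ℝ))
      ≤ E α n m (fun _ => 1) + 1 / 2 * E α n m (fun x => (cnt κ x : ℝ) * ((cnt κ x : ℝ) - 1)) := by
    unfold E
    rw [mul_div_assoc', ← add_div]
    apply div_le_div_of_nonneg_right _ (rise_nonneg (by positivity) _)
    rw [mul_sum, ← sum_add_distrib]
    apply sum_le_sum
    intro x _
    have hw : 0 ≤ wt (fun _ => α) x := wt_nonneg (fun _ => hα.le) x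
    have h3 : (cnt κ x : ℝ) ≤ 1 + 1 / 2 * ((cnt κ x : ℝ) * ((cnt κ x : ℝ) - 1)) := by
      have : ∀ t : ℕ, (t : ℝ) ≤ 1 + 1 / 2 * ((t : ℝ) * ((t : ℝ) - 1)) := by
        intro t
        rcases Nat.lt_or_ge t 2 with ht | ht
        · interval_cases t <;> norm_num
        · have : (2 : ℝ) ≤ t := by exact_mod_cast ht
          nlinarith
      exact this _
    calc wt (fun _ => α) x * (cnt κ x : ℝ)
        ≤ wt (fun _ => α) x * (1 + 1 / 2 * ((cnt κ x : ℝ) * ((cnt κ x : ℝ) - 1))) :=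
          mul_le_mul_of_nonneg_left h3 hw
      _ = _ := by ring
  have h3 := E_one_le hα n m
  have h4 : τ * E α n m (fun x => (cnt κ x : ℝ)) ≤ 1 * E α n m (fun x => (cnt κ x : ℝ)) :=
    mul_le_mul_of_nonneg_right hτ hX0
  have h5 : E α n m (fun x => (cnt κ x : ℝ)) ≤ 2 := by linarith
  refine ⟨h5, h1.trans ?_⟩
  have h6 : τ * E α n m (fun x => (cnt κ x : ℝ)) ≤ τ * 2 := mul_le_mul_of_nonneg_left h5 hτ0
  linarith

end PA2a
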