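import Pool.Agent.Lib.MP_2a260c_pr.Model

/-! Susceptibility bound (path counting). -/

namespace PA2a

open Finset

namespace Susc

section comb

variable {V I : Type*} [Fintype V] [DecidableEq V] [Fintype I] [DecidableEq I]

/-- an ordered pair or its reverse -/
def ori (b : Bool) (p : V × V) : V × V := if b then p else p.swap

/-- `(vs, is, b)` is a path with `j` edges in the multigraph `x`. -/
def PathIn (x : I → V × V) (j : ℕ) (t : (Fin (j + 1) → V) × (Fin j → I) × (Fin j → Bool)) :
    Prop :=
  Function.Injective t.1 ∧ Function.Injective t.2.1 ∧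
    ∀ l : Fin j, x (t.2.1 l) = ori (t.2.2 l) (t.1 l.castSucc, t.1 l.succ)

omit [Fintype V] [Fintype I] [DecidableEq I] in
theorem comp_eq {x : I → V × V} {S S' : Finset V} (h : IsComp x S) (h' : IsComp x S') {v : V}
    (hv : v ∈ S) (hv' : v ∈ S') : S = S' := by
  have hc : Closed x (S ∩ S') := fun i => by
    rw [mem_inter, mem_inter, h.2.1 i, h'.2.1 i]
  have hne : (S ∩ S').Nonempty := ⟨v, mem_inter.2 ⟨hv, hv'⟩⟩
  rw [← h.2.2 _ inter_subset_left hne hc]
  exact h'.2.2 _ inter_subset_right hne hc

omit [Fintype I] [DecidableEq I] in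
theorem exists_path {x : I → V × V} {S : Finset V} (h : IsComp x S) {v w : V} (hv : v ∈ S)
    (hw : w ∈ S) : ∃ j < Fintype.card V, ∃ t : (Fin (j + 1) → V) × (Fin j → I) × (Fin j → Bool),
      PathIn x j t ∧ t.1 0 = v ∧ t.1 (Fin.last j) = w := by
  classical
  have hreach : ∀ i, (gr x).Reachable v (x i).1 ↔ (gr x).Reachable v (x i).2 := by
    intro i
    by_cases hi : (x i).1 = (x i).2
    · rw [hi]
    · have hadj : (gr x).Adj (x i).1 (x i).2 := by
        rw [gr, SimpleGraph.fromRel_adj]
        exact ⟨hi, Or.inl ⟨i, rfl⟩⟩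
      exact ⟨fun h => h.trans hadj.reachable, fun h => h.trans hadj.symm.reachable⟩
  have hT := h.2.2 (S.filter fun u => (gr x).Reachable v u) (filter_subset _ _)
    ⟨v, mem_filter.2 ⟨hv, SimpleGraph.Reachable.refl v⟩⟩ (fun i => by
      rw [mem_filter, mem_filter, h.2.1 i, hreach i])
  rw [← hT] at hw
  obtain ⟨q⟩ := (mem_filter.1 hw).2
  let p := q.toPath
  have hp : p.1.IsPath := p.2
  have hinj := hp.getVert_injOn
  have hlab : ∀ l : Fin p.1.length, ∃ (i : I) (b : Bool),
      x i = ori b (p.1.getVert l, p.1.getVert (l + 1)) := by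
    intro l
    have hadj := (SimpleGraph.fromRel_adj _ _ _).1 (p.1.adj_getVert_succ l.2)
    rcases hadj.2 with ⟨i, hi⟩ | ⟨i, hi⟩
    · exact ⟨i, true, by simp [ori, hi]⟩
    · exact ⟨i, false, by simp [ori, hi]⟩
  choose lab b hlab using hlab
  refine ⟨p.1.length, hp.length_lt, ⟨fun l => p.1.getVert l, lab, b⟩, ⟨?_, ?_, ?_⟩, ?_, ?_⟩
  · intro l l' hl
    exact Fin.ext (hinj (by have := l.2; simp only [Set.mem_ofPred_eq]; omega)
      (by have := l'.2; simp only [Set.mem_ofPred_eq]; omega) hl)
  · intro l l' hl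
    have e1 := hlab l
    have e2 := hlab l'
    simp only at hl
    rw [hl, e2] at e1
    have hl1 := l.2
    have hl2 := l'.2
    have inj' : ∀ a c : ℕ, a ≤ p.1.length → c ≤ p.1.length → p.1.getVert a = p.1.getVert c →
        a = c := fun a c ha hc h => hinj (by simpa using ha) (by simpa using hc) h
    cases hb : b l <;> cases hb' : b l' <;> rw [hb, hb'] at e1 <;>
      simp only [ori, Bool.false_eq_true, if_false, if_true, Prod.swap_prod_mk,
        Prod.mk.injEq] at e1
    · have := inj' _ _ (by omega) (by omega) e1.2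
      exact Fin.ext this.symm
    · have a1 := inj' _ _ (by omega) (by omega) e1.1
      have a2 := inj' _ _ (by omega) (by omega) e1.2
      omega
    · have a1 := inj' _ _ (by omega) (by omega) e1.1
      have a2 := inj' _ _ (by omega) (by omega) e1.2
      omega
    · have := inj' _ _ (by omega) (by omega) e1.1
      exact Fin.ext this.symm
  · intro l
    simp only [Fin.val_castSucc, Fin.val_succ]
    exact hlab l
  · simp
  · simp

omit [DecidableEq I] in
open Classical in
theorem cnt_le_paths (x : I → V × V) (κ : ℕ) :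
    κ ^ 2 * cnt κ x ≤ ∑ j ∈ range (Fintype.card V),
      #{t : (Fin (j + 1) → V) × (Fin j → I) × (Fin j → Bool) | PathIn x j t} := by
  let R : Finset (V × V) := univ.filter fun q => ∃ S, IsComp x S ∧ q.1 ∈ S ∧ q.2 ∈ S
  have h1 : κ ^ 2 * cnt κ x ≤ #R := by
    let C : Finset (Finset V) := univ.filter fun S => IsComp x S ∧ κ ≤ #S
    have hsub : C.biUnion (fun S => S ×ˢ S) ⊆ R := by
      intro q hq
      rw [mem_biUnion] at hq
      obtain ⟨S, hS, hq⟩ := hq
      rw [mem_product] at hq
      simp only [C, mem_filter, mem_univ, true_and] at hS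
      simp only [R, mem_filter, mem_univ, true_and]
      exact ⟨S, hS.1, hq⟩
    have hdis : (C : Set (Finset V)).PairwiseDisjoint fun S => S ×ˢ S := by
      intro S hS S' hS' hne
      rw [Function.onFun, disjoint_left]
      intro q hq hq'
      rw [mem_product] at hq hq'
      simp only [C, coe_filter, mem_univ, true_and, Set.mem_ofPred_eq] at hS hS'
      exact hne (comp_eq hS.1 hS'.1 hq.1 hq'.1)
    have h2 := card_le_card hsub
    rw [card_biUnion hdis] at h2
    refine le_trans ?_ h2
    have h3 : cnt κ x = #C := rfl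
    rw [h3, mul_comm, ← smul_eq_mul]
    refine card_nsmul_le_sum _ _ _ fun S hS => ?_
    simp only [C, mem_filter, mem_univ, true_and] at hS
    rw [card_product, sq]
    exact Nat.mul_le_mul hS.2 hS.2
  refine h1.trans ?_
  have h2 : R ⊆ (range (Fintype.card V)).biUnion fun j =>
      (univ.filter fun t : (Fin (j + 1) → V) × (Fin j → I) × (Fin j → Bool) =>
        PathIn x j t).image fun t => (t.1 0, t.1 (Fin.last j)) := by
    rintro ⟨v, w⟩ hq
    simp only [R, mem_filter, mem_univ, true_and] at hq
    obtain ⟨S, hS, hv, hw⟩ := hq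
    obtain ⟨j, hj, t, ht, h0, hl⟩ := exists_path hS hv hw
    rw [mem_biUnion]
    refine ⟨j, mem_range.2 hj, mem_image.2 ⟨t, by simp [ht], ?_⟩⟩
    rw [h0, hl]
  refine (card_le_card h2).trans (card_biUnion_le.trans ?_)
  exact sum_le_sum fun j _ => card_image_le

theorem wt_path {α : ℝ} (hα : 0 < α) {j : ℕ} {vs : Fin (j + 1) → V}
    (hvs : Function.Injective vs) (b : Fin j → Bool) :
    wt (fun _ => α) (fun l : Fin j => ori (b l) (vs l.castSucc, vs l.succ)) ≤
      (α * (α + 1)) ^ j := by
  classical
  set p : Fin j → V × V := fun l : Fin j => ori (b l) (vs l.castSucc, vs l.succ) with hp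
  have hdg : ∀ v, dg p v = ∑ l : Fin j, ((if vs l.castSucc = v then 1 else 0) +
      (if vs l.succ = v then 1 else 0)) := by
    intro v
    simp only [dg, hp]
    refine sum_congr rfl fun l _ => ?_
    cases b l
    · simp only [ori, Bool.false_eq_true, if_false, Prod.swap_prod_mk]
      rw [add_comm]
    · simp only [ori, if_true]
  have h1 : wt (fun _ => α) p = ∏ l : Fin (j + 1), rise α (dg p (vs l)) := by
    unfold wt
    rw [← prod_image (s := univ) (g := vs) (f := fun v => rise α (dg p v))
      (fun a _ b _ h => hvs h)]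
    symm
    apply prod_subset (subset_univ _)
    intro v _ hv
    have hv' : ∀ l, vs l ≠ v := fun l h => hv (mem_image.2 ⟨l, mem_univ _, h⟩)
    rw [hdg]
    simp [hv', rise_zero]
  rw [h1]
  have h2 : ∀ l : Fin (j + 1), dg p (vs l) =
      (if l = 0 then 0 else 1) + (if l = Fin.last j then 0 else 1) := by
    intro l
    rw [hdg]
    simp only [hvs.eq_iff]
    rw [sum_add_distrib]
    have e1 : ∑ i : Fin j, (if i.castSucc = l then 1 else 0) =
        if l = Fin.last j then 0 else 1 := by
      by_cases hl : l = Fin.last j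
      · rw [if_pos hl]
        refine sum_eq_zero fun i _ => ?_
        rw [if_neg]
        rw [hl]
        exact (Fin.castSucc_lt_last i).ne
      · rw [if_neg hl]
        obtain ⟨i, rfl⟩ := Fin.exists_castSucc_eq.2 hl
        simp
    have e2 : ∑ i : Fin j, (if i.succ = l then 1 else 0) = if l = 0 then 0 else 1 := by
      by_cases hl : l = 0
      · rw [if_pos hl]
        refine sum_eq_zero fun i _ => ?_
        rw [if_neg]
        rw [hl]
        exact Fin.succ_ne_zero i
      · rw [if_neg hl]
        obtain ⟨i, rfl⟩ := Fin.exists_succ_eq.2 hl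
        simp
    rw [e1, e2, add_comm]
  simp only [h2]
  cases j with
  | zero =>
    simp [rise_zero]
  | succ j =>
    rw [Fin.prod_univ_succ, Fin.prod_univ_castSucc]
    have e0 : rise α ((if (0 : Fin (j + 2)) = 0 then 0 else 1) +
        (if (0 : Fin (j + 2)) = Fin.last (j + 1) then 0 else 1)) = α := by
      have : (0 : Fin (j + 2)) ≠ Fin.last (j + 1) := by
        intro h
        have := congrArg Fin.val h
        simp at this
      rw [if_pos rfl, if_neg this, zero_add, rise_one]
    have e1 : rise α ((if (Fin.last j).succ = 0 then 0 else 1) +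
        (if (Fin.last j).succ = Fin.last (j + 1) then 0 else 1)) = α := by
      rw [if_neg (Fin.succ_ne_zero _), if_pos (Fin.succ_last j), add_zero, rise_one]
    have e2 : ∀ i : Fin j, rise α ((if i.castSucc.succ = 0 then 0 else 1) +
        (if i.castSucc.succ = Fin.last (j + 1) then 0 else 1)) = α * (α + 1) := by
      intro i
      have : i.castSucc.succ ≠ Fin.last (j + 1) := by
        rw [← Fin.succ_last]
        intro h
        exact (Fin.castSucc_lt_last i).ne (Fin.succ_injective _ h)
      rw [if_neg (Fin.succ_ne_zero _), if_neg this, rise_two]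
    rw [e0, e1, prod_congr rfl fun i _ => e2 i, prod_const, card_univ, Fintype.card_fin, pow_succ]
    have : 0 ≤ (α * (α + 1)) ^ j := by positivity
    nlinarith

end comb

theorem rise_ge {a : ℝ} (ha : 0 ≤ a) (j : ℕ) : a ^ j ≤ rise a j := by
  unfold rise
  rw [← Finset.card_range j, ← prod_const, Finset.card_range]
  refine prod_le_prod (fun _ _ => ha) fun i _ => ?_
  have : (0:ℝ) ≤ i := Nat.cast_nonneg i
  linarith

end Susc

open Susc in
open Classical in
theorem E_cnt_le {α δ : ℝ} (hα : 0 < α) (hδ : 0 < δ) {n m κ : ℕ} (hκ : 0 < κ)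
    (h : (m : ℝ) ≤ (1 - δ) * cc α * n) :
    E α n m (fun x => (cnt κ x : ℝ)) ≤ n / (δ * κ ^ 2) := by
  have hcc : 0 < cc α := by unfold cc; positivity
  rcases Nat.eq_zero_or_pos n with hn | hn
  · subst hn
    have hc : ∀ x : Fin m → Fin 0 × Fin 0, cnt κ x = 0 := by
      intro x
      unfold cnt
      rw [card_eq_zero, filter_eq_empty_iff]
      rintro S - ⟨⟨⟨v, _⟩, _⟩, _⟩
      exact v.elim0
    simp [E, hc]
  have hn' : (0:ℝ) < n := by exact_mod_cast hn
  have hZ : 0 < Z α n m := rise_pos (by positivity) _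
  set r : ℝ := 2 * m * (α + 1) / (n * α) with hr
  have hr0 : 0 ≤ r := by positivity
  have hr1 : r ≤ 1 - δ := by
    rw [hr, div_le_iff₀ (by positivity)]
    have : (m : ℝ) * (2 * (α + 1)) ≤ (1 - δ) * cc α * n * (2 * (α + 1)) :=
      mul_le_mul_of_nonneg_right h (by positivity)
    have e : (1 - δ) * cc α * n * (2 * (α + 1)) = (1 - δ) * (n * α) := by
      unfold cc
      field_simp
    linarith
  -- sum over paths of length j
  have hj : ∀ j : ℕ, ∑ x : Fin m → Fin n × Fin n, wt (fun _ => α) x *
      (#{t : (Fin (j + 1) → Fin n) × (Fin j → Fin m) × (Fin j → Bool) | PathIn x j t} : ℝ) ≤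
      Z α n m * (n * r ^ j) := by
    intro j
    have e1 : ∀ x : Fin m → Fin n × Fin n, wt (fun _ => α) x *
      (#{t : (Fin (j + 1) → Fin n) × (Fin j → Fin m) × (Fin j → Bool) | PathIn x j t} : ℝ) =
      ∑ t : (Fin (j + 1) → Fin n) × (Fin j → Fin m) × (Fin j → Bool),
        if PathIn x j t then wt (fun _ => α) x else 0 := by
      intro x
      rw [← sum_filter, sum_const, nsmul_eq_mul, mul_comm]
    simp only [e1]
    rw [sum_comm]
    have e2 : ∀ t : (Fin (j + 1) → Fin n) × (Fin j → Fin m) × (Fin j → Bool),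
        ∑ x : Fin m → Fin n × Fin n, (if PathIn x j t then wt (fun _ => α) x else 0) ≤
          (α * (α + 1)) ^ j * (Z α n m / (n * α) ^ (2 * j)) := by
      rintro ⟨vs, is, b⟩
      have hR : 0 ≤ (α * (α + 1)) ^ j * (Z α n m / (n * α) ^ (2 * j)) := by positivity
      by_cases hinj : Function.Injective vs ∧ Function.Injective is
      · have hjm : j ≤ m := by
          have := Fintype.card_le_of_injective is hinj.2
          simpa using this
        have e3 := sum_wt_marg (fun _ : Fin n => α) is hinj.2
          (fun l : Fin j => ori (b l) (vs l.castSucc, vs l.succ))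
        have e4 : ∑ x : Fin m → Fin n × Fin n,
            (if PathIn x j (vs, is, b) then wt (fun _ => α) x else 0) =
            (wt (fun _ => α) fun l => ori (b l) (vs l.castSucc, vs l.succ)) *
              rise ((∑ _v : Fin n, α) + 2 * ↑(Fintype.card (Fin j)))
                (2 * (Fintype.card (Fin m) - Fintype.card (Fin j))) := by
          refine Eq.trans ?_ e3
          refine sum_congr rfl fun x _ => ?_
          by_cases hh : ∀ l, x (is l) = ori (b l) (vs l.castSucc, vs l.succ)
          · rw [if_pos hh, if_pos (show PathIn x j (vs, is, b) from ⟨hinj.1, hinj.2, hh⟩)]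
          · rw [if_neg hh, if_neg (fun h' : PathIn x j (vs, is, b) => hh h'.2.2)]
        rw [e4]
        simp only [sum_const, card_univ, Fintype.card_fin, nsmul_eq_mul]
        have e5 : Z α n m = rise (n * α) (2 * j) * rise (n * α + 2 * j) (2 * (m - j)) := by
          have : 2 * m = 2 * j + 2 * (m - j) := by omega
          unfold Z
          rw [this, rise_add]
          push_cast
          congr 2
        have hA : (n * α : ℝ) ^ (2 * j) ≤ rise (n * α) (2 * j) := rise_ge (by positivity) _
        have hB : 0 ≤ rise (n * α + 2 * j : ℝ) (2 * (m - j)) := rise_nonneg (by positivity) _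
        have hC : rise (n * α + 2 * j : ℝ) (2 * (m - j)) ≤ Z α n m / (n * α) ^ (2 * j) := by
          rw [le_div_iff₀ (by positivity), e5]
          rw [mul_comm]
          exact mul_le_mul_of_nonneg_right hA hB
        exact mul_le_mul (wt_path hα hinj.1 b) hC hB (by positivity)
      · have : ∀ x : Fin m → Fin n × Fin n, ¬ PathIn x j (vs, is, b) := fun x hx =>
          hinj ⟨hx.1, hx.2.1⟩
        simp only [this, if_false, sum_const_zero]
        exact hR
    refine (sum_le_sum fun t _ => e2 t).trans ?_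
    rw [sum_const, card_univ, nsmul_eq_mul]
    have e6 : (Fintype.card ((Fin (j + 1) → Fin n) × (Fin j → Fin m) × (Fin j → Bool)) : ℝ) =
        n ^ (j + 1) * (m ^ j * 2 ^ j) := by
      simp [Fintype.card_prod]
    rw [e6]
    apply le_of_eq
    rw [hr, div_pow, mul_pow, mul_pow, mul_pow, pow_succ, mul_pow]
    have hna : (n : ℝ) * α ≠ 0 := by positivity
    field_simp
    ring
  have hsum : ∑ x : Fin m → Fin n × Fin n, wt (fun _ => α) x * ((κ : ℝ) ^ 2 * (cnt κ x : ℝ)) ≤
      Z α n m * (n / δ) := by
    have s1 : ∑ x : Fin m → Fin n × Fin n, wt (fun _ => α) x * ((κ : ℝ) ^ 2 * (cnt κ x : ℝ)) ≤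
        ∑ x : Fin m → Fin n × Fin n, ∑ j ∈ range n, wt (fun _ => α) x *
      (#{t : (Fin (j + 1) → Fin n) × (Fin j → Fin m) × (Fin j → Bool) | PathIn x j t} : ℝ) := by
      refine sum_le_sum fun x _ => ?_
      rw [← mul_sum]
      refine mul_le_mul_of_nonneg_left ?_ (wt_nonneg (fun _ => hα.le) x)
      have := cnt_le_paths x κ
      rw [Fintype.card_fin] at this
      exact_mod_cast this
    refine s1.trans ?_
    rw [sum_comm]
    refine (sum_le_sum fun j _ => hj j).trans ?_
    rw [← mul_sum, ← mul_sum]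
    refine mul_le_mul_of_nonneg_left ?_ hZ.le
    rw [div_eq_mul_inv]
    refine mul_le_mul_of_nonneg_left ?_ hn'.le
    have hr1' : r < 1 := by linarith
    have g := Summable.sum_le_tsum (range n) (fun j _ => pow_nonneg hr0 j)
      (summable_geometric_of_lt_one hr0 hr1')
    rw [tsum_geometric_of_lt_one hr0 hr1'] at g
    refine g.trans ?_
    exact inv_anti₀ hδ (by linarith)
  unfold E
  rw [div_le_div_iff₀ hZ (by positivity)]
  have hs2 : ∑ x : Fin m → Fin n × Fin n, wt (fun _ => α) x * ((κ : ℝ) ^ 2 * (cnt κ x : ℝ)) =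
      (κ : ℝ) ^ 2 * ∑ x : Fin m → Fin n × Fin n, wt (fun _ => α) x * (cnt κ x : ℝ) := by
    rw [mul_sum]
    exact sum_congr rfl fun x _ => by ring
  rw [hs2] at hsum
  calc (∑ x : Fin m → Fin n × Fin n, wt (fun _ => α) x * (cnt κ x : ℝ)) * (δ * κ ^ 2)
      = δ * ((κ : ℝ) ^ 2 * ∑ x : Fin m → Fin n × Fin n, wt (fun _ => α) x * (cnt κ x : ℝ)) := by
        ring
    _ ≤ δ * (Z α n m * (n / δ)) := by gcongr
    _ = n * Z α n m := by field_simp

end PA2a
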