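import Pool.Agent.Lib.MP_2a260c_pr.Model
import Pool.Agent.Lib.MP_2a260c_pr.Defs

/-! Comparison of the real process with the exchangeable model. -/

namespace PA2a

open Finset
open scoped ENNReal

namespace Tr

open Classical in
/-- real pair weight -/
noncomputable def pw {n : ℕ} (α : ℝ) (G : SimpleGraph (Fin n)) (p : Fin n × Fin n) : ℝ :=
  if p.1 ≠ p.2 ∧ ¬ G.Adj p.1 p.2 then (degree G p.1 + α) * (degree G p.2 + α) else 0

/-- total pair weight -/
noncomputable def N2 {n : ℕ} (α : ℝ) (G : SimpleGraph (Fin n)) : ℝ := ∑ p, pw α G p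

/-- real probabilities of the process -/
noncomputable def P {n : ℕ} (α : ℝ) (m : ℕ) (G : SimpleGraph (Fin n)) : ℝ := (law α n m G).toReal

variable {n : ℕ} {α : ℝ}

theorem pw_nonneg (hα : 0 < α) (G : SimpleGraph (Fin n)) (p : Fin n × Fin n) : 0 ≤ pw α G p := by
  unfold pw
  split_ifs
  · positivity
  · exact le_rfl

theorem pairWeight_eq (G : SimpleGraph (Fin n)) (p : Fin n × Fin n) :
    pairWeight α G p = ENNReal.ofReal (pw α G p) := by
  unfold pairWeight pw
  split_ifs <;> simp

theorem tsum_pairWeight (hα : 0 < α) (G : SimpleGraph (Fin n)) :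
    ∑' p, pairWeight α G p = ENNReal.ofReal (N2 α G) := by
  rw [tsum_fintype, N2, ENNReal.ofReal_sum_of_nonneg (fun p _ => pw_nonneg hα G p)]
  exact sum_congr rfl fun p _ => pairWeight_eq G p

theorem N2_nonneg (hα : 0 < α) (G : SimpleGraph (Fin n)) : 0 ≤ N2 α G :=
  sum_nonneg fun p _ => pw_nonneg hα G p

open Classical in
theorem step_toReal (hα : 0 < α) {G : SimpleGraph (Fin n)} (h : 0 < N2 α G)
    (H : SimpleGraph (Fin n)) :
    (step α G H).toReal
      = ∑ p : Fin n × Fin n, if H = G ⊔ SimpleGraph.edge p.1 p.2 then pw α G p / N2 α G else 0 := by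
  have h0 : ∑' p, pairWeight α G p ≠ 0 := by
    rw [tsum_pairWeight hα]
    exact (ENNReal.ofReal_pos.2 h).ne'
  rw [step, dif_pos h0, PMF.map_apply, tsum_fintype, ENNReal.toReal_sum]
  · apply sum_congr rfl
    intro p _
    by_cases hp : H = G ⊔ SimpleGraph.edge p.1 p.2
    · rw [if_pos hp, if_pos hp, PMF.normalize_apply, tsum_pairWeight hα, pairWeight_eq,
        ENNReal.toReal_mul, ENNReal.toReal_inv, ENNReal.toReal_ofReal (pw_nonneg hα G p),
        ENNReal.toReal_ofReal h.le, div_eq_mul_inv]
    · rw [if_neg hp, if_neg hp]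
      rfl
  · intro p _
    split_ifs
    · exact PMF.apply_ne_top _ _
    · exact ENNReal.zero_ne_top

theorem P_zero (G : SimpleGraph (Fin n)) [Decidable (G = ⊥)] :
    P α 0 G = if G = ⊥ then 1 else 0 := by
  unfold P law
  rw [PMF.pure_apply]
  split_ifs <;> simp

theorem P_succ (m : ℕ) (H : SimpleGraph (Fin n)) :
    P α (m + 1) H = ∑ G, P α m G * (step α G H).toReal := by
  unfold P
  rw [law, PMF.bind_apply, tsum_fintype, ENNReal.toReal_sum]
  · apply sum_congr rfl
    intro G _
    rw [ENNReal.toReal_mul]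
  · intro G _
    exact ENNReal.mul_ne_top (PMF.apply_ne_top _ _) (PMF.apply_ne_top _ _)

theorem P_nonneg (m : ℕ) (G : SimpleGraph (Fin n)) : 0 ≤ P α m G := ENNReal.toReal_nonneg

theorem sum_P (m : ℕ) : ∑ G : SimpleGraph (Fin n), P α m G = 1 := by
  unfold P
  rw [← ENNReal.toReal_sum (fun G _ => PMF.apply_ne_top _ _)]
  have := (law α n m).tsum_coe
  rw [tsum_fintype] at this
  rw [this]
  rfl

open Classical in
theorem outer_eq (m : ℕ) (Bad : Set (SimpleGraph (Fin n))) :
    ((law α n m).toOuterMeasure Bad).toReal = ∑ G, if G ∈ Bad then P α m G else 0 := by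
  rw [PMF.toOuterMeasure_apply, tsum_fintype, ENNReal.toReal_sum]
  · apply sum_congr rfl
    intro G _
    by_cases h : G ∈ Bad
    · rw [Set.indicator_of_mem h, if_pos h]; rfl
    · rw [Set.indicator_of_notMem h, if_neg h]; rfl
  · intro G _
    by_cases h : G ∈ Bad
    · rw [Set.indicator_of_mem h]; exact PMF.apply_ne_top _ _
    · rw [Set.indicator_of_notMem h]; exact ENNReal.zero_ne_top

/-! ### degrees -/

open Classical in
theorem degree_eq (G : SimpleGraph (Fin n)) (v : Fin n) : degree G v = #{w | G.Adj v w} := by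
  unfold degree
  rw [Set.ncard_eq_toFinset_card']
  congr 1
  ext w
  simp

theorem degree_bot (v : Fin n) : degree (⊥ : SimpleGraph (Fin n)) v = 0 := by
  classical
  rw [degree_eq]
  simp

theorem degree_add_edge (G : SimpleGraph (Fin n)) {u v : Fin n} (huv : u ≠ v) (h : ¬ G.Adj u v)
    (w : Fin n) :
    degree (G ⊔ SimpleGraph.edge u v) w
      = degree G w + ((if u = w then 1 else 0) + (if v = w then 1 else 0)) := by
  unfold degree
  have hvu : ¬ G.Adj v u := fun h' => h h'.symm
  by_cases hu : u = w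
  · subst hu
    rw [if_pos rfl, if_neg huv.symm]
    have : (G ⊔ SimpleGraph.edge u v).neighborSet u = insert v (G.neighborSet u) := by
      ext x
      simp only [SimpleGraph.mem_neighborSet, SimpleGraph.sup_adj, SimpleGraph.edge_adj,
        Set.mem_insert_iff]
      constructor
      · rintro (h1 | ⟨h1, h3⟩)
        · exact Or.inr h1
        · rcases h1 with h1 | h1
          · exact Or.inl h1.2
          · exact absurd h1.1 huv
      · rintro (h1 | h1)
        · subst h1
          exact Or.inr ⟨by simp, huv⟩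
        · exact Or.inl h1
    rw [this, Set.ncard_insert_of_notMem (by simpa using h) (Set.toFinite _)]
  · rw [if_neg hu]
    by_cases hv : v = w
    · subst hv
      rw [if_pos rfl]
      have : (G ⊔ SimpleGraph.edge u v).neighborSet v = insert u (G.neighborSet v) := by
        ext x
        simp only [SimpleGraph.mem_neighborSet, SimpleGraph.sup_adj, SimpleGraph.edge_adj,
          Set.mem_insert_iff]
        constructor
        · rintro (h1 | ⟨h1, h3⟩)
          · exact Or.inr h1
          · rcases h1 with h1 | h1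
            · exact absurd h1.1.symm huv
            · exact Or.inl h1.2
        · rintro (h1 | h1)
          · subst h1
            exact Or.inr ⟨by simp, huv.symm⟩
          · exact Or.inl h1
      rw [this, Set.ncard_insert_of_notMem (by simpa using hvu) (Set.toFinite _)]
    · rw [if_neg hv]
      have : (G ⊔ SimpleGraph.edge u v).neighborSet w = G.neighborSet w := by
        ext x
        simp only [SimpleGraph.mem_neighborSet, SimpleGraph.sup_adj, SimpleGraph.edge_adj]
        constructor
        · rintro (h1 | ⟨h1, h3⟩)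
          · exact h1
          · rcases h1 with h1 | h1
            · exact absurd h1.1.symm hu
            · exact absurd h1.1.symm hv
        · intro h1
          exact Or.inl h1
      rw [this]
      simp

/-- sum of the degrees -/
noncomputable def sd (G : SimpleGraph (Fin n)) : ℕ := ∑ v, degree G v

theorem sd_add_edge (G : SimpleGraph (Fin n)) {u v : Fin n} (huv : u ≠ v) (h : ¬ G.Adj u v) :
    sd (G ⊔ SimpleGraph.edge u v) = sd G + 2 := by
  unfold sd
  simp only [degree_add_edge G huv h, sum_add_distrib]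
  simp

theorem two_degree_le (G : SimpleGraph (Fin n)) (v : Fin n) : 2 * degree G v ≤ sd G := by
  classical
  unfold sd
  rw [← add_sum_erase univ _ (mem_univ v), two_mul]
  apply Nat.add_le_add_left
  have h1 : degree G v = ∑ w ∈ univ.erase v, if G.Adj v w then 1 else 0 := by
    rw [degree_eq, card_filter, ← add_sum_erase univ _ (mem_univ v)]
    simp
  rw [h1]
  apply sum_le_sum
  intro w _
  split_ifs with h
  · rw [degree_eq]
    apply card_pos.2
    exact ⟨v, by simpa using h.symm⟩
  · exact Nat.zero_le _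

/-- Lower bound for the total pair weight. -/
theorem N2_lower (hα : 0 < α) (G : SimpleGraph (Fin n)) (hn : 4 ≤ n) (hs : sd G ≤ n) :
    (n * α + sd G) * (α * (n / 4)) ≤ N2 α G := by
  classical
  unfold N2
  rw [Fintype.sum_prod_type]
  have h1 : (n * α + sd G) * (α * (n / 4)) = ∑ u : Fin n, (degree G u + α) * (α * (n / 4)) := by
    rw [← sum_mul, sum_add_distrib]
    simp [sd]
    left
    ring
  rw [h1]
  apply sum_le_sum
  intro u _
  have h2 : ∑ v, pw α G (u, v)
      = (degree G u + α) * ∑ v, (if u ≠ v ∧ ¬ G.Adj u v then (degree G v + α) else 0) := by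
    rw [mul_sum]
    apply sum_congr rfl
    intro v _
    unfold pw
    simp only
    split_ifs <;> simp
  rw [h2]
  apply mul_le_mul_of_nonneg_left _ (by positivity)
  have h3 : ∑ v, (if u ≠ v ∧ ¬ G.Adj u v then (α : ℝ) else 0)
      ≤ ∑ v, (if u ≠ v ∧ ¬ G.Adj u v then (degree G v + α) else 0) := by
    apply sum_le_sum
    intro v _
    split_ifs
    · have : (0:ℝ) ≤ degree G v := by positivity
      linarith
    · exact le_rfl
  refine le_trans ?_ h3
  rw [← sum_filter, sum_const, nsmul_eq_mul, mul_comm α]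
  apply mul_le_mul_of_nonneg_right _ hα.le
  have h4 : n ≤ 1 + degree G u + #{v | u ≠ v ∧ ¬ G.Adj u v} := by
    rw [degree_eq]
    have : (univ : Finset (Fin n)) ⊆ ({u} ∪ (univ.filter fun w => G.Adj u w))
        ∪ (univ.filter fun v => u ≠ v ∧ ¬ G.Adj u v) := by
      intro v _
      simp only [mem_union, mem_singleton, mem_filter, mem_univ, true_and]
      by_cases h : v = u
      · exact Or.inl (Or.inl h)
      · by_cases h' : G.Adj u v
        · exact Or.inl (Or.inr h')
        · exact Or.inr ⟨fun h'' => h h''.symm, h'⟩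
    have h5 := card_le_card this
    rw [card_univ, Fintype.card_fin] at h5
    refine h5.trans ?_
    refine (card_union_le _ _).trans ?_
    apply Nat.add_le_add_right
    refine (card_union_le _ _).trans ?_
    rw [card_singleton]
  have h6 := two_degree_le G u
  have h7 : 2 * n ≤ 2 + n + 2 * #{v | u ≠ v ∧ ¬ G.Adj u v} := by omega
  have h8 : (2 * n : ℝ) ≤ 2 + n + 2 * #{v | u ≠ v ∧ ¬ G.Adj u v} := by exact_mod_cast h7
  have h9 : (4 : ℝ) ≤ n := by exact_mod_cast hn
  linarith

theorem S_pos (hα : 0 < α) (hn : 4 ≤ n) (G : SimpleGraph (Fin n)) :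
    0 < (n * α + sd G) * (α * (n / 4)) := by
  have : (0 : ℝ) < n := by exact_mod_cast (by omega : 0 < n)
  positivity

theorem N2_pos (hα : 0 < α) (G : SimpleGraph (Fin n)) (hn : 4 ≤ n) (hs : sd G ≤ n) :
    0 < N2 α G := (S_pos hα hn G).trans_le (N2_lower hα G hn hs)

theorem pw_ne_zero {G : SimpleGraph (Fin n)} {p : Fin n × Fin n} (h : pw α G p ≠ 0) :
    p.1 ≠ p.2 ∧ ¬ G.Adj p.1 p.2 := by
  by_contra h'
  apply h
  unfold pw
  rw [if_neg h']

/-- The process after `m` steps has `m` edges. -/
theorem sd_eq (hα : 0 < α) (hn : 4 ≤ n) (m : ℕ) (hm : 2 * m ≤ n + 2) (G : SimpleGraph (Fin n))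
    (hG : P α m G ≠ 0) : sd G = 2 * m := by
  classical
  induction m generalizing G with
  | zero =>
    rw [P_zero] at hG
    have : G = ⊥ := by
      by_contra h
      exact hG (if_neg h)
    subst this
    simp [sd, degree_bot]
  | succ m ih =>
    rw [P_succ] at hG
    obtain ⟨G', _, hG'⟩ := exists_ne_zero_of_sum_ne_zero hG
    have h1 := ih (by omega) G' (left_ne_zero_of_mul hG')
    have h2 : 0 < N2 α G' := N2_pos hα G' hn (by omega)
    have h3 := right_ne_zero_of_mul hG'
    rw [step_toReal hα h2] at h3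
    obtain ⟨p, _, hp⟩ := exists_ne_zero_of_sum_ne_zero h3
    have h4 : G = G' ⊔ SimpleGraph.edge p.1 p.2 := by
      by_contra h
      exact hp (if_neg h)
    rw [if_pos h4] at hp
    have h5 : pw α G' p ≠ 0 := by
      intro h
      rw [h, zero_div] at hp
      exact hp rfl
    have h6 := pw_ne_zero h5
    rw [h4, sd_add_edge G' h6.1 h6.2, h1]
    ring

/-- expectations after one more step -/
theorem E_succ (hα : 0 < α) (hn : 4 ≤ n) (m : ℕ) (hm : 2 * m ≤ n) (f : SimpleGraph (Fin n) → ℝ) :
    ∑ H, P α (m + 1) H * f H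
      = ∑ G, P α m G * ∑ p : Fin n × Fin n, pw α G p / N2 α G * f (G ⊔ SimpleGraph.edge p.1 p.2) := by
  classical
  simp only [P_succ, sum_mul]
  rw [sum_comm]
  apply sum_congr rfl
  intro G _
  by_cases hG : P α m G = 0
  · simp [hG]
  · have h1 := sd_eq hα hn m (by omega) G hG
    have h2 : 0 < N2 α G := N2_pos hα G hn (by omega)
    simp only [step_toReal hα h2, mul_assoc]
    rw [← mul_sum]
    congr 1
    simp only [sum_mul]
    rw [sum_comm]
    apply sum_congr rfl
    intro p _
    rw [sum_eq_single (G ⊔ SimpleGraph.edge p.1 p.2)]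
    · rw [if_pos rfl]
    · intro H _ hH
      rw [if_neg hH, zero_mul]
    · intro h
      exact absurd (mem_univ _) h

/-- cubic statistic -/
noncomputable def g (α : ℝ) (d : ℕ) : ℝ := (d + α) * (d + α + 1) * (d + α + 2)

/-- cubic degree sum -/
noncomputable def Phi (α : ℝ) (G : SimpleGraph (Fin n)) : ℝ := ∑ v, g α (degree G v)

theorem g_nonneg (hα : 0 < α) (d : ℕ) : 0 ≤ g α d := by
  unfold g
  positivity

theorem Phi_nonneg (hα : 0 < α) (G : SimpleGraph (Fin n)) : 0 ≤ Phi α G :=
  sum_nonneg fun v _ => g_nonneg hα _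

theorem g_succ (d : ℕ) : g α (d + 1) = g α d + 3 * (d + α + 1) * (d + α + 2) := by
  unfold g
  push_cast
  ring

theorem Phi_add_edge (G : SimpleGraph (Fin n)) {u v : Fin n} (huv : u ≠ v) (h : ¬ G.Adj u v) :
    Phi α (G ⊔ SimpleGraph.edge u v) = Phi α G
      + (3 * (degree G u + α + 1) * (degree G u + α + 2)
        + 3 * (degree G v + α + 1) * (degree G v + α + 2)) := by
  classical
  unfold Phi
  have h1 : ∀ w, g α (degree (G ⊔ SimpleGraph.edge u v) w) = g α (degree G w)
      + ((if u = w then 3 * (degree G w + α + 1) * (degree G w + α + 2) else 0)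
      + (if v = w then 3 * (degree G w + α + 1) * (degree G w + α + 2) else 0)) := by
    intro w
    rw [degree_add_edge G huv h w]
    by_cases hu : u = w
    · subst hu
      rw [if_pos rfl, if_pos rfl, if_neg huv.symm, if_neg huv.symm]
      rw [add_zero, add_zero, g_succ]
    · rw [if_neg hu, if_neg hu]
      by_cases hv : v = w
      · subst hv
        rw [if_pos rfl, if_pos rfl]
        rw [zero_add, zero_add, g_succ]
      · rw [if_neg hv, if_neg hv]
        simp
  simp only [h1, sum_add_distrib]
  simp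

theorem sum_deg_add (G : SimpleGraph (Fin n)) :
    ∑ v, ((degree G v : ℝ) + α) = n * α + sd G := by
  rw [sum_add_distrib]
  simp [sd]
  ring

theorem pw_le (hα : 0 < α) (G : SimpleGraph (Fin n)) (p : Fin n × Fin n) :
    pw α G p ≤ (degree G p.1 + α) * (degree G p.2 + α) := by
  unfold pw
  split_ifs
  · exact le_rfl
  · positivity

theorem growth (hα : 0 < α) (hn : 4 ≤ n) (G : SimpleGraph (Fin n)) (hs : sd G ≤ n) :
    ∑ p : Fin n × Fin n, pw α G p / N2 α G * Phi α (G ⊔ SimpleGraph.edge p.1 p.2)
      ≤ Phi α G * (1 + 24 / (α * n)) := by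
  classical
  have hN := N2_pos hα G hn hs
  have hn0 : (0 : ℝ) < n := by exact_mod_cast (by omega : 0 < n)
  have h1 : ∀ p : Fin n × Fin n, pw α G p / N2 α G * Phi α (G ⊔ SimpleGraph.edge p.1 p.2)
      ≤ pw α G p / N2 α G * Phi α G
        + (3 * (g α (degree G p.1) * (degree G p.2 + α)) + 3 * ((degree G p.1 + α) * g α (degree G p.2)))
          / N2 α G := by
    intro p
    by_cases hp : pw α G p = 0
    · rw [hp]
      have := g_nonneg hα (degree G p.1)
      have := g_nonneg hα (degree G p.2)
      simp only [zero_div, zero_mul, zero_add]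
      positivity
    · have h2 := pw_ne_zero hp
      rw [Phi_add_edge G h2.1 h2.2, mul_add]
      apply add_le_add le_rfl
      rw [div_mul_eq_mul_div]
      apply div_le_div_of_nonneg_right _ hN.le
      have h3 : pw α G p = (degree G p.1 + α) * (degree G p.2 + α) := by
        unfold pw
        rw [if_pos h2]
      rw [h3]
      apply le_of_eq
      unfold g
      ring
  refine (sum_le_sum fun p _ => h1 p).trans ?_
  rw [sum_add_distrib, ← sum_mul, ← sum_div, ← sum_div]
  have h4 : ∑ p : Fin n × Fin n, pw α G p = N2 α G := rfl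
  rw [h4, div_self hN.ne', one_mul]
  have h5 : ∑ p : Fin n × Fin n, (3 * (g α (degree G p.1) * (degree G p.2 + α))
      + 3 * ((degree G p.1 + α) * g α (degree G p.2))) = 6 * Phi α G * (n * α + sd G) := by
    rw [sum_add_distrib, ← mul_sum, ← mul_sum, Fintype.sum_prod_type, Fintype.sum_prod_type]
    simp only
    simp only [← mul_sum, ← sum_mul]
    rw [sum_deg_add]
    unfold Phi
    ring
  rw [h5, mul_add (Phi α G), mul_one]
  apply add_le_add le_rfl
  rw [div_le_iff₀ hN]
  have h6 := N2_lower hα G hn hs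
  have h7 := Phi_nonneg hα G
  calc 6 * Phi α G * (n * α + sd G)
      = Phi α G * (24 / (α * n)) * ((n * α + sd G) * (α * (n / 4))) := by
        field_simp
        ring
    _ ≤ Phi α G * (24 / (α * n)) * N2 α G := by
        apply mul_le_mul_of_nonneg_left h6
        positivity

theorem E_Phi (hα : 0 < α) (hn : 4 ≤ n) (m : ℕ) (hm : 2 * m ≤ n + 2) :
    ∑ G : SimpleGraph (Fin n), P α m G * Phi α G ≤ n * g α 0 * (1 + 24 / (α * n)) ^ m := by
  classical
  have hn0 : (0 : ℝ) < n := by exact_mod_cast (by omega : 0 < n)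
  induction m with
  | zero =>
    rw [sum_eq_single ⊥]
    · rw [P_zero, if_pos rfl, one_mul, pow_zero, mul_one]
      unfold Phi
      simp [degree_bot]
    · intro G _ hG
      rw [P_zero, if_neg hG, zero_mul]
    · intro h
      exact absurd (mem_univ _) h
  | succ m ih =>
    rw [E_succ hα hn m (by omega)]
    calc ∑ G, P α m G * ∑ p : Fin n × Fin n,
            pw α G p / N2 α G * Phi α (G ⊔ SimpleGraph.edge p.1 p.2)
        ≤ ∑ G, P α m G * (Phi α G * (1 + 24 / (α * n))) := by
          apply sum_le_sum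
          intro G _
          by_cases hG : P α m G = 0
          · simp [hG]
          · have h1 := sd_eq hα hn m (by omega) G hG
            exact mul_le_mul_of_nonneg_left (growth hα hn G (by omega)) (P_nonneg m G)
      _ = (∑ G, P α m G * Phi α G) * (1 + 24 / (α * n)) := by
          rw [sum_mul]
          apply sum_congr rfl
          intro G _
          ring
      _ ≤ (n * g α 0 * (1 + 24 / (α * n)) ^ m) * (1 + 24 / (α * n)) := by
          apply mul_le_mul_of_nonneg_right (ih (by omega))
          positivity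
      _ = _ := by ring

theorem E_Phi' (hα : 0 < α) (hn : 4 ≤ n) (m : ℕ) (hm : 2 * m ≤ n) :
    ∑ G : SimpleGraph (Fin n), P α m G * Phi α G ≤ n * (g α 0 * Real.exp (12 / α)) := by
  have hn0 : (0 : ℝ) < n := by exact_mod_cast (by omega : 0 < n)
  refine (E_Phi hα hn m (by omega)).trans ?_
  rw [mul_assoc]
  apply mul_le_mul_of_nonneg_left _ hn0.le
  apply mul_le_mul_of_nonneg_left _ (g_nonneg hα 0)
  have h1 : (1 + 24 / (α * n)) ^ m ≤ Real.exp (24 / (α * n)) ^ m := by
    apply pow_le_pow_left₀ (by positivity)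
    rw [add_comm]
    exact Real.add_one_le_exp _
  refine h1.trans ?_
  rw [← Real.exp_nat_mul]
  apply Real.exp_le_exp.2
  have h2 : (2 * m : ℝ) ≤ n := by exact_mod_cast hm
  rw [← mul_div_assoc, div_le_div_iff₀ (by positivity) hα]
  nlinarith

open Classical in
/-- Markov -/
theorem markov (hα : 0 < α) (hn : 4 ≤ n) (m : ℕ) (hm : 2 * m ≤ n) {K : ℝ} (hK : 0 < K) :
    ∑ G : SimpleGraph (Fin n), (if K * n < Phi α G then P α m G else 0)
      ≤ g α 0 * Real.exp (12 / α) / K := by
  have hn0 : (0 : ℝ) < n := by exact_mod_cast (by omega : 0 < n)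
  rw [le_div_iff₀ hK]
  have h1 : (∑ G : SimpleGraph (Fin n), (if K * n < Phi α G then P α m G else 0)) * (K * n)
      ≤ ∑ G : SimpleGraph (Fin n), P α m G * Phi α G := by
    rw [sum_mul]
    apply sum_le_sum
    intro G _
    split_ifs with h
    · exact mul_le_mul_of_nonneg_left h.le (P_nonneg m G)
    · rw [zero_mul]
      exact mul_nonneg (P_nonneg m G) (Phi_nonneg hα G)
  have h2 := h1.trans (E_Phi' hα hn m hm)
  have h3 : ((∑ G : SimpleGraph (Fin n), (if K * n < Phi α G then P α m G else 0)) * K) * n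
      ≤ (g α 0 * Real.exp (12 / α)) * n := by linarith
  exact le_of_mul_le_mul_right h3 hn0

/-! ### comparison with the exchangeable weights -/

theorem N2_lower' (hα : 0 < α) (G : SimpleGraph (Fin n)) :
    (n * α + sd G) ^ 2 - (1 / α + 1) * Phi α G ≤ N2 α G := by
  classical
  have h1 : ∀ p : Fin n × Fin n, ((degree G p.1 : ℝ) + α) * (degree G p.2 + α)
      - (if p.1 = p.2 then ((degree G p.1 : ℝ) + α) ^ 2 else 0)
      - ((if G.Adj p.1 p.2 then ((degree G p.1 : ℝ) + α) ^ 2 / 2 else 0)
        + (if G.Adj p.1 p.2 then ((degree G p.2 : ℝ) + α) ^ 2 / 2 else 0)) ≤ pw α G p := by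
    intro p
    unfold pw
    by_cases h : p.1 = p.2
    · have hadj : ¬ G.Adj p.1 p.2 := by
        rw [h]
        exact G.irrefl
      have hn : ¬ (p.1 ≠ p.2 ∧ ¬ G.Adj p.1 p.2) := fun h' => h'.1 h
      rw [if_neg hn, if_pos h, if_neg hadj, if_neg hadj, h]
      apply le_of_eq
      ring
    · rw [if_neg h]
      by_cases h' : G.Adj p.1 p.2
      · rw [if_pos h', if_pos h', if_neg (by simp [h'])]
        nlinarith [sq_nonneg (((degree G p.1 : ℝ) + α) - (degree G p.2 + α))]
      · rw [if_neg h', if_neg h', if_pos ⟨h, h'⟩]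
        simp
  refine le_trans ?_ (sum_le_sum fun p _ => h1 p)
  rw [sum_sub_distrib, sum_sub_distrib, sum_add_distrib]
  have h2 : ∑ p : Fin n × Fin n, ((degree G p.1 : ℝ) + α) * (degree G p.2 + α)
      = (n * α + sd G) ^ 2 := by
    rw [Fintype.sum_prod_type]
    simp only [← mul_sum, ← sum_mul]
    rw [sum_deg_add]
    ring
  have h3 : ∑ p : Fin n × Fin n, (if p.1 = p.2 then ((degree G p.1 : ℝ) + α) ^ 2 else 0)
      = ∑ u, ((degree G u : ℝ) + α) ^ 2 := by
    rw [Fintype.sum_prod_type]
    apply sum_congr rfl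
    intro u _
    simp
  have h4 : ∑ p : Fin n × Fin n, (if G.Adj p.1 p.2 then ((degree G p.1 : ℝ) + α) ^ 2 / 2 else 0)
      = ∑ u, degree G u * (((degree G u : ℝ) + α) ^ 2 / 2) := by
    rw [Fintype.sum_prod_type]
    apply sum_congr rfl
    intro u _
    simp only
    rw [← sum_filter, sum_const, nsmul_eq_mul]
    congr 2
    rw [degree_eq]
  have h5 : ∑ p : Fin n × Fin n, (if G.Adj p.1 p.2 then ((degree G p.2 : ℝ) + α) ^ 2 / 2 else 0)
      = ∑ u, degree G u * (((degree G u : ℝ) + α) ^ 2 / 2) := by
    rw [Fintype.sum_prod_type, sum_comm]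
    apply sum_congr rfl
    intro u _
    simp only
    rw [← sum_filter, sum_const, nsmul_eq_mul]
    congr 2
    rw [degree_eq]
    congr 1
    ext w
    simp [G.adj_comm]
  rw [h2, h3, h4, h5]
  have h6 : ∑ u, ((degree G u : ℝ) + α) ^ 2 + (∑ u, degree G u * (((degree G u : ℝ) + α) ^ 2 / 2)
      + ∑ u, degree G u * (((degree G u : ℝ) + α) ^ 2 / 2)) ≤ (1 / α + 1) * Phi α G := by
    unfold Phi
    rw [mul_sum, ← sum_add_distrib, ← sum_add_distrib]
    apply sum_le_sum
    intro u _
    have hd : (0 : ℝ) ≤ degree G u := by positivity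
    set d : ℝ := (degree G u : ℝ) with hdd
    have h7 : (d + α) ^ 2 ≤ 1 / α * g α (degree G u) := by
      unfold g
      rw [← hdd, one_div, inv_mul_eq_div, le_div_iff₀ hα]
      nlinarith [mul_nonneg hd hd, mul_nonneg hd hα.le, mul_nonneg (mul_nonneg hd hα.le) hα.le,
        mul_nonneg (mul_nonneg hd hd) hα.le, mul_nonneg (mul_nonneg hd hd) hd,
        mul_pos hα hα]
    have h8 : d * (d + α) ^ 2 ≤ g α (degree G u) := by
      unfold g
      rw [← hdd]
      nlinarith [mul_nonneg hd hd, mul_nonneg hd hα.le, mul_nonneg (mul_nonneg hd hα.le) hα.le,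
        mul_nonneg (mul_nonneg hd hd) hα.le, mul_nonneg (mul_nonneg hd hd) hd,
        mul_pos hα hα, mul_pos (mul_pos hα hα) hα]
    linarith
  linarith

theorem Phi_le_add (hα : 0 < α) (G : SimpleGraph (Fin n)) {u v : Fin n} (huv : u ≠ v)
    (h : ¬ G.Adj u v) : Phi α G ≤ Phi α (G ⊔ SimpleGraph.edge u v) := by
  rw [Phi_add_edge G huv h]
  have : 0 ≤ (3 * (degree G u + α + 1) * (degree G u + α + 2)
        + 3 * (degree G v + α + 1) * (degree G v + α + 2)) := by positivity
  linarith

open Classical in
/-- total exchangeable weight of a graph -/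
noncomputable def W (α : ℝ) (m : ℕ) (H : SimpleGraph (Fin n)) : ℝ :=
  ∑ x : Fin m → Fin n × Fin n, if gr x = H then wt (fun _ => α) x else 0

theorem W_nonneg (hα : 0 < α) (m : ℕ) (H : SimpleGraph (Fin n)) : 0 ≤ W α m H := by
  unfold W
  apply sum_nonneg
  intro x _
  split_ifs
  · exact wt_nonneg (fun _ => hα.le) x
  · exact le_rfl

theorem degree_gr_le {m : ℕ} (x : Fin m → Fin n × Fin n) (v : Fin n) :
    degree (gr x) v ≤ dg x v := by
  classical
  rw [degree_eq]
  have h1 : (univ.filter fun w => (gr x).Adj v w)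
      ⊆ (univ.filter fun i => (x i).1 = v ∨ (x i).2 = v).image
        (fun i => if (x i).1 = v then (x i).2 else (x i).1) := by
    intro w hw
    rw [mem_filter] at hw
    have hw2 := hw.2
    unfold gr at hw2
    rw [SimpleGraph.fromRel_adj] at hw2
    obtain ⟨hvw, ⟨i, hi⟩ | ⟨i, hi⟩⟩ := hw2
    · rw [mem_image]
      refine ⟨i, by simp [hi], by simp [hi]⟩
    · rw [mem_image]
      refine ⟨i, by simp [hi], ?_⟩
      rw [hi]
      simp only
      rw [if_neg hvw.symm]
  refine (card_le_card ?_).trans ((card_image_le (s := univ.filter fun i => (x i).1 = v ∨ (x i).2 = v)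
    (f := fun i => if (x i).1 = v then (x i).2 else (x i).1)).trans ?_)
  · convert h1
  · rw [card_filter]
    unfold dg
    apply sum_le_sum
    intro i _
    by_cases h2 : (x i).1 = v
    · rw [if_pos (Or.inl h2), if_pos h2]
      omega
    · by_cases h3 : (x i).2 = v
      · rw [if_pos (Or.inr h3), if_pos h3]
        omega
      · rw [if_neg (by tauto)]
        omega

theorem gr_snoc {m : ℕ} (x : Fin m → Fin n × Fin n) (p : Fin n × Fin n) :
    gr (Fin.snoc (α := fun _ => Fin n × Fin n) x p : Fin (m + 1) → Fin n × Fin n)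
      = gr x ⊔ SimpleGraph.edge p.1 p.2 := by
  ext u v
  simp only [gr, SimpleGraph.fromRel_adj, SimpleGraph.sup_adj, SimpleGraph.edge_adj]
  have h1 : ∀ u v : Fin n, (∃ i, (Fin.snoc (α := fun _ => Fin n × Fin n) x p : Fin (m + 1) → Fin n × Fin n) i = (u, v))
      ↔ ((∃ i, x i = (u, v)) ∨ p = (u, v)) := by
    intro u v
    rw [Fin.exists_fin_succ']
    simp
  rw [h1, h1]
  have h2 : ∀ u v : Fin n, p = (u, v) ↔ p.1 = u ∧ p.2 = v := fun u v => Prod.ext_iff
  rw [h2, h2]
  constructor
  · rintro ⟨h, (h3 | h3) | (h3 | h3)⟩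
    · exact Or.inl ⟨h, Or.inl h3⟩
    · exact Or.inr ⟨by tauto, h⟩
    · exact Or.inl ⟨h, Or.inr h3⟩
    · exact Or.inr ⟨by tauto, h⟩
  · rintro (⟨h, h3⟩ | ⟨h3, h⟩)
    · exact ⟨h, by tauto⟩
    · exact ⟨h, by tauto⟩

theorem dg_snoc {m : ℕ} (x : Fin m → Fin n × Fin n) (p : Fin n × Fin n) (v : Fin n) :
    dg (Fin.snoc (α := fun _ => Fin n × Fin n) x p : Fin (m + 1) → Fin n × Fin n) v
      = dg x v + ((if p.1 = v then 1 else 0) + (if p.2 = v then 1 else 0)) := by
  simp only [dg]
  rw [Fin.sum_univ_castSucc]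
  simp only [Fin.snoc_castSucc, Fin.snoc_last]

theorem wt_snoc {m : ℕ} (x : Fin m → Fin n × Fin n) {p : Fin n × Fin n} (hp : p.1 ≠ p.2) :
    wt (fun _ => α) (Fin.snoc (α := fun _ => Fin n × Fin n) x p : Fin (m + 1) → Fin n × Fin n)
      = wt (fun _ => α) x * ((α + dg x p.1) * (α + dg x p.2)) := by
  unfold wt
  have h1 : ∀ v : Fin n, rise α (dg (Fin.snoc (α := fun _ => Fin n × Fin n) x p :
      Fin (m + 1) → Fin n × Fin n) v) = rise α (dg x v) * ((if p.1 = v then (α + dg x v) else 1)
        * (if p.2 = v then (α + dg x v) else 1)) := by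
    intro v
    rw [dg_snoc]
    by_cases h1 : p.1 = v
    · have h2 : ¬ p.2 = v := fun h => hp (h1.trans h.symm)
      rw [if_pos h1, if_neg h2, if_pos h1, if_neg h2, add_zero, rise_succ, mul_one]
    · by_cases h2 : p.2 = v
      · rw [if_neg h1, if_pos h2, if_neg h1, if_pos h2, zero_add, rise_succ, one_mul]
      · rw [if_neg h1, if_neg h2, if_neg h1, if_neg h2]
        simp
  simp only [h1, prod_mul_distrib]
  simp

open Classical in
theorem W_succ (hα : 0 < α) (m : ℕ) (H : SimpleGraph (Fin n)) :
    ∑ G, W α m G * ∑ p : Fin n × Fin n, (if H = G ⊔ SimpleGraph.edge p.1 p.2 then pw α G p else 0)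
      ≤ W α (m + 1) H := by
  have h1 : ∑ G, W α m G * ∑ p : Fin n × Fin n,
      (if H = G ⊔ SimpleGraph.edge p.1 p.2 then pw α G p else 0)
      = ∑ x : Fin m → Fin n × Fin n, wt (fun _ => α) x * ∑ p : Fin n × Fin n,
        (if H = gr x ⊔ SimpleGraph.edge p.1 p.2 then pw α (gr x) p else 0) := by
    simp only [W, sum_mul]
    rw [sum_comm]
    apply sum_congr rfl
    intro x _
    rw [sum_eq_single (gr x)]
    · rw [if_pos rfl]
    · intro G _ hG
      rw [if_neg hG.symm, zero_mul]
    · intro h
      exact absurd (mem_univ _) h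
  rw [h1]
  unfold W
  rw [← (Fin.snocEquiv (fun _ : Fin (m + 1) => Fin n × Fin n)).sum_comp, Fintype.sum_prod_type,
    sum_comm]
  apply sum_le_sum
  intro x _
  rw [mul_sum]
  apply sum_le_sum
  intro p _
  have hs : ((Fin.snocEquiv (fun _ : Fin (m + 1) => Fin n × Fin n)) (p, x))
      = Fin.snoc (α := fun _ => Fin n × Fin n) x p := rfl
  rw [hs, gr_snoc]
  by_cases hH : H = gr x ⊔ SimpleGraph.edge p.1 p.2
  · rw [if_pos hH, if_pos hH.symm]
    by_cases hp : pw α (gr x) p = 0
    · rw [hp, mul_zero]
      exact wt_nonneg (fun _ => hα.le) _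
    · have h2 := pw_ne_zero hp
      rw [wt_snoc x h2.1]
      apply mul_le_mul_of_nonneg_left _ (wt_nonneg (fun _ => hα.le) _)
      refine (pw_le hα _ _).trans ?_
      have h3 : (degree (gr x) p.1 : ℝ) ≤ dg x p.1 := by exact_mod_cast degree_gr_le x p.1
      have h4 : (degree (gr x) p.2 : ℝ) ≤ dg x p.2 := by exact_mod_cast degree_gr_le x p.2
      apply mul_le_mul
      · linarith
      · linarith
      · positivity
      · positivity
  · rw [if_neg hH, if_neg (fun h => hH h.symm), mul_zero]

/-- comparison constant -/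
noncomputable def cst (T B : ℝ) (m : ℕ) : ℝ := ∏ j ∈ range m, ((T + 2 * j) ^ 2 - B)⁻¹

theorem P_le (hα : 0 < α) (hn : 4 ≤ n) {B : ℝ} (hB : B < (n * α) ^ 2) (m : ℕ) (hm : 2 * m ≤ n + 2)
    (H : SimpleGraph (Fin n)) (hH : (1 / α + 1) * Phi α H ≤ B) :
    P α m H ≤ cst (n * α) B m * W α m H := by
  classical
  have hn0 : (0 : ℝ) < n := by exact_mod_cast (by omega : 0 < n)
  have hpos : ∀ j : ℕ, 0 < (n * α + 2 * j) ^ 2 - B := by
    intro j
    have : (n * α) ^ 2 ≤ (n * α + 2 * j) ^ 2 := by
      apply pow_le_pow_left₀ (by positivity)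
      have : (0:ℝ) ≤ 2 * j := by positivity
      linarith
    linarith
  induction m generalizing H with
  | zero =>
    rw [P_zero]
    have h1 : W α 0 H = if H = ⊥ then 1 else 0 := by
      unfold W
      rw [Fintype.sum_unique]
      have h2 : gr (default : Fin 0 → Fin n × Fin n) = ⊥ := by
        ext u v
        simp [gr, SimpleGraph.fromRel_adj]
      rw [h2]
      by_cases h3 : H = ⊥
      · rw [if_pos h3, if_pos h3.symm]
        simp [wt, dg, rise_zero]
      · rw [if_neg h3, if_neg (fun h => h3 h.symm)]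
    rw [h1]
    simp [cst]
  | succ m ih =>
    have hc0 : 0 ≤ cst (n * α) B m := prod_nonneg fun j _ => (inv_pos.2 (hpos j)).le
    rw [P_succ]
    have hterm : ∀ G, P α m G * (step α G H).toReal
        ≤ cst (n * α) B (m + 1) * (W α m G * ∑ p : Fin n × Fin n,
          (if H = G ⊔ SimpleGraph.edge p.1 p.2 then pw α G p else 0)) := by
      intro G
      have hrhs : 0 ≤ cst (n * α) B (m + 1) * (W α m G * ∑ p : Fin n × Fin n,
          (if H = G ⊔ SimpleGraph.edge p.1 p.2 then pw α G p else 0)) := by
        apply mul_nonneg (prod_nonneg fun j _ => (inv_pos.2 (hpos j)).le)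
        apply mul_nonneg (W_nonneg hα m G)
        apply sum_nonneg
        intro p _
        split_ifs
        · exact pw_nonneg hα G p
        · exact le_rfl
      by_cases hG : P α m G = 0
      · rw [hG, zero_mul]
        exact hrhs
      · have h1 := sd_eq hα hn m (by omega) G hG
        have h2 : 0 < N2 α G := N2_pos hα G hn (by omega)
        rw [step_toReal hα h2]
        by_cases hsum : ∑ p : Fin n × Fin n,
            (if H = G ⊔ SimpleGraph.edge p.1 p.2 then pw α G p else 0) = 0
        · have h3 : ∑ p : Fin n × Fin n,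
            (if H = G ⊔ SimpleGraph.edge p.1 p.2 then pw α G p / N2 α G else 0) = 0 := by
            have h4 : ∑ p : Fin n × Fin n,
              (if H = G ⊔ SimpleGraph.edge p.1 p.2 then pw α G p / N2 α G else 0)
                = (∑ p : Fin n × Fin n,
              (if H = G ⊔ SimpleGraph.edge p.1 p.2 then pw α G p else 0)) / N2 α G := by
              rw [sum_div]
              apply sum_congr rfl
              intro p _
              split_ifs <;> simp
            rw [h4, hsum, zero_div]
          rw [h3, mul_zero]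
          exact hrhs
        · obtain ⟨p, _, hp⟩ := exists_ne_zero_of_sum_ne_zero hsum
          have hHp : H = G ⊔ SimpleGraph.edge p.1 p.2 := by
            by_contra h
            exact hp (if_neg h)
          rw [if_pos hHp] at hp
          have h5 := pw_ne_zero hp
          have h6 : Phi α G ≤ Phi α H := by
            rw [hHp]
            exact Phi_le_add hα G h5.1 h5.2
          have h7 : (1 / α + 1) * Phi α G ≤ B := by
            refine le_trans (mul_le_mul_of_nonneg_left h6 ?_) hH
            positivity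
          have h8 := ih (by omega) G h7
          have h9 : (n * α + 2 * m) ^ 2 - B ≤ N2 α G := by
            refine le_trans ?_ (N2_lower' hα G)
            rw [h1]
            push_cast
            linarith
          have h10 : ∑ p : Fin n × Fin n,
              (if H = G ⊔ SimpleGraph.edge p.1 p.2 then pw α G p / N2 α G else 0)
              ≤ (∑ p : Fin n × Fin n,
              (if H = G ⊔ SimpleGraph.edge p.1 p.2 then pw α G p else 0))
                * ((n * α + 2 * m) ^ 2 - B)⁻¹ := by
            rw [sum_mul]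
            apply sum_le_sum
            intro p _
            split_ifs
            · rw [div_eq_mul_inv]
              apply mul_le_mul_of_nonneg_left _ (pw_nonneg hα G p)
              exact inv_anti₀ (hpos m) h9
            · rw [zero_mul]
          have h11 : 0 ≤ ∑ p : Fin n × Fin n,
              (if H = G ⊔ SimpleGraph.edge p.1 p.2 then pw α G p / N2 α G else 0) := by
            apply sum_nonneg
            intro p _
            split_ifs
            · exact div_nonneg (pw_nonneg hα G p) h2.le
            · exact le_rfl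
          refine (mul_le_mul h8 h10 h11 (mul_nonneg hc0 (W_nonneg hα m G))).trans ?_
          apply le_of_eq
          unfold cst
          rw [prod_range_succ]
          ring
    refine (sum_le_sum fun G _ => hterm G).trans ?_
    rw [← mul_sum]
    apply mul_le_mul_of_nonneg_left (W_succ hα m H)
    exact prod_nonneg fun j _ => (inv_pos.2 (hpos j)).le

/-- `cst * Z` is bounded. -/
theorem cst_mul_rise (hα : 0 < α) (hn : 4 ≤ n) {B : ℝ} (hB0 : 0 ≤ B) (hB : 2 * B ≤ (n * α) ^ 2)
    (m : ℕ) (hm : 2 * m ≤ n) :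
    cst (n * α) B m * rise (n * α) (2 * m) ≤ Real.exp (1 / α + B / (n * α ^ 2)) := by
  have hn0 : (0 : ℝ) < n := by exact_mod_cast (by omega : 0 < n)
  have h1 : cst (n * α) B m * rise (n * α) (2 * m)
      ≤ ∏ j ∈ range m, Real.exp (2 / (n * α) + 2 * B / (n * α) ^ 2) := by
    have h2 : rise (n * α) (2 * m)
        = ∏ j ∈ range m, ((n * α + 2 * j) * (n * α + 2 * j + 1)) := by
      clear hm
      induction m with
      | zero => simp [rise]
      | succ m ih =>
        rw [prod_range_succ, ← ih, show 2 * (m + 1) = 2 * m + 1 + 1 by ring, rise_succ, rise_succ]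
        push_cast
        ring
    rw [h2, cst, ← prod_mul_distrib]
    apply prod_le_prod
    · intro j _
      have : (n * α) ^ 2 ≤ (n * α + 2 * j) ^ 2 := by
        apply pow_le_pow_left₀ (by positivity)
        have : (0:ℝ) ≤ 2 * j := by positivity
        linarith
      have h3 : 0 < (n * α) ^ 2 := by positivity
      have h4 : 0 < (n * α + 2 * j) ^ 2 - B := by linarith
      positivity
    · intro j _
      set s : ℝ := n * α + 2 * j with hs
      have hj : (0:ℝ) ≤ 2 * j := by positivity
      have hT : 0 < n * α := by positivity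
      have hsT : n * α ≤ s := by linarith
      have hs0 : 0 < s := by linarith
      have h5 : (n * α) ^ 2 ≤ s ^ 2 := pow_le_pow_left₀ hT.le hsT 2
      have h6 : 0 < s ^ 2 - B := by
        have : 0 < (n * α) ^ 2 := by positivity
        linarith
      have h7 : (s ^ 2 - B)⁻¹ * (s * (s + 1)) ≤ 1 + (2 / s + 2 * B / s ^ 2) := by
        rw [inv_mul_eq_div, div_le_iff₀ h6]
        have h8 : (1 + (2 / s + 2 * B / s ^ 2)) * (s ^ 2 - B)
            = s ^ 2 + 2 * s + 2 * B - B - (2 * B / s) - 2 * B ^ 2 / s ^ 2 := by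
          field_simp
          ring
        rw [h8]
        have h9 : 2 * B / s ≤ s := by
          rw [div_le_iff₀ hs0]
          nlinarith
        have h10 : 2 * B ^ 2 / s ^ 2 ≤ B := by
          rw [div_le_iff₀ (by positivity)]
          nlinarith
        nlinarith
      refine h7.trans ?_
      have h11 : 2 / s + 2 * B / s ^ 2 ≤ 2 / (n * α) + 2 * B / (n * α) ^ 2 := by
        apply add_le_add
        · apply div_le_div_of_nonneg_left (by norm_num) hT hsT
        · apply div_le_div_of_nonneg_left (by positivity) (by positivity) h5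
      calc 1 + (2 / s + 2 * B / s ^ 2) ≤ 1 + (2 / (n * α) + 2 * B / (n * α) ^ 2) := by linarith
        _ ≤ Real.exp (2 / (n * α) + 2 * B / (n * α) ^ 2) := by
          rw [add_comm]
          exact Real.add_one_le_exp _
  refine h1.trans ?_
  rw [prod_const, card_range, ← Real.exp_nat_mul]
  apply Real.exp_le_exp.2
  have h2 : (2 * m : ℝ) ≤ n := by exact_mod_cast hm
  have h3 : (m : ℝ) * (2 / (n * α) + 2 * B / (n * α) ^ 2)
      = (2 * m) * (1 / (n * α) + B / (n * α) ^ 2) := by ring
  rw [h3]
  calc (2 * m : ℝ) * (1 / (n * α) + B / (n * α) ^ 2)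
      ≤ n * (1 / (n * α) + B / (n * α) ^ 2) := by
        apply mul_le_mul_of_nonneg_right h2
        positivity
    _ = 1 / α + B / (n * α ^ 2) := by
        field_simp

end Tr

open Tr

open Classical in
theorem transfer {α : ℝ} (hα : 0 < α) :
    ∃ C1 > 0, ∀ K : ℝ, 1 ≤ K → ∃ (n0 : ℕ) (C2 : ℝ), ∀ n m : ℕ, n0 ≤ n → 2 * m ≤ n →
      ∀ Bad : Set (SimpleGraph (Fin n)),
        ((law α n m).toOuterMeasure Bad).toReal
          ≤ C1 / K + C2 * E α n m (fun x => if gr x ∈ Bad then 1 else 0) := by
  refine ⟨g α 0 * Real.exp (12 / α), by unfold g; positivity, ?_⟩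
  intro K hK
  have hK0 : 0 < K := by linarith
  set c : ℝ := (1 / α + 1) * K with hc
  have hc0 : 0 < c := by positivity
  refine ⟨max 4 (⌈2 * c / α ^ 2⌉₊ + 1), Real.exp (1 / α + c / α ^ 2), ?_⟩
  intro n m hn hm Bad
  have hn4 : 4 ≤ n := (le_max_left _ _).trans hn
  have hn0 : (0 : ℝ) < n := by exact_mod_cast (by omega : 0 < n)
  have hn1 : 2 * c / α ^ 2 < n := by
    have h1 : ⌈2 * c / α ^ 2⌉₊ + 1 ≤ n := (le_max_right _ _).trans hn
    have h2 : ((⌈2 * c / α ^ 2⌉₊ : ℕ) : ℝ) + 1 ≤ n := by exact_mod_cast h1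
    have h3 := Nat.le_ceil (2 * c / α ^ 2)
    linarith
  have hB : 2 * (c * n) < (n * α) ^ 2 := by
    rw [div_lt_iff₀ (by positivity)] at hn1
    nlinarith
  have hB' : c * n < (n * α) ^ 2 := by
    have : 0 < c * n := by positivity
    linarith
  rw [outer_eq]
  have h1 : ∑ G, (if G ∈ Bad then P α m G else 0)
      ≤ ∑ G : SimpleGraph (Fin n), (if K * n < Phi α G then P α m G else 0)
        + ∑ G : SimpleGraph (Fin n), (if G ∈ Bad then cst (n * α) (c * n) m * W α m G else 0) := by
    rw [← sum_add_distrib]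
    apply sum_le_sum
    intro G _
    have hW : 0 ≤ cst (n * α) (c * n) m * W α m G := by
      apply mul_nonneg _ (W_nonneg hα m G)
      apply prod_nonneg
      intro j _
      apply (inv_pos.2 _).le
      have : (n * α) ^ 2 ≤ (n * α + 2 * j) ^ 2 := by
        apply pow_le_pow_left₀ (by positivity)
        have : (0:ℝ) ≤ 2 * j := by positivity
        linarith
      linarith
    by_cases hbad : G ∈ Bad
    · rw [if_pos hbad, if_pos hbad]
      by_cases hphi : K * n < Phi α G
      · rw [if_pos hphi]
        linarith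
      · rw [if_neg hphi, zero_add]
        apply P_le hα hn4 hB' m (by omega)
        rw [not_lt] at hphi
        rw [hc, mul_assoc]
        apply mul_le_mul_of_nonneg_left hphi
        positivity
    · rw [if_neg hbad, if_neg hbad, add_zero]
      split_ifs
      · exact P_nonneg m G
      · exact le_rfl
  refine h1.trans ?_
  apply add_le_add (markov hα hn4 m hm hK0)
  have h2 : ∑ G : SimpleGraph (Fin n), (if G ∈ Bad then cst (n * α) (c * n) m * W α m G else 0)
      = cst (n * α) (c * n) m * ∑ x : Fin m → Fin n × Fin n,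
        wt (fun _ => α) x * (if gr x ∈ Bad then 1 else 0) := by
    rw [mul_sum]
    have h3 : ∀ G : SimpleGraph (Fin n), (if G ∈ Bad then cst (n * α) (c * n) m * W α m G else 0)
        = ∑ x : Fin m → Fin n × Fin n, (if gr x = G then (if G ∈ Bad then
            cst (n * α) (c * n) m * wt (fun _ => α) x else 0) else 0) := by
      intro G
      by_cases hbad : G ∈ Bad
      · rw [if_pos hbad]
        unfold W
        rw [mul_sum]
        apply sum_congr rfl
        intro x _
        rw [if_pos hbad]
        split_ifs <;> simp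
      · rw [if_neg hbad]
        symm
        apply sum_eq_zero
        intro x _
        rw [if_neg hbad]
        simp
    simp only [h3]
    rw [sum_comm]
    apply sum_congr rfl
    intro x _
    rw [sum_eq_single (gr x)]
    · rw [if_pos rfl]
      split_ifs <;> simp
    · intro G _ hG
      rw [if_neg hG.symm]
    · intro h
      exact absurd (mem_univ _) h
  rw [h2]
  have hZ : 0 < Z α n m := by
    unfold Z
    apply rise_pos
    positivity
  have hsum : 0 ≤ ∑ x : Fin m → Fin n × Fin n,
        wt (fun _ => α) x * (if gr x ∈ Bad then 1 else 0) := by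
    apply sum_nonneg
    intro x _
    apply mul_nonneg (wt_nonneg (fun _ => hα.le) x)
    split_ifs <;> norm_num
  have h4 := cst_mul_rise (B := c * n) hα hn4 (by positivity) hB.le m hm
  have h5 : c * n / (n * α ^ 2) = c / α ^ 2 := by
    field_simp
  rw [h5] at h4
  have h6 : cst (n * α) (c * n) m ≤ Real.exp (1 / α + c / α ^ 2) / Z α n m := by
    rw [le_div_iff₀ hZ]
    exact h4
  unfold E
  calc cst (n * α) (c * n) m * ∑ x : Fin m → Fin n × Fin n,
        wt (fun _ => α) x * (if gr x ∈ Bad then 1 else 0)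
      ≤ (Real.exp (1 / α + c / α ^ 2) / Z α n m) * ∑ x : Fin m → Fin n × Fin n,
        wt (fun _ => α) x * (if gr x ∈ Bad then 1 else 0) :=
        mul_le_mul_of_nonneg_right h6 hsum
    _ = _ := by ring

end PA2a
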